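import Pool.Agent.W778.AG.LemA

set_option autoImplicit false

open MeasureTheory Metric Set Filter Topology
open scoped ENNReal RealInnerProductSpace

namespace Pool.Agent.W778.AG

/-- the odd kernel -/
noncomputable def gq (n q : ℕ) (α t : ℝ) : ℝ :=
  ∑ k ∈ (Finset.range (2 * q)).filter (fun k => Odd k), dk n k * Pg n k (Real.cos α) * Pg n k t

lemma gq_cont (n q : ℕ) (α : ℝ) : Continuous (gq n q α) := by
  unfold gq
  apply continuous_finsetSum
  intro k _
  exact (Pg_cont n k).const_mul _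

lemma gq_odd (n q : ℕ) (α t : ℝ) : gq n q α (-t) = -gq n q α t := by
  unfold gq
  rw [← Finset.sum_neg_distrib]
  apply Finset.sum_congr rfl
  intro k hk
  rw [Finset.mem_filter] at hk
  rw [par, hk.2.neg_one_pow]
  ring

lemma gq_bound (n q : ℕ) (α : ℝ) : ∃ C : ℝ, 0 ≤ C ∧ ∀ t : ℝ, |t| ≤ 1 → |gq n q α t| ≤ C := by
  obtain ⟨C, hC⟩ := (isCompact_Icc (a := (-1 : ℝ)) (b := 1)).exists_bound_of_continuousOn
    (gq_cont n q α).continuousOn
  refine ⟨C, ?_, fun t ht => hC t (abs_le.mp ht)⟩
  exact (norm_nonneg _).trans (hC 0 (by constructor <;> norm_num))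

lemma Of_eq {n q : ℕ} (hn : 3 ≤ n) (α : ℝ) {μ ν : Measure (En n)} (hμ : Sph μ) (hν : Sph ν) :
    Of n q α μ ν = ∫ p, gq n q α ⟪p.1, p.2⟫ ∂(μ.prod ν) := by
  have := hμ.1
  have := hν.1
  unfold Of gq
  rw [integral_finsetSum]
  · apply Finset.sum_congr rfl
    intro k _
    rw [integral_const_mul, fm_prod hn k hμ hν]
  · intro k _
    apply Integrable.const_mul
    refine Integrable.of_bound (C := 1) ?_ ?_
    · exact ((Pg_cont n k).measurable.comp (measurable_fst.inner measurable_snd)).aestronglyMeasurable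
    · filter_upwards [prod_ae hμ hν] with p hp
      exact Pg_le_one hn k hp

lemma wit_sph {n : ℕ} {κ R β : ℝ} {ν : Measure (En n)} {y : En n} {ω : Measure (En n)} {a D : ℝ}
    (h : Wit n κ R β ν y ω a D) : Sph (ω.map (fun x => dir (x - y))) := by
  have := h.1
  refine ⟨Measure.isProbabilityMeasure_map (measurable_dir y).aemeasurable, ?_⟩
  rw [Measure.map_apply (measurable_dir y) Metric.isClosed_sphere.measurableSet.compl]
  refine measure_mono_null ?_ h.2.2.2.1
  intro x hx
  by_contra hcon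
  apply hx
  rw [mem_sphere_zero_iff_norm]
  apply norm_dir
  intro h0
  apply hcon
  rw [sub_eq_zero] at h0
  rw [h0]
  exact mem_ball_self h.2.2.1

/-- the form in terms of the vertex -/
noncomputable def OV (n q : ℕ) (α : ℝ) (ω ω' : Measure (En n)) (y : En n) : ℝ :=
  ∫ p, gq n q α ⟪dir (p.1 - y), dir (p.2 - y)⟫ ∂(ω.prod ω')

lemma OV_meas (n q : ℕ) (α : ℝ) (y : En n) :
    Measurable (fun p : En n × En n => gq n q α ⟪dir (p.1 - y), dir (p.2 - y)⟫) :=
  (gq_cont n q α).measurable.comp (((measurable_dir y).comp measurable_fst).inner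
    ((measurable_dir y).comp measurable_snd))

lemma Of_OV {n q : ℕ} (hn : 3 ≤ n) {κ R β α : ℝ} {ν : Measure (En n)} {y : En n}
    {ω ω' : Measure (En n)} {a D a' D' : ℝ}
    (h : Wit n κ R β ν y ω a D) (h' : Wit n κ R β ν y ω' a' D') :
    Of n q α (ω.map (fun x => dir (x - y))) (ω'.map (fun x => dir (x - y))) =
      OV n q α ω ω' y := by
  have := h.1
  have := h'.1
  rw [Of_eq hn α (wit_sph h) (wit_sph h'), Measure.map_prod_map _ _ (measurable_dir y)
    (measurable_dir y), integral_map]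
  · rfl
  · exact ((measurable_dir y).prodMap (measurable_dir y)).aemeasurable
  · exact ((gq_cont n q α).measurable.comp
      (measurable_fst.inner measurable_snd)).aestronglyMeasurable

lemma dir_lip {n : ℕ} (a b : En n) (ha : a ≠ 0) : ‖dir b - dir a‖ ≤ 2 * ‖b - a‖ / ‖a‖ := by
  have ha0 : 0 < ‖a‖ := norm_pos_iff.mpr ha
  rw [le_div_iff₀ ha0]
  have e1 : ‖a‖ • dir a = a := by
    unfold dir
    rw [smul_smul, mul_inv_cancel₀ ha0.ne', one_smul]
  have e2 : ‖b‖ • dir b = b := by
    by_cases hb : b = 0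
    · rw [hb]; simp [dir]
    · unfold dir
      rw [smul_smul, mul_inv_cancel₀ (norm_pos_iff.mpr hb).ne', one_smul]
  have e3 : ‖a‖ • (dir b - dir a) = (‖a‖ - ‖b‖) • dir b + (b - a) := by
    rw [smul_sub, e1, sub_smul, e2]
    abel
  have e4 : ‖dir b - dir a‖ * ‖a‖ = ‖‖a‖ • (dir b - dir a)‖ := by
    rw [norm_smul, norm_norm]
    ring
  rw [e4, e3]
  refine (norm_add_le _ _).trans ?_
  rw [norm_smul, Real.norm_eq_abs]
  have e5 : |‖a‖ - ‖b‖| ≤ ‖b - a‖ := by
    rw [abs_sub_comm]
    exact abs_norm_sub_norm_le b a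
  have e6 := norm_dir_le b
  have e7 := abs_nonneg (‖a‖ - ‖b‖)
  nlinarith

/-- uniform closeness of directions -/
lemma dir_near {n : ℕ} (y : En n) {a d : ℝ} (ha : 0 < a) (hd : 0 < d) :
    ∀ᶠ y' in 𝓝 y, ∀ x, x ∉ ball y a → ‖dir (x - y') - dir (x - y)‖ < d := by
  have h1 : ball y (a * d / 2) ∈ 𝓝 y := ball_mem_nhds y (by positivity)
  filter_upwards [h1] with y' hy' x hx
  have hx0 : a ≤ ‖x - y‖ := by
    rw [mem_ball, not_lt, dist_eq_norm] at hx
    exact hx
  have hx1 : 0 < ‖x - y‖ := lt_of_lt_of_le ha hx0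
  have h2 := dir_lip (x - y) (x - y') (norm_pos_iff.mp hx1)
  refine lt_of_le_of_lt h2 ?_
  have h3 : ‖x - y' - (x - y)‖ < a * d / 2 := by
    have : x - y' - (x - y) = y - y' := by abel
    rw [this, ← dist_eq_norm, dist_comm]
    exact hy'
  rw [div_lt_iff₀ hx1]
  nlinarith

lemma gq_unif (n q : ℕ) (α : ℝ) {e : ℝ} (he : 0 < e) : ∃ d : ℝ, 0 < d ∧ ∀ s t : ℝ, |s| ≤ 1 →
    |t| ≤ 1 → |s - t| < d → |gq n q α s - gq n q α t| < e := by
  have h1 := (isCompact_Icc (a := (-1 : ℝ)) (b := 1)).uniformContinuousOn_of_continuous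
    (gq_cont n q α).continuousOn
  rw [Metric.uniformContinuousOn_iff] at h1
  obtain ⟨d, hd, h2⟩ := h1 e he
  exact ⟨d, hd, fun s t hs ht hst => h2 s (abs_le.mp hs) t (abs_le.mp ht) hst⟩

lemma OV_near {n q : ℕ} {α : ℝ} {ω ω' : Measure (En n)} (hω : IsProbabilityMeasure ω)
    (hω' : IsProbabilityMeasure ω') (y : En n) {a a' : ℝ} (ha : 0 < a) (ha' : 0 < a')
    (h : ω (ball y a) = 0) (h' : ω' (ball y a') = 0) {e : ℝ} (he : 0 < e) :
    ∀ᶠ y' in 𝓝 y, |OV n q α ω ω' y' - OV n q α ω ω' y| ≤ e := by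
  obtain ⟨d, hd, hu⟩ := gq_unif n q α he
  obtain ⟨C, hC0, hC⟩ := gq_bound n q α
  filter_upwards [dir_near y ha (half_pos hd), dir_near y ha' (half_pos hd)] with y' h1 h2
  have hI : ∀ z : En n, Integrable (fun p : En n × En n =>
      gq n q α ⟪dir (p.1 - z), dir (p.2 - z)⟫) (ω.prod ω') := by
    intro z
    refine Integrable.of_bound (C := C) (OV_meas n q α z).aestronglyMeasurable ?_
    exact Eventually.of_forall fun p => hC _ (abs_inner_le_one (norm_dir_le _) (norm_dir_le _))
  unfold OV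
  rw [← integral_sub (hI y') (hI y), ← Real.norm_eq_abs]
  have h3 := norm_integral_le_of_norm_le_const (μ := ω.prod ω') (C := e)
    (f := fun p : En n × En n => gq n q α ⟪dir (p.1 - y'), dir (p.2 - y')⟫ -
      gq n q α ⟪dir (p.1 - y), dir (p.2 - y)⟫) (by
      have q1 : ∀ᵐ p ∂(ω.prod ω'), p.1 ∉ ball y a := (Measure.quasiMeasurePreserving_fst).ae
        (measure_eq_zero_iff_ae_notMem.mp h)
      have q2 : ∀ᵐ p ∂(ω.prod ω'), p.2 ∉ ball y a' := (Measure.quasiMeasurePreserving_snd).ae
        (measure_eq_zero_iff_ae_notMem.mp h')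
      filter_upwards [q1, q2] with p hp1 hp2
      rw [Real.norm_eq_abs]
      apply (hu _ _ (abs_inner_le_one (norm_dir_le _) (norm_dir_le _))
        (abs_inner_le_one (norm_dir_le _) (norm_dir_le _)) ?_).le
      have e1 : ⟪dir (p.1 - y'), dir (p.2 - y')⟫ - ⟪dir (p.1 - y), dir (p.2 - y)⟫ =
          ⟪dir (p.1 - y') - dir (p.1 - y), dir (p.2 - y')⟫ +
          ⟪dir (p.1 - y), dir (p.2 - y') - dir (p.2 - y)⟫ := by
        rw [inner_sub_left, inner_sub_right]
        ring
      rw [e1]
      have e2 := abs_real_inner_le_norm (dir (p.1 - y') - dir (p.1 - y)) (dir (p.2 - y'))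
      have e3 := abs_real_inner_le_norm (dir (p.1 - y)) (dir (p.2 - y') - dir (p.2 - y))
      have e4 := norm_dir_le (p.2 - y')
      have e5 := norm_dir_le (p.1 - y)
      have e6 := h1 p.1 hp1
      have e7 := h2 p.2 hp2
      have e8 := norm_nonneg (dir (p.1 - y') - dir (p.1 - y))
      have e9 := norm_nonneg (dir (p.2 - y') - dir (p.2 - y))
      refine lt_of_le_of_lt (abs_add_le _ _) ?_
      nlinarith)
  simpa using h3

/-- the test function -/
noncomputable def psi1 (n q : ℕ) (α : ℝ) (ω : Measure (En n)) (y u : En n) : ℝ :=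
  ∫ x, gq n q α ⟪dir (x - y), u⟫ ∂ω

lemma psi1_odd (n q : ℕ) (α : ℝ) (ω : Measure (En n)) (y u : En n) :
    psi1 n q α ω y (-u) = -psi1 n q α ω y u := by
  unfold psi1
  rw [← integral_neg]
  congr 1
  ext x
  rw [inner_neg_right, gq_odd]

lemma psi1_cont (n q : ℕ) (α : ℝ) (ω : Measure (En n)) [IsProbabilityMeasure ω] (y : En n) :
    Continuous (psi1 n q α ω y) := by
  rw [continuous_iff_continuousAt]
  intro u₀
  unfold psi1
  obtain ⟨C, hC⟩ := (isCompact_Icc (a := -(‖u₀‖ + 1)) (b := ‖u₀‖ + 1)).exists_bound_of_continuousOn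
    (gq_cont n q α).continuousOn
  apply continuousAt_of_dominated (bound := fun _ => C)
  · refine Eventually.of_forall fun u => ?_
    exact ((gq_cont n q α).measurable.comp
      ((measurable_dir y).inner measurable_const)).aestronglyMeasurable
  · have h1 : ball u₀ 1 ∈ 𝓝 u₀ := ball_mem_nhds _ one_pos
    filter_upwards [h1] with u hu
    refine Eventually.of_forall fun x => hC _ ?_
    rw [mem_ball, dist_eq_norm] at hu
    have h2 : ‖u‖ ≤ ‖u₀‖ + 1 := by
      have := norm_le_insert' u u₀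
      linarith
    have h3 := abs_real_inner_le_norm (dir (x - y)) u
    have h4 := norm_dir_le (x - y)
    have h5 : |⟪dir (x - y), u⟫| ≤ ‖u₀‖ + 1 := by
      nlinarith [norm_nonneg u, norm_nonneg (dir (x - y))]
    exact abs_le.mp h5
  · exact integrable_const _
  · refine Eventually.of_forall fun x => ?_
    exact ((gq_cont n q α).comp (by fun_prop)).continuousAt

lemma psi1_near {n q : ℕ} {α : ℝ} {ω : Measure (En n)} (hω : IsProbabilityMeasure ω) (y : En n)
    {a : ℝ} (ha : 0 < a) (h : ω (ball y a) = 0) {e : ℝ} (he : 0 < e) :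
    ∀ᶠ y' in 𝓝 y, ∀ u : En n, ‖u‖ ≤ 1 → |psi1 n q α ω y' u - psi1 n q α ω y u| ≤ e := by
  obtain ⟨d, hd, hu⟩ := gq_unif n q α he
  obtain ⟨C, hC0, hC⟩ := gq_bound n q α
  filter_upwards [dir_near y ha hd] with y' h1 u hu1
  have hI : ∀ z : En n, Integrable (fun x : En n => gq n q α ⟪dir (x - z), u⟫) ω := by
    intro z
    refine Integrable.of_bound (C := C) ((gq_cont n q α).measurable.comp
      ((measurable_dir z).inner measurable_const)).aestronglyMeasurable ?_
    exact Eventually.of_forall fun p => hC _ (abs_inner_le_one (norm_dir_le _) hu1)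
  unfold psi1
  rw [← integral_sub (hI y') (hI y), ← Real.norm_eq_abs]
  have h3 := norm_integral_le_of_norm_le_const (μ := ω) (C := e)
    (f := fun x : En n => gq n q α ⟪dir (x - y'), u⟫ - gq n q α ⟪dir (x - y), u⟫) (by
      have q1 : ∀ᵐ x ∂ω, x ∉ ball y a := measure_eq_zero_iff_ae_notMem.mp h
      filter_upwards [q1] with x hx
      rw [Real.norm_eq_abs]
      apply (hu _ _ (abs_inner_le_one (norm_dir_le _) hu1)
        (abs_inner_le_one (norm_dir_le _) hu1) ?_).le
      rw [← inner_sub_left]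
      refine lt_of_le_of_lt (abs_real_inner_le_norm _ _) ?_
      have := h1 x hx
      nlinarith [norm_nonneg (dir (x - y') - dir (x - y)), norm_nonneg u])
  simpa using h3

lemma OV_psi {n q : ℕ} {α : ℝ} {ω ω' : Measure (En n)} (hω : IsProbabilityMeasure ω)
    (hω' : IsProbabilityMeasure ω') (y : En n) :
    OV n q α ω ω' y = ∫ z, psi1 n q α ω y (dir (z - y)) ∂ω' := by
  obtain ⟨C, hC0, hC⟩ := gq_bound n q α
  unfold OV psi1
  rw [integral_prod_symm]
  refine Integrable.of_bound (C := C) (OV_meas n q α y).aestronglyMeasurable ?_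
  exact Eventually.of_forall fun p => hC _ (abs_inner_le_one (norm_dir_le _) (norm_dir_le _))

lemma wit_move {n : ℕ} {κ R β : ℝ} {ν : Measure (En n)} {y y' : En n} {ω : Measure (En n)}
    {a D : ℝ} (h : Wit n κ R β ν y ω a D) (hy : dist y' y ≤ a / 4) :
    Wit n κ R β ν y' ω (a / 2) D := by
  obtain ⟨h1, h2, h3, h4, h5, h6⟩ := h
  refine ⟨h1, h2, by linarith, ?_, h5, ?_⟩
  · refine measure_mono_null ?_ h4
    apply ball_subset_ball'
    linarith
  · intro y'' hy'' r hr v hv
    apply h6 y'' _ r hr v hv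
    have := dist_triangle y'' y' y
    linarith

lemma SP_succ {J : ℕ} (f : Fin (J + 1) → Fin (J + 1) → ℝ) :
    SP f = SP (fun i j : Fin J => f i.castSucc j.castSucc) + ∑ i : Fin J, f i.castSucc (Fin.last J) := by
  unfold SP
  simp_rw [Finset.sum_filter]
  rw [Fin.sum_univ_castSucc]
  have h1 : ∑ j : Fin (J + 1), (if Fin.last J < j then f (Fin.last J) j else 0) = 0 := by
    apply Finset.sum_eq_zero
    intro j _
    rw [if_neg (not_lt.mpr (Fin.le_last j))]
  rw [h1, add_zero, ← Finset.sum_add_distrib]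
  apply Finset.sum_congr rfl
  intro i _
  rw [Fin.sum_univ_castSucc]
  simp [Fin.castSucc_lt_last]

/-- the chain, in terms of the vertex forms, with arbitrary slack -/
lemma chain_aux (hBB : S_BB) {n q : ℕ} {α κ R β τ C δ : ℝ} {ν : Measure (En n)} {K : Set (En n)}
    (hn : 3 ≤ n) (hκ0 : 0 < κ) (hκ1 : κ < 1) (hR0 : 0 < R) (hR1 : R ≤ 1) (hβ0 : 0 < β)
    (hβ1 : β ≤ 1) (hτ : 0 < τ) (hC : 0 < C) (hδ : 0 < δ)
    (hRn : (R / 10) ^ ((1 - κ) * n) ≤ 1 / 4 * (R / (1 + R)) ^ n)
    (hν : IsProbabilityMeasure ν) (hK : IsCompact K) (hνK : ν Kᶜ = 0)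
    (hgr : ∀ x, ∀ r : ℝ, 0 < r → ν (closedBall x r) ≤ ENNReal.ofReal (C * r ^ ((1 - κ) * n)))
    (J : ℕ) : ∃ (y : En n) (ω : Fin J → Measure (En n)) (a D : Fin J → ℝ), y ∈ K ∧
    (∀ ε : ℝ, 0 < ε → 0 < ν (ball y ε)) ∧ (∀ i, Wit n κ R β ν y (ω i) (a i) (D i)) ∧
    τ * ∑ i, D i - SP (fun i j => OV n q α (ω i) (ω j) y) ≤
      J * (τ * (4 * (1 + R) ^ n) + δ) := by
  have hinK : ∀ y, (∀ ε : ℝ, 0 < ε → 0 < ν (ball y ε)) → y ∈ K := by
    intro y hy
    by_contra hyK
    have h1 : Kᶜ ∈ 𝓝 y := hK.isClosed.isOpen_compl.mem_nhds hyK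
    obtain ⟨ε, hε, h2⟩ := Metric.mem_nhds_iff.mp h1
    exact (hy ε hε).ne' (measure_mono_null h2 hνK)
  induction J with
  | zero =>
    have hK0 : ν K ≠ 0 := by
      intro h0
      have h1 : ν univ ≤ ν K + ν Kᶜ := by
        rw [← union_compl_self K]
        exact measure_union_le _ _
      rw [h0, hνK, measure_univ, add_zero] at h1
      exact absurd h1 (by simp)
    obtain ⟨y, hyK, hy⟩ := exists_mem_forall_mem_nhdsWithin_pos_measure hK0
    refine ⟨y, Fin.elim0, Fin.elim0, Fin.elim0, hyK, ?_, fun i => i.elim0, ?_⟩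
    · intro ε hε
      exact hy _ (mem_nhdsWithin_of_mem_nhds (ball_mem_nhds y hε))
    · simp [SP]
  | succ J ih =>
    obtain ⟨y, ω, a, D, -, hsupp, hW, hsum⟩ := ih
    have hωp : ∀ i, IsProbabilityMeasure (ω i) := fun i => (hW i).1
    set e : ℝ := δ / (2 * ((J : ℝ) + 1) ^ 2) with he
    have he0 : 0 < e := by positivity
    have hJJ : (J : ℝ) * (J - 1) / 2 * e + J * e ≤ δ := by
      rw [he, ← add_mul, mul_div_assoc', div_le_iff₀ (by positivity)]
      have : (0 : ℝ) ≤ J := Nat.cast_nonneg J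
      nlinarith
    set ψ : En n → ℝ := fun u => ∑ i, psi1 n q α (ω i) y u with hψ
    have hψc : Continuous ψ := by
      apply continuous_finsetSum
      intro i _
      exact psi1_cont n q α (ω i) y
    have hψo : ∀ u, ψ (-u) = -ψ u := by
      intro u
      rw [hψ]
      simp only [psi1_odd, Finset.sum_neg_distrib]
    have hev : ∀ᶠ y' in 𝓝 y, (∀ i, dist y' y ≤ a i / 4) ∧
        (∀ i j, |OV n q α (ω i) (ω j) y' - OV n q α (ω i) (ω j) y| ≤ e) ∧
        (∀ i, ∀ u : En n, ‖u‖ ≤ 1 → |psi1 n q α (ω i) y' u - psi1 n q α (ω i) y u| ≤ e) := by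
      refine Filter.Eventually.and ?_ (Filter.Eventually.and ?_ ?_)
      · rw [eventually_all]
        intro i
        have := (hW i).2.2.1
        filter_upwards [closedBall_mem_nhds y (show 0 < a i / 4 by positivity)] with y' hy'
        exact hy'
      · rw [eventually_all]
        intro i
        rw [eventually_all]
        intro j
        exact OV_near (hωp i) (hωp j) y (hW i).2.2.1 (hW j).2.2.1 (hW i).2.2.2.1 (hW j).2.2.2.1 he0
      · rw [eventually_all]
        intro i
        exact psi1_near (hωp i) y (hW i).2.2.1 (hW i).2.2.2.1 he0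
    obtain ⟨ε, hε, hev⟩ := Metric.eventually_nhds_iff.mp hev
    obtain ⟨y', ω', a', D', hdist, hsupp', hW', hnew⟩ := hBB n κ R β τ C ε ν ψ y hn hκ0 hκ1 hR0 hR1
      hβ0 hβ1 hτ hC hε hRn inferInstance hgr hsupp hψc hψo
    obtain ⟨hd1, hd2, hd3⟩ := hev hdist
    have hω'p := hW'.1
    refine ⟨y', Fin.snoc (α := fun _ => Measure (En n)) ω ω',
      Fin.snoc (α := fun _ => ℝ) (fun i => a i / 2) a', Fin.snoc (α := fun _ => ℝ) D D',
      hinK y' hsupp', hsupp', ?_, ?_⟩
    · intro i
      refine Fin.lastCases ?_ (fun i => ?_) i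
      · rw [Fin.snoc_last, Fin.snoc_last, Fin.snoc_last]
        exact hW'
      · rw [Fin.snoc_castSucc, Fin.snoc_castSucc, Fin.snoc_castSucc]
        exact wit_move (hW i) (hd1 i)
    · rw [SP_succ, Fin.sum_univ_castSucc]
      simp only [Fin.snoc_castSucc, Fin.snoc_last]
      -- old part
      have hold : SP (fun i j => OV n q α (ω i) (ω j) y) - (J : ℝ) * (J - 1) / 2 * e ≤
          SP (fun i j => OV n q α (ω i) (ω j) y') := by
        have h1 : SP (fun i j => OV n q α (ω i) (ω j) y + (-1) * e) ≤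
            SP (fun i j => OV n q α (ω i) (ω j) y') := by
          apply SP_le
          intro i j _
          have := (abs_le.mp (hd2 i j)).1
          linarith
        rw [SP_add, SP_const] at h1
        linarith
      -- new part
      have hnew2 : ∫ z, ψ (dir (z - y')) ∂ω' - J * e ≤ ∑ i, OV n q α (ω i) ω' y' := by
        have h2 : ∀ i, ∫ z, psi1 n q α (ω i) y (dir (z - y')) ∂ω' - e ≤ OV n q α (ω i) ω' y' := by
          intro i
          rw [OV_psi (hωp i) hω'p y']
          have c1 := psi1_cont n q α (ω i) y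
          have c2 := psi1_cont n q α (ω i) y'
          have hI : ∀ (g : En n → ℝ), Continuous g → Integrable (fun z => g (dir (z - y'))) ω' := by
            intro g hg
            obtain ⟨B, hB⟩ := (isCompact_closedBall (0 : En n) 1).exists_bound_of_continuousOn
              hg.continuousOn
            refine Integrable.of_bound (C := B) (hg.measurable.comp
              (measurable_dir y')).aestronglyMeasurable (Eventually.of_forall fun z => hB _ ?_)
            rw [mem_closedBall_zero_iff]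
            exact norm_dir_le _
          have h3 : ∫ z, psi1 n q α (ω i) y (dir (z - y')) ∂ω' ≤
              ∫ z, (psi1 n q α (ω i) y' (dir (z - y')) + e) ∂ω' := by
            apply integral_mono (hI _ c1) ((hI _ c2).add (integrable_const e))
            intro z
            have := (abs_le.mp (hd3 i (dir (z - y')) (norm_dir_le _))).1
            change psi1 n q α (ω i) y (dir (z - y')) ≤ psi1 n q α (ω i) y' (dir (z - y')) + e
            linarith
          rw [integral_add (hI _ c2) (integrable_const e), integral_const] at h3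
          simp at h3
          linarith
        have h4 : ∫ z, ψ (dir (z - y')) ∂ω' = ∑ i, ∫ z, psi1 n q α (ω i) y (dir (z - y')) ∂ω' := by
          rw [hψ]
          simp only
          rw [integral_finsetSum]
          intro i _
          have c1 := psi1_cont n q α (ω i) y
          obtain ⟨B, hB⟩ := (isCompact_closedBall (0 : En n) 1).exists_bound_of_continuousOn
            c1.continuousOn
          refine Integrable.of_bound (C := B) (c1.measurable.comp
            (measurable_dir y')).aestronglyMeasurable (Eventually.of_forall fun z => hB _ ?_)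
          rw [mem_closedBall_zero_iff]
          exact norm_dir_le _
        rw [h4]
        have h5 : ∑ i, (∫ z, psi1 n q α (ω i) y (dir (z - y')) ∂ω' - e) ≤
            ∑ i, OV n q α (ω i) ω' y' := Finset.sum_le_sum fun i _ => h2 i
        rw [Finset.sum_sub_distrib, Finset.sum_const, Finset.card_univ, Fintype.card_fin,
          nsmul_eq_mul] at h5
        exact h5
      push_cast
      nlinarith

theorem chain (hBB : S_BB) : S_CHAIN := by
  intro n q α κ R β τ C δ ν K hn hκ0 hκ1 hR0 hR1 hβ0 hβ1 hτ hC hδ hRn hν hK hνK hgr J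
  obtain ⟨y, ω, a, D, hyK, hsupp, hW, hsum⟩ := chain_aux (q := q) (α := α) hBB hn hκ0 hκ1 hR0 hR1
    hβ0 hβ1 hτ hC hδ hRn hν hK hνK hgr J
  refine ⟨y, ω, a, D, hyK, hsupp, hW, ?_⟩
  have h1 : ∑ i, ∑ j ∈ Finset.univ.filter (fun j => i < j),
      Of n q α ((ω i).map (fun x => dir (x - y))) ((ω j).map (fun x => dir (x - y))) =
      SP (fun i j => OV n q α (ω i) (ω j) y) := by
    unfold SP
    apply Finset.sum_congr rfl
    intro i _
    apply Finset.sum_congr rfl
    intro j _
    exact Of_OV hn (hW i) (hW j)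
  rw [h1]
  exact hsum

end Pool.Agent.W778.AG
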