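import Pool.Agent.W778.AG.Stmts

set_option autoImplicit false

open MeasureTheory Metric Set
open scoped ENNReal RealInnerProductSpace

namespace Pool.Agent.W778.AG

theorem HasAngle.mono {n : ℕ} {K E : Set (En n)} {α : ℝ} (h : HasAngle K α) (hKE : K ⊆ E) :
    HasAngle E α := by
  obtain ⟨x, hx, y, hy, z, hz, h⟩ := h
  exact ⟨x, hKE hx, y, hKE hy, z, hKE hz, h⟩

theorem fin_of (hL : S_LARGE) (hS : S_SMALL) (hR : S_RIGHT) (hC : S_CAP) :
    ∀ α : ℝ, 0 < α → α < Real.pi →
      ∃ c : ℝ, c < 1 ∧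
        ∀ n : ℕ, 2 ≤ n →
          ∀ E : Set (EuclideanSpace ℝ (Fin n)), MeasurableSet E →
            ENNReal.ofReal (c * (n : ℝ)) < dimH E →
              ∃ x ∈ E, ∃ y ∈ E, ∃ z ∈ E,
                x ≠ y ∧ y ≠ z ∧ x ≠ z ∧ EuclideanGeometry.angle x y z = α := by
  intro α h0 h1
  rcases eq_or_ne (Real.cos α) 0 with hcos | hcos
  · have hα : α = Real.pi / 2 := by
      apply Real.injOn_cos ⟨h0.le, h1.le⟩ ⟨by positivity, by linarith [Real.pi_pos]⟩
      rw [hcos, Real.cos_pi_div_two]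
    refine ⟨3 / 4, by norm_num, fun n hn E hE hdim => ?_⟩
    obtain ⟨K, hKE, hK, hd⟩ := hC n E hE (3 / 4 * n) (by positivity) hdim
    rw [hα]
    exact (hR n hn K hK hd).mono hKE
  · obtain ⟨κ, hκ0, hκ1, n₀, H⟩ := hL α h0 h1 hcos
    refine ⟨max (1 - κ) (1 - 1 / ((n₀ : ℝ) + 2)), max_lt (by linarith) ?_, fun n hn E hE hdim => ?_⟩
    · have : 0 < 1 / ((n₀ : ℝ) + 2) := by positivity
      linarith
    · have hn0 : (0 : ℝ) < n := by exact_mod_cast (by omega : 0 < n)
      have hn2 : (2 : ℝ) ≤ n := by exact_mod_cast hn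
      rcases le_or_gt n₀ n with hle | hlt
      · have h2 : ENNReal.ofReal ((1 - κ) * n) < dimH E := by
          refine lt_of_le_of_lt (ENNReal.ofReal_le_ofReal ?_) hdim
          exact mul_le_mul_of_nonneg_right (le_max_left _ _) hn0.le
        obtain ⟨K, hKE, hK, hd⟩ := hC n E hE ((1 - κ) * n)
          (mul_nonneg (by linarith) hn0.le) h2
        exact (H n hle K hK hd).mono hKE
      · have h2 : ENNReal.ofReal ((n : ℝ) - 1) < dimH E := by
          refine lt_of_le_of_lt (ENNReal.ofReal_le_ofReal ?_) hdim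
          refine le_trans ?_ (mul_le_mul_of_nonneg_right (le_max_right _ _) hn0.le)
          have h3 : (n : ℝ) / ((n₀ : ℝ) + 2) ≤ 1 := by
            rw [div_le_one (by positivity)]
            have : (n : ℝ) < n₀ := by exact_mod_cast hlt
            linarith
          have h4 : (1 - 1 / ((n₀ : ℝ) + 2)) * (n : ℝ) = n - n / ((n₀ : ℝ) + 2) := by ring
          rw [h4]
          linarith
        obtain ⟨K, hKE, hK, hd⟩ := hC n E hE ((n : ℝ) - 1) (by linarith) h2
        exact (hS n hn K hK hd α h0 h1).mono hKE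

end Pool.Agent.W778.AG
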