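import Mathlib

/-!
Statements for the problem MP_937c79_an (angles in sets of large dimension), S05431.
-/

set_option autoImplicit false

open MeasureTheory Metric Set
open scoped ENNReal RealInnerProductSpace

namespace Pool.Agent.W778.AG

abbrev En (n : ℕ) := EuclideanSpace ℝ (Fin n)

/-- direction of a vector -/
noncomputable def dir {n : ℕ} (v : En n) : En n := ‖v‖⁻¹ • v

/-- normalised Gegenbauer polynomials of the unit sphere of `ℝ^n`, `n ≥ 3` -/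
noncomputable def Pg (n : ℕ) : ℕ → ℝ → ℝ
  | 0, _ => 1
  | 1, t => t
  | k + 2, t =>
    ((2 * (k : ℝ) + n) * t * Pg n (k + 1) t - ((k : ℝ) + 1) * Pg n k t) / ((k : ℝ) + n - 1)

/-- dimension of the space of spherical harmonics of degree `k` -/
noncomputable def dk (n k : ℕ) : ℝ :=
  (2 * (k : ℝ) + n - 2) / ((n : ℝ) - 2) * (Nat.choose (n - 3 + k) k : ℝ)

/-- Poisson kernel as a function of the inner product -/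
noncomputable def pk (n : ℕ) (r t : ℝ) : ℝ :=
  (1 - r ^ 2) / Real.sqrt (1 - 2 * r * t + r ^ 2) ^ n

/-- mean value over `[0, π]` with the weight `sin ^ (n - 3)` -/
noncomputable def LE (n : ℕ) (f : ℝ → ℝ) : ℝ :=
  (∫ φ in (0 : ℝ)..Real.pi, f φ * Real.sin φ ^ (n - 3)) /
    ∫ φ in (0 : ℝ)..Real.pi, Real.sin φ ^ (n - 3)

/-- modulus of `cos α + i sin α cos φ` -/
noncomputable def wf (α φ : ℝ) : ℝ := Real.sqrt (1 - (Real.sin α * Real.sin φ) ^ 2)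

/-- probability measure on the unit sphere -/
def Sph {n : ℕ} (μ : Measure (En n)) : Prop :=
  IsProbabilityMeasure μ ∧ μ (sphere (0 : En n) 1)ᶜ = 0

/-- the bilinear form of degree `k` -/
noncomputable def fm (n k : ℕ) (μ μ' : Measure (En n)) : ℝ :=
  ∫ u, ∫ v, Pg n k ⟪u, v⟫ ∂μ' ∂μ

/-- the odd part of low degree -/
noncomputable def Of (n q : ℕ) (α : ℝ) (μ μ' : Measure (En n)) : ℝ :=
  ∑ k ∈ (Finset.range (2 * q)).filter (fun k => Odd k),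
    dk n k * Pg n k (Real.cos α) * fm n k μ μ'

/-- positivity of low degree polynomials -/
def S_POS : Prop := ∀ n k : ℕ, 3 ≤ n → ∀ t : ℝ, 0 < t → t ≤ 1 →
  (k : ℝ) ≤ ((n : ℝ) - 2) * t ^ 2 / 4 → 0 < Pg n k t

/-- parity -/
def S_PAR : Prop := ∀ (n k : ℕ) (t : ℝ), Pg n k (-t) = (-1) ^ k * Pg n k t

/-- Laplace representation -/
def S_LAP : Prop := ∀ n k : ℕ, 3 ≤ n → ∀ θ : ℝ,
  ((Pg n k (Real.cos θ) : ℝ) : ℂ) * ∫ φ in (0 : ℝ)..Real.pi, ((Real.sin φ ^ (n - 3) : ℝ) : ℂ) =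
    ∫ φ in (0 : ℝ)..Real.pi, ((Real.cos θ : ℂ) + Complex.I * (Real.sin θ : ℂ) * (Real.cos φ : ℂ)) ^ k
      * ((Real.sin φ ^ (n - 3) : ℝ) : ℂ)

/-- bound by the Laplace representation -/
def S_BD : Prop := ∀ n k : ℕ, 3 ≤ n → ∀ θ : ℝ,
  |Pg n k (Real.cos θ)| ≤ LE n (fun φ => wf θ φ ^ k)

/-- expansion of the Poisson kernel -/
def S_SUM : Prop := ∀ n : ℕ, 3 ≤ n → ∀ r : ℝ, 0 ≤ r → r < 1 → ∀ t : ℝ, |t| ≤ 1 →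
  HasSum (fun k : ℕ => r ^ k * dk n k * Pg n k t) (pk n r t)

/-- positive definiteness -/
def S_PSD : Prop := ∀ n k J : ℕ, 3 ≤ n → ∀ (μ : Fin J → Measure (En n)) (a : Fin J → ℝ),
  (∀ i, Sph (μ i)) → 0 ≤ ∑ i, ∑ j, a i * a j * fm n k (μ i) (μ j)

/-- averaging over the points at angle `α` from `v` -/
def S_AVG : Prop := ∀ n : ℕ, 3 ≤ n → ∀ (v : En n) (α : ℝ), ‖v‖ = 1 →
  ∃ ρ : Measure (En n), Sph ρ ∧ ρ {w | ⟪v, w⟫ ≠ Real.cos α} = 0 ∧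
    ∀ (k : ℕ) (x : En n), ‖x‖ = 1 →
      ∫ w, Pg n k ⟪w, x⟫ ∂ρ = Pg n k (Real.cos α) * Pg n k ⟪v, x⟫

/-- concentration near the angle `α` -/
def S_CONC : Prop := ∀ n : ℕ, 3 ≤ n → ∀ r : ℝ, 0 ≤ r → r < 1 → ∀ α θ : ℝ,
  0 ≤ α → α ≤ Real.pi → 0 ≤ θ → θ ≤ Real.pi →
  ∑' k : ℕ, r ^ k * dk n k * (Pg n k (Real.cos α) * Pg n k (Real.cos θ)) ≤
    (1 - r ^ 2) / Real.sqrt (1 - 2 * r * Real.cos (θ - α) + r ^ 2) ^ n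

/-- the Poisson kernel has mean one -/
def S_MEAN : Prop := ∀ n : ℕ, 3 ≤ n → ∀ r : ℝ, 0 ≤ r → r < 1 → ∀ v : En n, ‖v‖ = 1 →
  ∀ g : ℝ → ℝ≥0∞, Measurable g → ∫⁻ z : En n, g ‖z‖ ≠ ∞ →
  ∫⁻ z : En n, ENNReal.ofReal (pk n r ⟪v, dir z⟫) * g ‖z‖ = ∫⁻ z : En n, g ‖z‖

/-- Lemma A, the sphere lemma -/
def S_A : Prop := ∀ (n q J : ℕ) (α : ℝ) (Γ : ℝ → ℝ) (η' η : ℝ) (μ : Fin J → Measure (En n))
  (D : Fin J → ℝ) (F : Fin J → Set (En n)), 3 ≤ n → 0 < α → α < Real.pi → Real.cos α ≠ 0 →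
  (∀ k < 2 * q, Even k → 0 ≤ Pg n k (Real.cos α)) →
  (∀ r ∈ Ioo (0 : ℝ) 1, 0 ≤ Γ r) →
  IntervalIntegrable (fun φ => Γ (wf α φ) * Real.sin φ ^ (n - 3)) volume 0 Real.pi →
  IntervalIntegrable (fun φ => wf α φ ^ q * Γ (Real.sqrt (wf α φ)) * Real.sin φ ^ (n - 3))
    volume 0 Real.pi →
  LE n (fun φ => Γ (wf α φ)) ≤ η' →
  LE n (fun φ => wf α φ ^ q * Γ (Real.sqrt (wf α φ))) ≤ η →
  (∀ i, Sph (μ i)) → (∀ i, 0 ≤ D i) →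
  (∀ i, ∀ r ∈ Ioo (0 : ℝ) 1, ∀ v : En n, ‖v‖ = 1 → ∫ u, pk n r ⟪v, u⟫ ∂(μ i) ≤ D i * Γ r) →
  (∀ i, IsCompact (F i)) → (∀ i, F i ⊆ sphere (0 : En n) 1) → (∀ i, μ i (F i)ᶜ = 0) →
  (η' + J * η) / 2 * ∑ i, D i - ∑ i, ∑ j ∈ Finset.univ.filter (fun j => i < j),
    Of n q α (μ i) (μ j) < (J : ℝ) * (J - 1) / 2 →
  ∃ i j, i < j ∧ ∃ u ∈ F i, ∃ v ∈ F j, ⟪u, v⟫ = Real.cos α

/-- growth function -/
noncomputable def Gam (n : ℕ) (κ R β r : ℝ) : ℝ :=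
  (1 + β) ^ (3 * n) * (40 / (β * R * (1 - r))) ^ (κ * n)

/-- `ω` is a witness measure at the vertex `y` -/
def Wit (n : ℕ) (κ R β : ℝ) (ν : Measure (En n)) (y : En n) (ω : Measure (En n)) (a D : ℝ) :
    Prop :=
  IsProbabilityMeasure ω ∧ ω ≪ ν ∧ 0 < a ∧ ω (ball y a) = 0 ∧ 0 ≤ D ∧
    ∀ y' : En n, dist y' y ≤ a / 2 → ∀ r ∈ Ioo (0 : ℝ) 1, ∀ v : En n, ‖v‖ = 1 →
      ∫ x, pk n r ⟪v, dir (x - y')⟫ ∂ω ≤ D * Gam n κ R β r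

/-- pair correlation; `G x y` is the normalised volume of the intersection of two balls -/
def S_PAIR : Prop := ∀ (n : ℕ) (κ R : ℝ) (ν : Measure (En n)), 1 ≤ n → 0 < κ → κ < 1 →
  0 < R → R ≤ 1 → (R / 10) ^ ((1 - κ) * n) ≤ 1 / 4 * (R / (1 + R)) ^ n →
  IsFiniteMeasure ν → ν (closedBall 0 1)ᶜ = 0 →
  (∀ x, ∀ r : ℝ, 0 < r → ν (closedBall x r) ≤ ENNReal.ofReal (r ^ ((1 - κ) * n))) →
  ENNReal.ofReal (1 / 2) ≤ ν (closedBall 0 1) →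
  ENNReal.ofReal (1 / 2 * (ν.real univ) ^ 2 * (R / (1 + R)) ^ n) * volume (ball (0 : En n) R) ≤
    ∫⁻ x, ∫⁻ y in (ball x (R / 10))ᶜ, volume (ball x R ∩ ball y R) ∂ν ∂ν

/-- Lemma B, normalised step -/
def S_B : Prop := ∀ (n : ℕ) (κ R β τ : ℝ) (ν : Measure (En n)) (ψ : En n → ℝ),
  3 ≤ n → 0 < κ → κ < 1 → 0 < R → R ≤ 1 → 0 < β → β ≤ 1 → 0 < τ →
  (R / 10) ^ ((1 - κ) * n) ≤ 1 / 4 * (R / (1 + R)) ^ n →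
  IsFiniteMeasure ν →
  (∀ x, ∀ r : ℝ, 0 < r → ν (closedBall x r) ≤ ENNReal.ofReal (r ^ ((1 - κ) * n))) →
  ENNReal.ofReal (1 / 2) ≤ ν (closedBall 0 1) →
  Continuous ψ → (∀ u, ψ (-u) = -ψ u) →
  ∃ (y : En n) (ω : Measure (En n)) (a D : ℝ), (∀ ε : ℝ, 0 < ε → 0 < ν (ball y ε)) ∧
    Wit n κ R β ν y ω a D ∧
    τ * D - ∫ x, ψ (dir (x - y)) ∂ω ≤ τ * (4 * (1 + R) ^ n)

/-- general step -/
def S_BB : Prop := ∀ (n : ℕ) (κ R β τ C ε : ℝ) (ν : Measure (En n)) (ψ : En n → ℝ) (y₀ : En n),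
  3 ≤ n → 0 < κ → κ < 1 → 0 < R → R ≤ 1 → 0 < β → β ≤ 1 → 0 < τ → 0 < C → 0 < ε →
  (R / 10) ^ ((1 - κ) * n) ≤ 1 / 4 * (R / (1 + R)) ^ n →
  IsFiniteMeasure ν →
  (∀ x, ∀ r : ℝ, 0 < r → ν (closedBall x r) ≤ ENNReal.ofReal (C * r ^ ((1 - κ) * n))) →
  (∀ δ : ℝ, 0 < δ → 0 < ν (ball y₀ δ)) →
  Continuous ψ → (∀ u, ψ (-u) = -ψ u) →
  ∃ (y : En n) (ω : Measure (En n)) (a D : ℝ), dist y y₀ < ε ∧
    (∀ δ : ℝ, 0 < δ → 0 < ν (ball y δ)) ∧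
    Wit n κ R β ν y ω a D ∧
    τ * D - ∫ x, ψ (dir (x - y)) ∂ω ≤ τ * (4 * (1 + R) ^ n)

/-- chain of stages -/
def S_CHAIN : Prop := ∀ (n q : ℕ) (α κ R β τ C δ : ℝ) (ν : Measure (En n)) (K : Set (En n)),
  3 ≤ n → 0 < κ → κ < 1 → 0 < R → R ≤ 1 → 0 < β → β ≤ 1 → 0 < τ → 0 < C → 0 < δ →
  (R / 10) ^ ((1 - κ) * n) ≤ 1 / 4 * (R / (1 + R)) ^ n →
  IsProbabilityMeasure ν → IsCompact K → ν Kᶜ = 0 →
  (∀ x, ∀ r : ℝ, 0 < r → ν (closedBall x r) ≤ ENNReal.ofReal (C * r ^ ((1 - κ) * n))) →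
  ∀ J : ℕ, ∃ (y : En n) (ω : Fin J → Measure (En n)) (a D : Fin J → ℝ), y ∈ K ∧
    (∀ ε : ℝ, 0 < ε → 0 < ν (ball y ε)) ∧ (∀ i, Wit n κ R β ν y (ω i) (a i) (D i)) ∧
    τ * ∑ i, D i - ∑ i, ∑ j ∈ Finset.univ.filter (fun j => i < j),
      Of n q α ((ω i).map (fun x => dir (x - y))) ((ω j).map (fun x => dir (x - y))) ≤
      J * (τ * (4 * (1 + R) ^ n) + δ)

/-- choice of the constants -/
def S_CONST : Prop := ∀ α : ℝ, 0 < α → α < Real.pi → Real.cos α ≠ 0 →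
  ∃ κ R β : ℝ, 0 < κ ∧ κ < 1 ∧ 0 < R ∧ R ≤ 1 ∧ 0 < β ∧ β ≤ 1 ∧ ∃ n₀ : ℕ, ∀ n : ℕ, n₀ ≤ n →
    3 ≤ n ∧ (R / 10) ^ ((1 - κ) * n) ≤ 1 / 4 * (R / (1 + R)) ^ n ∧
    IntervalIntegrable (fun φ => Gam n κ R β (wf α φ) * Real.sin φ ^ (n - 3)) volume 0 Real.pi ∧
    ∃ q : ℕ, 2 * (q : ℝ) ≤ ((n : ℝ) - 2) * Real.cos α ^ 2 / 4 ∧
    IntervalIntegrable (fun φ => wf α φ ^ q * Gam n κ R β (Real.sqrt (wf α φ)) *
      Real.sin φ ^ (n - 3)) volume 0 Real.pi ∧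
    LE n (fun φ => wf α φ ^ q * Gam n κ R β (Real.sqrt (wf α φ))) * (4 * (1 + R) ^ n) ≤ 1 / 2

/-- the conclusion -/
def HasAngle {n : ℕ} (K : Set (En n)) (α : ℝ) : Prop :=
  ∃ x ∈ K, ∃ y ∈ K, ∃ z ∈ K, x ≠ y ∧ y ≠ z ∧ x ≠ z ∧ EuclideanGeometry.angle x y z = α

/-- large dimension -/
def S_LARGE : Prop := ∀ α : ℝ, 0 < α → α < Real.pi → Real.cos α ≠ 0 →
  ∃ κ : ℝ, 0 < κ ∧ κ < 1 ∧ ∃ n₀ : ℕ, ∀ n : ℕ, n₀ ≤ n → ∀ K : Set (En n), IsCompact K →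
    ENNReal.ofReal ((1 - κ) * n) < dimH K → HasAngle K α

/-- slicing lemma -/
def S_SLICE : Prop := ∀ (n m : ℕ) (Ω : Type) (_ : MeasurableSpace Ω) (P : Measure Ω)
  (p : Ω → En n →L[ℝ] En m) (C C' s : ℝ) (ν : Measure (En n)) (K : Set (En n)),
  SFinite P → Measurable (fun z : Ω × En n => p z.1 z.2) →
  (∀ w : En n, w ≠ 0 → ∀ δ : ℝ, 0 < δ →
    P {o | ‖p o w‖ ≤ δ} ≤ ENNReal.ofReal (C * (δ / ‖w‖) ^ m)) →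
  IsFiniteMeasure ν → IsCompact K → ν Kᶜ = 0 → (m : ℝ) < s → 0 < C → 0 < C' →
  (∀ x, ∀ r : ℝ, 0 < r → ν (closedBall x r) ≤ ENNReal.ofReal (C' * r ^ s)) →
  ∀ᵐ o ∂P, ∀ L : Set (En n), MeasurableSet L → InjOn (p o) L → ν L = 0

/-- small dimension, all angles -/
def S_SMALL : Prop := ∀ n : ℕ, 2 ≤ n → ∀ K : Set (En n), IsCompact K →
  ENNReal.ofReal ((n : ℝ) - 1) < dimH K → ∀ α : ℝ, 0 < α → α < Real.pi → HasAngle K α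

/-- right angles -/
def S_RIGHT : Prop := ∀ n : ℕ, 2 ≤ n → ∀ K : Set (En n), IsCompact K →
  ENNReal.ofReal (3 / 4 * (n : ℝ)) < dimH K → HasAngle K (Real.pi / 2)

/-- Borel sets contain compact sets of large dimension -/
def S_CAP : Prop := ∀ (n : ℕ) (E : Set (En n)), MeasurableSet E → ∀ s : ℝ, 0 ≤ s →
  ENNReal.ofReal s < dimH E → ∃ K : Set (En n), K ⊆ E ∧ IsCompact K ∧ ENNReal.ofReal s < dimH K

end Pool.Agent.W778.AG
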