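import Pool.Agent.W778.AG.Stmts
import Pool.Agent.H744R2.Falc.FrostH

set_option autoImplicit false

open MeasureTheory Metric Set
open scoped ENNReal RealInnerProductSpace

namespace Pool.Agent.W778.AG

lemma measurable_dir {n : ℕ} (y : En n) : Measurable (fun x : En n => dir (x - y)) := by
  unfold dir
  fun_prop

lemma norm_dir {n : ℕ} {v : En n} (hv : v ≠ 0) : ‖dir v‖ = 1 := by
  unfold dir
  rw [norm_smul, norm_inv, norm_norm]
  exact inv_mul_cancel₀ (norm_ne_zero_iff.mpr hv)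

lemma continuousOn_dir {n : ℕ} (y : En n) : ContinuousOn (fun x : En n => dir (x - y)) {y}ᶜ := by
  unfold dir
  have h1 : ContinuousOn (fun x : En n => ‖x - y‖⁻¹) {y}ᶜ := by
    apply ContinuousOn.inv₀
    · fun_prop
    · intro x hx
      exact norm_ne_zero_iff.mpr (sub_ne_zero.mpr hx)
  have h2 : ContinuousOn (fun x : En n => x - y) {y}ᶜ := by fun_prop
  exact h1.smul h2

lemma measurable_pk (n : ℕ) (r : ℝ) : Measurable (pk n r) := by
  unfold pk
  fun_prop

lemma LE_nonneg (n : ℕ) (f : ℝ → ℝ) (h : ∀ φ ∈ Icc (0 : ℝ) Real.pi, 0 ≤ f φ) : 0 ≤ LE n f := by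
  unfold LE
  apply div_nonneg
  · apply intervalIntegral.integral_nonneg Real.pi_pos.le
    intro φ hφ
    exact mul_nonneg (h φ hφ) (pow_nonneg (Real.sin_nonneg_of_nonneg_of_le_pi hφ.1 hφ.2) _)
  · apply intervalIntegral.integral_nonneg Real.pi_pos.le
    intro φ hφ
    exact pow_nonneg (Real.sin_nonneg_of_nonneg_of_le_pi hφ.1 hφ.2) _

lemma wf_le_one (α φ : ℝ) : wf α φ ≤ 1 := by
  unfold wf
  apply Real.sqrt_le_one.mpr
  nlinarith [sq_nonneg (Real.sin α * Real.sin φ)]

lemma wf_nonneg (α φ : ℝ) : 0 ≤ wf α φ := Real.sqrt_nonneg _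

lemma Gam_nonneg (n : ℕ) {κ R β r : ℝ} (hR : 0 < R) (hβ : 0 < β) (hr : r ≤ 1) :
    0 ≤ Gam n κ R β r := by
  unfold Gam
  apply mul_nonneg
  · positivity
  · apply Real.rpow_nonneg
    apply div_nonneg (by norm_num)
    apply mul_nonneg (by positivity)
    linarith

theorem large (hch : S_CHAIN) (hA : S_A) (hc : S_CONST) (hp : S_POS) (hpar : S_PAR) :
    S_LARGE := by
  intro α h0 h1 hcos
  obtain ⟨κ, R, β, hκ0, hκ1, hR0, hR1, hβ0, hβ1, n₀, H⟩ := hc α h0 h1 hcos
  refine ⟨κ, hκ0, hκ1, n₀, fun n hn K hK hdim => ?_⟩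
  obtain ⟨h3, hRn, hI1, q, hq, hI2, hη⟩ := H n hn
  obtain ⟨ν, hν, hνK, C, hC, hgr⟩ := Pool.Agent.H744R2.Falc.frostman_dimH n K hK ((1 - κ) * n)
    (by have : 0 ≤ 1 - κ := by linarith
        positivity) hdim
  set η := LE n (fun φ => wf α φ ^ q * Gam n κ R β (Real.sqrt (wf α φ))) with hηdef
  have hη0 : 0 ≤ η := by
    apply LE_nonneg
    intro φ _
    apply mul_nonneg (pow_nonneg (wf_nonneg _ _) _)
    apply Gam_nonneg n hR0 hβ0
    apply Real.sqrt_le_one.mpr (wf_le_one _ _)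
  set η' := |LE n (fun φ => Gam n κ R β (wf α φ))| + 1 with hη'def
  have hη'0 : 0 < η' := by positivity
  set Db : ℝ := 4 * (1 + R) ^ n with hDb
  have hDb0 : 0 < Db := by positivity
  obtain ⟨J, hJ⟩ := exists_nat_gt (2 * η' * Db + 6)
  set τ : ℝ := (η' + J * η) / 2 with hτ
  have hJ0 : (0 : ℝ) < J := by
    have : 0 < 2 * η' * Db + 6 := by positivity
    linarith
  have hτ0 : 0 < τ := by
    have : 0 ≤ J * η := by positivity
    rw [hτ]; linarith
  obtain ⟨y, ω, a, D, hyK, hsupp, hW, hsum⟩ := hch n q α κ R β τ C 1 ν K h3 hκ0 hκ1 hR0 hR1 hβ0 hβ1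
    hτ0 hC one_pos hRn hν hK hνK hgr J
  set F : Fin J → Set (En n) := fun i => (fun x => dir (x - y)) '' (K ∩ (ball y (a i))ᶜ) with hF
  set μ : Fin J → Measure (En n) := fun i => (ω i).map (fun x => dir (x - y)) with hμ
  have hFc : ∀ i, IsCompact (F i) := by
    intro i
    apply IsCompact.image_of_continuousOn
    · exact hK.inter_right isOpen_ball.isClosed_compl
    · apply (continuousOn_dir y).mono
      rintro x ⟨_, hx⟩ hxy
      apply hx
      rw [mem_singleton_iff] at hxy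
      rw [hxy]
      exact mem_ball_self (hW i).2.2.1
  have hFs : ∀ i, F i ⊆ sphere (0 : En n) 1 := by
    rintro i _ ⟨x, ⟨_, hx⟩, rfl⟩
    rw [mem_sphere_zero_iff_norm]
    apply norm_dir
    intro h
    apply hx
    rw [sub_eq_zero] at h
    rw [h]
    exact mem_ball_self (hW i).2.2.1
  have hμF : ∀ i, μ i (F i)ᶜ = 0 := by
    intro i
    rw [hμ]
    simp only
    rw [Measure.map_apply (measurable_dir y) (hFc i).measurableSet.compl]
    apply measure_mono_null (t := Kᶜ ∪ ball y (a i))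
    · intro x hx
      by_contra hcon
      rw [mem_union, not_or, notMem_compl_iff] at hcon
      exact hx ⟨x, ⟨hcon.1, hcon.2⟩, rfl⟩
    · exact measure_union_null ((hW i).2.1 hνK) (hW i).2.2.2.1
  have hSph : ∀ i, Sph (μ i) := by
    intro i
    have := (hW i).1
    refine ⟨Measure.isProbabilityMeasure_map (measurable_dir y).aemeasurable, ?_⟩
    exact measure_mono_null (compl_subset_compl.mpr (hFs i)) (hμF i)
  have hpos : ∀ k < 2 * q, Even k → 0 ≤ Pg n k (Real.cos α) := by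
    intro k hk hev
    have habs : Pg n k (Real.cos α) = Pg n k |Real.cos α| := by
      rcases abs_cases (Real.cos α) with ⟨h, _⟩ | ⟨h, _⟩
      · rw [h]
      · rw [h, hpar, hev.neg_one_pow, one_mul]
    rw [habs]
    apply (hp n k h3 |Real.cos α| (abs_pos.mpr hcos) (Real.abs_cos_le_one α) _).le
    rw [sq_abs]
    have : (k : ℝ) < 2 * q := by exact_mod_cast hk
    linarith
  have hbd : ∀ i, ∀ r ∈ Ioo (0 : ℝ) 1, ∀ v : En n, ‖v‖ = 1 →
      ∫ u, pk n r ⟪v, u⟫ ∂(μ i) ≤ D i * Gam n κ R β r := by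
    intro i r hr v hv
    rw [hμ]
    simp only
    rw [integral_map (measurable_dir y).aemeasurable]
    · refine (hW i).2.2.2.2.2 y ?_ r hr v hv
      rw [dist_self]
      linarith [(hW i).2.2.1]
    · apply Measurable.aestronglyMeasurable
      exact (measurable_pk n r).comp (by fun_prop)
  have hfin := hA n q J α (Gam n κ R β) η' η μ D F h3 h0 h1 hcos hpos
    (fun r hr => Gam_nonneg n hR0 hβ0 hr.2.le) hI1 hI2
    ((le_abs_self _).trans (by rw [hη'def]; linarith)) le_rfl hSph (fun i => (hW i).2.2.2.2.1) hbd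
    hFc hFs hμF ?_
  · obtain ⟨i, j, _, u, ⟨x, ⟨hxK, hx⟩, rfl⟩, v, ⟨z, ⟨hzK, hz⟩, rfl⟩, huv⟩ := hfin
    have hxy : x ≠ y := by
      rintro rfl
      exact hx (mem_ball_self (hW i).2.2.1)
    have hzy : z ≠ y := by
      rintro rfl
      exact hz (mem_ball_self (hW j).2.2.1)
    have hx0 : x - y ≠ 0 := sub_ne_zero.mpr hxy
    have hz0 : z - y ≠ 0 := sub_ne_zero.mpr hzy
    refine ⟨x, hxK, y, hyK, z, hzK, hxy, hzy.symm, ?_, ?_⟩
    · rintro rfl
      simp only at huv
      rw [real_inner_self_eq_norm_sq, norm_dir hx0] at huv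
      have : Real.cos α < 1 := by
        rw [← Real.cos_zero]
        exact Real.cos_lt_cos_of_nonneg_of_le_pi le_rfl h1.le h0
      linarith
    · rw [EuclideanGeometry.angle, InnerProductGeometry.angle]
      have h5 : ⟪x -ᵥ y, z -ᵥ y⟫ / (‖x -ᵥ y‖ * ‖z -ᵥ y‖) = Real.cos α := by
        rw [← huv]
        simp only [dir, vsub_eq_sub, inner_smul_left, inner_smul_right, RCLike.conj_to_real]
        field_simp
      rw [h5, Real.arccos_cos h0.le h1.le]
  · have h6 : (η' + J * η) / 2 * ∑ i, D i - ∑ i, ∑ j ∈ Finset.univ.filter (fun j => i < j),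
        Of n q α (μ i) (μ j) ≤ J * (τ * Db + 1) := hsum
    refine lt_of_le_of_lt h6 ?_
    have h7 : τ * Db + 1 < ((J : ℝ) - 1) / 2 := by
      have h8 : J * η * Db ≤ J * (1 / 2) := by
        rw [mul_assoc]
        exact mul_le_mul_of_nonneg_left hη hJ0.le
      rw [hτ]
      nlinarith
    nlinarith

end Pool.Agent.W778.AG
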