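import Pool.Agent.W778.AG.Lap
import Pool.Agent.W778.AG.Large

set_option autoImplicit false

open MeasureTheory Metric Set
open scoped ENNReal RealInnerProductSpace

namespace Pool.Agent.W778.AG

/-- uniform measure on the unit ball -/
noncomputable def gam (n : ℕ) : Measure (En n) :=
  (volume (ball (0 : En n) 1))⁻¹ • volume.restrict (ball (0 : En n) 1)

lemma vol_ball_ne_zero (n : ℕ) : volume (ball (0 : En n) 1) ≠ 0 :=
  (measure_ball_pos _ _ one_pos).ne'

lemma vol_ball_ne_top (n : ℕ) : volume (ball (0 : En n) 1) ≠ ∞ := measure_ball_lt_top.ne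

instance gam_prob (n : ℕ) : IsProbabilityMeasure (gam n) := by
  constructor
  unfold gam
  rw [Measure.smul_apply, Measure.restrict_apply_univ, smul_eq_mul]
  exact ENNReal.inv_mul_cancel (vol_ball_ne_zero n) (vol_ball_ne_top n)

lemma gam_ac (n : ℕ) : gam n ≪ volume := by
  unfold gam
  exact (Measure.smul_absolutelyContinuous).trans Measure.absolutelyContinuous_restrict

lemma gam_mp (n : ℕ) (O : En n ≃ₗᵢ[ℝ] En n) : MeasurePreserving O (gam n) (gam n) := by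
  have h1 : MeasurePreserving O (volume : Measure (En n)) volume := O.measurePreserving
  have h2 := h1.restrict_preimage (s := ball (0 : En n) 1) measurableSet_ball
  have h3 : O ⁻¹' ball (0 : En n) 1 = ball (0 : En n) 1 := by
    ext x
    simp
  rw [h3] at h2
  unfold gam
  exact h2.smul_measure _

/-- random unit vector orthogonal to `v` -/
noncomputable def ww {n : ℕ} (v h : En n) : En n := dir (h - ⟪v, h⟫ • v)

lemma measurable_ww {n : ℕ} (v : En n) : Measurable (ww v) := by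
  unfold ww dir
  fun_prop

lemma measurable_ww2 {n : ℕ} : Measurable (fun p : En n × En n => ww p.1 p.2) := by
  unfold ww dir
  fun_prop

lemma ww_map {n : ℕ} (v h : En n) (O : En n ≃ₗᵢ[ℝ] En n) (hO : O v = v) :
    ww v (O h) = O (ww v h) := by
  unfold ww dir
  have h1 : ⟪v, O h⟫ = ⟪v, h⟫ := by
    conv_lhs => rw [← hO]
    exact O.inner_map_map v h
  have h2 : O h - ⟪v, O h⟫ • v = O (h - ⟪v, h⟫ • v) := by
    rw [h1, map_sub, map_smul, hO]
  rw [h2, O.norm_map, map_smul]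

lemma ae_ne {n : ℕ} (hn : 2 ≤ n) (v : En n) : ∀ᵐ h ∂(gam n), h - ⟪v, h⟫ • v ≠ 0 := by
  apply (gam_ac n).ae_le
  have h1 : volume ((Submodule.span ℝ {v} : Submodule ℝ (En n)) : Set (En n)) = 0 := by
    apply Measure.addHaar_submodule
    intro htop
    have h2 : Module.finrank ℝ (Submodule.span ℝ ({v} : Set (En n))) ≤ 1 := by
      have := finrank_span_le_card (R := ℝ) ({v} : Set (En n))
      simpa using this
    rw [htop, finrank_top, finrank_euclideanSpace_fin] at h2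
    omega
  refine measure_mono_null ?_ h1
  intro h hh
  simp only [ne_eq, not_not, mem_ofPred_eq, mem_compl_iff] at hh
  rw [sub_eq_zero] at hh
  rw [hh]
  exact Submodule.smul_mem _ _ (Submodule.mem_span_singleton_self v)

lemma ww_norm {n : ℕ} (hn : 2 ≤ n) (v : En n) : ∀ᵐ h ∂(gam n), ‖ww v h‖ = 1 := by
  filter_upwards [ae_ne hn v] with h hh
  exact norm_dir hh

lemma ww_orth {n : ℕ} (v h : En n) (hv : ‖v‖ = 1) : ⟪v, ww v h⟫ = 0 := by
  unfold ww dir
  rw [inner_smul_right, inner_sub_right, inner_smul_right, real_inner_self_eq_norm_sq, hv]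
  ring

lemma ww_norm_le {n : ℕ} (v h : En n) : ‖ww v h‖ ≤ 1 := by
  unfold ww
  by_cases hz : h - ⟪v, h⟫ • v = 0
  · rw [hz]
    simp [dir]
  · rw [norm_dir hz]

lemma int_ww {n : ℕ} (v : En n) {G : Type*} [NormedAddCommGroup G] [SecondCountableTopology G]
    [MeasurableSpace G] [BorelSpace G] {F : En n → G} (hF : Continuous F) :
    Integrable (fun h => F (ww v h)) (gam n) := by
  obtain ⟨C, hC⟩ := (isCompact_closedBall (0 : En n) 1).exists_bound_of_continuousOn hF.continuousOn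
  refine Integrable.of_bound (C := C) ?_ ?_
  · exact (hF.measurable.comp (measurable_ww v)).aestronglyMeasurable
  · refine Filter.Eventually.of_forall fun h => hC _ ?_
    rw [mem_closedBall_zero_iff]
    exact ww_norm_le v h

lemma int_comp {n : ℕ} (v : En n) {G : Type*} [NormedAddCommGroup G] [NormedSpace ℝ G]
    (F : En n → G) (O : En n ≃ₗᵢ[ℝ] En n) (hO : O v = v) :
    ∫ h, F (O (ww v h)) ∂(gam n) = ∫ h, F (ww v h) ∂(gam n) := by
  have h1 := (gam_mp n O).integral_comp O.toHomeomorph.measurableEmbedding (fun h => F (ww v h))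
  rw [← h1]
  congr 1
  ext h
  rw [ww_map v h O hO]

/-- real moments -/
noncomputable def Mo {n : ℕ} (v a : En n) (j : ℕ) : ℝ := ∫ h, ⟪a, ww v h⟫ ^ j ∂(gam n)

lemma Mo_eq {n : ℕ} {v a a' : En n} (ha : ⟪a, v⟫ = 0) (ha' : ⟪a', v⟫ = 0) (hn : ‖a‖ = ‖a'‖)
    (j : ℕ) : Mo v a j = Mo v a' j := by
  have h1 : (ℝ ∙ (a - a'))ᗮ.reflection a = a' := Submodule.reflection_sub hn
  have h2 : (ℝ ∙ (a - a'))ᗮ.reflection v = v := by
    apply Submodule.reflection_mem_subspace_eq_self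
    rw [Submodule.mem_orthogonal_singleton_iff_inner_right, inner_sub_left, ha, ha', sub_zero]
  unfold Mo
  rw [← int_comp v (fun w => ⟪a', w⟫ ^ j) _ h2]
  congr 1
  ext h
  have h3 := ((ℝ ∙ (a - a'))ᗮ.reflection).inner_map_map a (ww v h)
  rw [h1] at h3
  rw [h3]

lemma Mo_smul {n : ℕ} (v a : En n) (c : ℝ) (j : ℕ) : Mo v (c • a) j = c ^ j * Mo v a j := by
  unfold Mo
  rw [← integral_const_mul]
  congr 1
  ext h
  rw [inner_smul_left, mul_pow]
  simp

lemma Mo_unit {n : ℕ} {v a f : En n} (ha : ⟪a, v⟫ = 0) (hf : ⟪f, v⟫ = 0) (hf1 : ‖f‖ = 1)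
    (j : ℕ) : Mo v a j = ‖a‖ ^ j * Mo v f j := by
  rw [← Mo_smul]
  apply Mo_eq ha
  · rw [inner_smul_left, hf, mul_zero]
  · rw [norm_smul, hf1, mul_one, norm_norm]

/-- complex moments are polynomial in `z` -/
lemma poly_id {n : ℕ} {v a b f : En n} (ha : ⟪a, v⟫ = 0) (hb : ⟪b, v⟫ = 0) (hf : ⟪f, v⟫ = 0)
    (hf1 : ‖f‖ = 1) (l : ℕ) :
    (∑ i ∈ Finset.range (2 * l + 1), Polynomial.C (((2 * l).choose i : ℂ) *
      ∫ h, ((⟪a, ww v h⟫ ^ (2 * l - i) * ⟪b, ww v h⟫ ^ i : ℝ) : ℂ) ∂(gam n)) * Polynomial.X ^ i) =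
    Polynomial.C ((Mo v f (2 * l) : ℝ) : ℂ) * (Polynomial.C ((‖a‖ ^ 2 : ℝ) : ℂ) +
      Polynomial.C ((2 * ⟪a, b⟫ : ℝ) : ℂ) * Polynomial.X +
      Polynomial.C ((‖b‖ ^ 2 : ℝ) : ℂ) * Polynomial.X ^ 2) ^ l := by
  apply Polynomial.eq_of_infinite_eval_eq
  refine Set.infinite_of_injective_forall_mem (f := fun x : ℝ => (x : ℂ)) Complex.ofReal_injective ?_
  intro x
  rw [mem_ofPred_eq]
  have h1 := Mo_unit (v := v) (a := a + x • b) (f := f)
    (by rw [inner_add_left, inner_smul_left, ha, hb, mul_zero, add_zero]) hf hf1 (2 * l)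
  have h2 : ‖a + x • b‖ ^ (2 * l) = (‖a‖ ^ 2 + 2 * ⟪a, b⟫ * x + ‖b‖ ^ 2 * x ^ 2) ^ l := by
    rw [pow_mul, norm_add_sq_real, inner_smul_right, norm_smul, mul_pow, Real.norm_eq_abs, sq_abs]
    ring
  have h3 : Mo v (a + x • b) (2 * l) = ∑ i ∈ Finset.range (2 * l + 1), ((2 * l).choose i : ℝ) *
      (∫ h, (⟪a, ww v h⟫ ^ (2 * l - i) * ⟪b, ww v h⟫ ^ i : ℝ) ∂(gam n)) * x ^ i := by
    unfold Mo
    have h4 : ∀ h, ⟪a + x • b, ww v h⟫ ^ (2 * l) = ∑ i ∈ Finset.range (2 * l + 1),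
        (((2 * l).choose i : ℝ) * x ^ i) * (⟪a, ww v h⟫ ^ (2 * l - i) * ⟪b, ww v h⟫ ^ i) := by
      intro h
      rw [inner_add_left, inner_smul_left, add_comm, add_pow]
      apply Finset.sum_congr rfl
      intro i _
      simp only [conj_trivial]
      ring
    simp_rw [h4]
    rw [integral_finsetSum]
    · apply Finset.sum_congr rfl
      intro i _
      rw [integral_const_mul]
      ring
    · intro i _
      apply Integrable.const_mul
      exact int_ww v (F := fun w => ⟪a, w⟫ ^ (2 * l - i) * ⟪b, w⟫ ^ i) (by fun_prop)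
  rw [h1, h2] at h3
  have h5 := congrArg (fun t : ℝ => (t : ℂ)) h3
  rw [Polynomial.eval_finsetSum]
  simp only [Polynomial.eval_mul, Polynomial.eval_C, Polynomial.eval_pow, Polynomial.eval_X,
    Polynomial.eval_add, integral_complex_ofReal]
  push_cast at h5 ⊢
  rw [← h5]
  ring

lemma cplx_even {n : ℕ} {v a b f : En n} (ha : ⟪a, v⟫ = 0) (hb : ⟪b, v⟫ = 0) (hf : ⟪f, v⟫ = 0)
    (hf1 : ‖f‖ = 1) (l : ℕ) (z : ℂ) :
    ∫ h, (((⟪a, ww v h⟫ : ℝ) : ℂ) + z * ((⟪b, ww v h⟫ : ℝ) : ℂ)) ^ (2 * l) ∂(gam n) =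
      ((Mo v f (2 * l) : ℝ) : ℂ) * (((‖a‖ ^ 2 : ℝ) : ℂ) + ((2 * ⟪a, b⟫ : ℝ) : ℂ) * z +
      ((‖b‖ ^ 2 : ℝ) : ℂ) * z ^ 2) ^ l := by
  have h1 := congrArg (Polynomial.eval z) (poly_id ha hb hf hf1 l)
  rw [Polynomial.eval_finsetSum] at h1
  simp only [Polynomial.eval_mul, Polynomial.eval_C, Polynomial.eval_pow, Polynomial.eval_X,
    Polynomial.eval_add] at h1
  rw [← h1]
  have h4 : ∀ h, (((⟪a, ww v h⟫ : ℝ) : ℂ) + z * ((⟪b, ww v h⟫ : ℝ) : ℂ)) ^ (2 * l) =
      ∑ i ∈ Finset.range (2 * l + 1),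
        (((2 * l).choose i : ℂ) * z ^ i) *
          ((⟪a, ww v h⟫ ^ (2 * l - i) * ⟪b, ww v h⟫ ^ i : ℝ) : ℂ) := by
    intro h
    rw [add_comm, add_pow]
    apply Finset.sum_congr rfl
    intro i _
    push_cast
    ring
  simp_rw [h4]
  rw [integral_finsetSum]
  · apply Finset.sum_congr rfl
    intro i _
    rw [integral_const_mul]
    ring
  · intro i _
    apply Integrable.const_mul
    exact int_ww v (F := fun w => ((⟪a, w⟫ ^ (2 * l - i) * ⟪b, w⟫ ^ i : ℝ) : ℂ)) (by fun_prop)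

lemma coeff_two (l : ℕ) (m : ℂ) : (Polynomial.C m * (Polynomial.C ((1 : ℝ) : ℂ) +
      Polynomial.C ((0 : ℝ) : ℂ) * Polynomial.X +
      Polynomial.C ((1 : ℝ) : ℂ) * Polynomial.X ^ 2) ^ l).coeff 2 = m * l := by
  have h1 : (Polynomial.C ((1 : ℝ) : ℂ) + Polynomial.C ((0 : ℝ) : ℂ) * Polynomial.X +
      Polynomial.C ((1 : ℝ) : ℂ) * Polynomial.X ^ 2) ^ l =
      Polynomial.expand ℂ 2 ((1 + Polynomial.X) ^ l) := by
    simp
  rw [h1, Polynomial.coeff_C_mul]
  congr 1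
  have h2 := Polynomial.coeff_expand_mul (R := ℂ) (p := 2) (by norm_num)
    ((1 + Polynomial.X) ^ l) 1
  rw [one_mul] at h2
  rw [h2, Polynomial.coeff_one_add_X_pow, Nat.choose_one_right]

lemma cross {n : ℕ} {v f g : En n} (hf : ⟪f, v⟫ = 0) (hg : ⟪g, v⟫ = 0)
    (hf1 : ‖f‖ = 1) (hg1 : ‖g‖ = 1) (hfg : ⟪f, g⟫ = 0) (l : ℕ) :
    (2 * (l : ℝ) + 1) * ∫ h, ⟪f, ww v h⟫ ^ (2 * l) * ⟪g, ww v h⟫ ^ 2 ∂(gam n) =
      Mo v f (2 * l + 2) := by
  have h1 := congrArg (fun p => Polynomial.coeff p 2) (poly_id hf hg hf hf1 (l + 1))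
  rw [hf1, hg1, hfg, mul_zero, one_pow, coeff_two, Polynomial.finsetSum_coeff] at h1
  simp only [Polynomial.coeff_C_mul_X_pow] at h1
  rw [Finset.sum_ite_eq] at h1
  rw [if_pos (by rw [Finset.mem_range]; omega)] at h1
  have h2 : 2 * (l + 1) - 2 = 2 * l := by omega
  have h3 : (((2 * (l + 1)).choose 2 : ℕ) : ℂ) = ((l : ℂ) + 1) * (2 * l + 1) := by
    rw [Nat.choose_two_right]
    have h4 : 2 * (l + 1) * (2 * (l + 1) - 1) / 2 = (l + 1) * (2 * l + 1) := by
      have : 2 * (l + 1) - 1 = 2 * l + 1 := by omega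
      rw [this]
      have : 2 * (l + 1) * (2 * l + 1) = 2 * ((l + 1) * (2 * l + 1)) := by ring
      rw [this]
      simp
    rw [h4]
    push_cast
    ring
  rw [h2, h3, integral_complex_ofReal] at h1
  have h5 : ((l : ℝ) + 1) * ((2 * (l : ℝ) + 1) *
      ∫ h, ⟪f, ww v h⟫ ^ (2 * l) * ⟪g, ww v h⟫ ^ 2 ∂(gam n)) =
      ((l : ℝ) + 1) * Mo v f (2 * (l + 1)) := by
    have h6 : ((((l : ℝ) + 1) * ((2 * (l : ℝ) + 1) *
      ∫ h, ⟪f, ww v h⟫ ^ (2 * l) * ⟪g, ww v h⟫ ^ 2 ∂(gam n)) : ℝ) : ℂ) =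
      ((((l : ℝ) + 1) * Mo v f (2 * (l + 1)) : ℝ) : ℂ) := by
      push_cast
      push_cast at h1
      linear_combination h1
    exact_mod_cast h6
  have h7 : ((l : ℝ) + 1) ≠ 0 := by positivity
  exact mul_left_cancel₀ h7 h5

lemma Mo_rec {n : ℕ} (hn : 3 ≤ n) {v f : En n} (hv : ‖v‖ = 1) (hf : ⟪f, v⟫ = 0) (hf1 : ‖f‖ = 1)
    (l : ℕ) : (2 * (l : ℝ) + 1) * Mo v f (2 * l) = (2 * (l : ℝ) + n - 1) * Mo v f (2 * l + 2) := by
  set U := (ℝ ∙ v)ᗮ with hU
  have hfin : Module.finrank ℝ U = n - 1 := by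
    have h1 := Submodule.finrank_add_finrank_orthogonal (ℝ ∙ v)
    have h2 : Module.finrank ℝ (ℝ ∙ v) = 1 := finrank_span_singleton (by
      intro h0
      rw [h0, norm_zero] at hv
      exact zero_ne_one hv)
    rw [h2, finrank_euclideanSpace_fin] at h1
    rw [hU]
    omega
  have b := (stdOrthonormalBasis ℝ U).reindex (finCongr hfin)
  have hbv : ∀ i, ⟪((b i : U) : En n), v⟫ = 0 := by
    intro i
    exact Submodule.mem_orthogonal_singleton_iff_inner_left.mp (b i).2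
  have hb1 : ∀ i, ‖((b i : U) : En n)‖ = 1 := by
    intro i
    exact b.orthonormal.1 i
  have hb2 : ∀ i j, i ≠ j → ⟪((b i : U) : En n), ((b j : U) : En n)⟫ = 0 := by
    intro i j hij
    exact b.orthonormal.2 hij
  set i0 : Fin (n - 1) := ⟨0, by omega⟩ with hi0
  have e1 : ∀ j, Mo v f j = Mo v ((b i0 : U) : En n) j := fun j => by
    apply Mo_eq hf (hbv i0)
    rw [hf1, hb1]
  have hsum : ∀ᵐ h ∂(gam n), ⟪((b i0 : U) : En n), ww v h⟫ ^ (2 * l) =
      ∑ i, ⟪((b i0 : U) : En n), ww v h⟫ ^ (2 * l) * ⟪((b i : U) : En n), ww v h⟫ ^ 2 := by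
    filter_upwards [ww_norm (by omega : 2 ≤ n) v] with h hh
    have hw : ww v h ∈ U := by
      rw [hU, Submodule.mem_orthogonal_singleton_iff_inner_right]
      exact ww_orth v h hv
    have h1 := b.sum_sq_norm_inner_right ⟨ww v h, hw⟩
    have h2 : ∀ i, ‖⟪b i, (⟨ww v h, hw⟩ : U)⟫‖ ^ 2 = ⟪((b i : U) : En n), ww v h⟫ ^ 2 := by
      intro i
      rw [Real.norm_eq_abs, sq_abs]
      rfl
    simp_rw [h2] at h1
    rw [← Finset.mul_sum, h1]
    have : ‖(⟨ww v h, hw⟩ : U)‖ = 1 := hh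
    rw [this]
    ring
  have h3 : Mo v ((b i0 : U) : En n) (2 * l) = ∑ i, ∫ h, ⟪((b i0 : U) : En n), ww v h⟫ ^ (2 * l) *
      ⟪((b i : U) : En n), ww v h⟫ ^ 2 ∂(gam n) := by
    unfold Mo
    rw [integral_congr_ae hsum, integral_finsetSum]
    intro i _
    exact int_ww v (F := fun w => ⟪((b i0 : U) : En n), w⟫ ^ (2 * l) * ⟪((b i : U) : En n), w⟫ ^ 2)
      (by fun_prop)
  have h4 : ∀ i, (2 * (l : ℝ) + 1) * ∫ h, ⟪((b i0 : U) : En n), ww v h⟫ ^ (2 * l) *
      ⟪((b i : U) : En n), ww v h⟫ ^ 2 ∂(gam n) =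
      if i = i0 then (2 * (l : ℝ) + 1) * Mo v ((b i0 : U) : En n) (2 * l + 2) else
        Mo v ((b i0 : U) : En n) (2 * l + 2) := by
    intro i
    split_ifs with h
    · subst h
      congr 1
      unfold Mo
      congr 1
      ext h
      ring
    · exact cross (hbv i0) (hbv i) (hb1 i0) (hb1 i) (hb2 i0 i (Ne.symm h)) l
  rw [e1, e1, h3, Finset.mul_sum]
  simp_rw [h4]
  rw [Finset.sum_ite, Finset.sum_const, Finset.sum_const]
  have c1 : (Finset.univ.filter (fun i : Fin (n - 1) => i = i0)).card = 1 := by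
    rw [Finset.filter_eq', if_pos (Finset.mem_univ _), Finset.card_singleton]
  have c2 : (Finset.univ.filter (fun i : Fin (n - 1) => ¬ i = i0)).card = n - 2 := by
    have := Finset.card_filter_add_card_filter_not (s := (Finset.univ : Finset (Fin (n - 1))))
      (fun i => i = i0)
    rw [c1, Finset.card_univ, Fintype.card_fin] at this
    omega
  rw [c1, c2, nsmul_eq_mul, nsmul_eq_mul, Nat.cast_sub (by omega)]
  push_cast
  ring

lemma Mo_val {n : ℕ} (hn : 3 ≤ n) {v f : En n} (hv : ‖v‖ = 1) (hf : ⟪f, v⟫ = 0) (hf1 : ‖f‖ = 1)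
    (l : ℕ) : Mo v f (2 * l) * (-1) ^ l = Pg n (2 * l) 0 := by
  have hn' : (3 : ℝ) ≤ n := by exact_mod_cast hn
  induction l with
  | zero => simp [Mo, Pg_zero]
  | succ l ih =>
    have h1 := Mo_rec hn hv hf hf1 l
    rw [show 2 * (l + 1) = 2 * l + 2 by ring, Pg_add_two]
    have hd : ((2 * l : ℕ) : ℝ) + n - 1 ≠ 0 := by
      have : (0 : ℝ) ≤ ((2 * l : ℕ) : ℝ) := Nat.cast_nonneg _
      linarith
    rw [eq_div_iff hd, ← ih]
    push_cast
    rw [pow_succ]
    linear_combination ((-1) ^ l) * h1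

lemma Pg_odd_zero (n l : ℕ) : Pg n (2 * l + 1) 0 = 0 := by
  have h1 := par n (2 * l + 1) 0
  rw [neg_zero, Odd.neg_one_pow ⟨l, rfl⟩] at h1
  linarith

/-- binomial expansion of the polynomials -/
lemma RR {n : ℕ} (hn : 3 ≤ n) (k : ℕ) (θ : ℝ) : Pg n k (Real.cos θ) =
    ∑ j ∈ Finset.range (k + 1), (k.choose j : ℝ) * Real.cos θ ^ (k - j) * Real.sin θ ^ j *
      Pg n j 0 := by
  obtain ⟨m, rfl⟩ : ∃ m, n = m + 3 := ⟨n - 3, by omega⟩
  set W : ℂ := ∫ φ in (0 : ℝ)..Real.pi, ((Real.sin φ ^ m : ℝ) : ℂ) with hW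
  have hW0 : W ≠ 0 := by
    rw [hW, intervalIntegral.integral_ofReal]
    exact_mod_cast (W_pos m).ne'
  have h0 : ∀ j : ℕ, ((Pg (m + 3) j 0 : ℝ) : ℂ) * W =
      ∫ φ in (0 : ℝ)..Real.pi, (Complex.I * ((Real.cos φ : ℝ) : ℂ)) ^ j *
        ((Real.sin φ ^ m : ℝ) : ℂ) := by
    intro j
    have h1 := lap_aux m (Real.pi / 2) j
    rw [Real.cos_pi_div_two] at h1
    rw [h1]
    unfold Lf Yf
    rw [Real.cos_pi_div_two, Real.sin_pi_div_two]
    simp
  have h2 := lap_aux m θ k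
  have h3 : Lf m k θ = ∑ j ∈ Finset.range (k + 1), ((k.choose j : ℝ) : ℂ) *
      ((Real.cos θ : ℝ) : ℂ) ^ (k - j) * ((Real.sin θ : ℝ) : ℂ) ^ j *
      (((Pg (m + 3) j 0 : ℝ) : ℂ) * W) := by
    unfold Lf
    have h4 : ∀ φ : ℝ, Yf θ φ ^ k * ((Real.sin φ ^ m : ℝ) : ℂ) =
        ∑ j ∈ Finset.range (k + 1), (((k.choose j : ℝ) : ℂ) *
          ((Real.cos θ : ℝ) : ℂ) ^ (k - j) * ((Real.sin θ : ℝ) : ℂ) ^ j) *
          ((Complex.I * ((Real.cos φ : ℝ) : ℂ)) ^ j * ((Real.sin φ ^ m : ℝ) : ℂ)) := by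
      intro φ
      unfold Yf
      rw [add_comm, add_pow, Finset.sum_mul]
      apply Finset.sum_congr rfl
      intro j _
      rw [Complex.ofReal_natCast]
      ring
    simp_rw [h4]
    rw [intervalIntegral.integral_finsetSum]
    · apply Finset.sum_congr rfl
      intro j _
      rw [intervalIntegral.integral_const_mul, h0]
    · intro j _
      apply Continuous.intervalIntegrable
      fun_prop
  rw [← h2] at h3
  have h5 : ((Pg (m + 3) k (Real.cos θ) : ℝ) : ℂ) * W = ((∑ j ∈ Finset.range (k + 1),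
      (k.choose j : ℝ) * Real.cos θ ^ (k - j) * Real.sin θ ^ j * Pg (m + 3) j 0 : ℝ) : ℂ) * W := by
    rw [h3, Complex.ofReal_sum, Finset.sum_mul]
    apply Finset.sum_congr rfl
    intro j _
    simp only [Complex.ofReal_mul, Complex.ofReal_pow]
    ring
  exact_mod_cast mul_right_cancel₀ hW0 h5

lemma lemV {n : ℕ} (hn : 3 ≤ n) {v a b : En n} (hv : ‖v‖ = 1) (ha : ⟪a, v⟫ = 0) (hb : ⟪b, v⟫ = 0)
    (q : ℂ) (hq : ((‖a‖ ^ 2 - ‖b‖ ^ 2 : ℝ) : ℂ) + 2 * ((⟪a, b⟫ : ℝ) : ℂ) * Complex.I = -q ^ 2)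
    (j : ℕ) :
    ∫ h, (((⟪a, ww v h⟫ : ℝ) : ℂ) + Complex.I * ((⟪b, ww v h⟫ : ℝ) : ℂ)) ^ j ∂(gam n) =
      ((Pg n j 0 : ℝ) : ℂ) * q ^ j := by
  rcases Nat.even_or_odd' j with ⟨l, rfl | rfl⟩
  · -- unit vector orthogonal to `v`
    obtain ⟨f, hf, hf1⟩ : ∃ f : En n, ⟪f, v⟫ = 0 ∧ ‖f‖ = 1 := by
      obtain ⟨h, hh⟩ := (ww_norm (by omega : 2 ≤ n) v).exists
      exact ⟨ww v h, by rw [real_inner_comm]; exact ww_orth v h hv, hh⟩
    rw [cplx_even ha hb hf hf1, ← Mo_val hn hv hf hf1, Complex.I_sq]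
    have h1 : ((‖a‖ ^ 2 : ℝ) : ℂ) + ((2 * ⟪a, b⟫ : ℝ) : ℂ) * Complex.I +
        ((‖b‖ ^ 2 : ℝ) : ℂ) * (-1) = -q ^ 2 := by
      rw [← hq]
      push_cast
      ring
    rw [h1, neg_pow, pow_mul]
    push_cast
    ring
  · rw [Pg_odd_zero, Complex.ofReal_zero, zero_mul]
    have hOv : (ℝ ∙ v).reflection v = v :=
      Submodule.reflection_mem_subspace_eq_self (Submodule.mem_span_singleton_self v)
    have hOw : ∀ h, (ℝ ∙ v).reflection (ww v h) = -ww v h := by
      intro h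
      apply Submodule.reflection_mem_subspace_orthogonalComplement_eq_neg
      rw [Submodule.mem_orthogonal_singleton_iff_inner_right]
      exact ww_orth v h hv
    have h1 := int_comp v (fun w => (((⟪a, w⟫ : ℝ) : ℂ) + Complex.I * ((⟪b, w⟫ : ℝ) : ℂ)) ^
      (2 * l + 1)) _ hOv
    simp_rw [hOw] at h1
    have h2 : ∀ h, (((⟪a, -ww v h⟫ : ℝ) : ℂ) + Complex.I * ((⟪b, -ww v h⟫ : ℝ) : ℂ)) ^
      (2 * l + 1) = -((((⟪a, ww v h⟫ : ℝ) : ℂ) + Complex.I * ((⟪b, ww v h⟫ : ℝ) : ℂ)) ^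
      (2 * l + 1)) := by
      intro h
      rw [inner_neg_right, inner_neg_right, ← Odd.neg_pow ⟨l, rfl⟩]
      congr 1
      push_cast
      ring
    simp_rw [h2] at h1
    rw [integral_neg] at h1
    have h3 : ∀ z : ℂ, -z = z → z = 0 := by
      intro z hz
      have : (2 : ℂ) * z = 0 := by linear_combination -hz
      rcases mul_eq_zero.mp this with h | h
      · norm_num at h
      · exact h
    exact h3 _ h1

/-- averaging a null power -/
lemma lemVI {n : ℕ} (hn : 3 ≤ n) {v a b : En n} (hv : ‖v‖ = 1) (hab : ⟪a, b⟫ = 0)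
    (hn2 : ‖a‖ = ‖b‖) (α : ℝ) (k : ℕ) :
    ∫ h, (((⟪a, Real.cos α • v + Real.sin α • ww v h⟫ : ℝ) : ℂ) +
      Complex.I * ((⟪b, Real.cos α • v + Real.sin α • ww v h⟫ : ℝ) : ℂ)) ^ k ∂(gam n) =
      ((Pg n k (Real.cos α) : ℝ) : ℂ) *
        (((⟪a, v⟫ : ℝ) : ℂ) + Complex.I * ((⟪b, v⟫ : ℝ) : ℂ)) ^ k := by
  set q : ℂ := ((⟪a, v⟫ : ℝ) : ℂ) + Complex.I * ((⟪b, v⟫ : ℝ) : ℂ) with hq
  set a' := a - ⟪a, v⟫ • v with ha'
  set b' := b - ⟪b, v⟫ • v with hb'
  have e1 : ⟪a', v⟫ = 0 := by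
    rw [ha', inner_sub_left, inner_smul_left, real_inner_self_eq_norm_sq, hv]
    simp
  have e2 : ⟪b', v⟫ = 0 := by
    rw [hb', inner_sub_left, inner_smul_left, real_inner_self_eq_norm_sq, hv]
    simp
  have e3 : ‖a'‖ ^ 2 = ‖a‖ ^ 2 - ⟪a, v⟫ ^ 2 := by
    rw [ha', norm_sub_sq_real, inner_smul_right, norm_smul, hv, mul_one, Real.norm_eq_abs, sq_abs]
    ring
  have e4 : ‖b'‖ ^ 2 = ‖b‖ ^ 2 - ⟪b, v⟫ ^ 2 := by
    rw [hb', norm_sub_sq_real, inner_smul_right, norm_smul, hv, mul_one, Real.norm_eq_abs, sq_abs]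
    ring
  have e5 : ⟪a', b'⟫ = -(⟪a, v⟫ * ⟪b, v⟫) := by
    have : ⟪a', b'⟫ = ⟪a', b⟫ := by
      rw [hb', inner_sub_right, inner_smul_right, e1]
      ring
    have h9 : ⟪v, b⟫ = ⟪b, v⟫ := real_inner_comm b v
    rw [this, ha', inner_sub_left, inner_smul_left, hab, h9]
    simp
  have hV := lemV hn hv e1 e2 q (by
    rw [e3, e4, e5, hn2, hq]
    have hI := Complex.I_sq
    push_cast
    linear_combination (((⟪b, v⟫ : ℝ) : ℂ) ^ 2) * hI)
  have h1 : ∀ h, ((⟪a, Real.cos α • v + Real.sin α • ww v h⟫ : ℝ) : ℂ) +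
      Complex.I * ((⟪b, Real.cos α • v + Real.sin α • ww v h⟫ : ℝ) : ℂ) =
      ((Real.cos α : ℝ) : ℂ) * q + ((Real.sin α : ℝ) : ℂ) *
        (((⟪a', ww v h⟫ : ℝ) : ℂ) + Complex.I * ((⟪b', ww v h⟫ : ℝ) : ℂ)) := by
    intro h
    have f1 : ⟪a', ww v h⟫ = ⟪a, ww v h⟫ := by
      rw [ha', inner_sub_left, inner_smul_left, ww_orth v h hv]
      simp
    have f2 : ⟪b', ww v h⟫ = ⟪b, ww v h⟫ := by
      rw [hb', inner_sub_left, inner_smul_left, ww_orth v h hv]
      simp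
    rw [f1, f2, inner_add_right, inner_add_right, inner_smul_right, inner_smul_right,
      inner_smul_right, inner_smul_right, hq]
    simp only [Complex.ofReal_add, Complex.ofReal_mul]
    ring
  simp_rw [h1]
  have h2 : ∀ h, (((Real.cos α : ℝ) : ℂ) * q + ((Real.sin α : ℝ) : ℂ) *
        (((⟪a', ww v h⟫ : ℝ) : ℂ) + Complex.I * ((⟪b', ww v h⟫ : ℝ) : ℂ))) ^ k =
      ∑ j ∈ Finset.range (k + 1), ((k.choose j : ℂ) * (((Real.cos α : ℝ) : ℂ) * q) ^ (k - j) *
        ((Real.sin α : ℝ) : ℂ) ^ j) *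
        (((⟪a', ww v h⟫ : ℝ) : ℂ) + Complex.I * ((⟪b', ww v h⟫ : ℝ) : ℂ)) ^ j := by
    intro h
    rw [add_comm, add_pow]
    apply Finset.sum_congr rfl
    intro j _
    rw [mul_pow ((Real.sin α : ℝ) : ℂ)]
    ring
  simp_rw [h2]
  rw [integral_finsetSum]
  · rw [RR hn, Complex.ofReal_sum, Finset.sum_mul]
    apply Finset.sum_congr rfl
    intro j hj
    rw [integral_const_mul, hV j]
    have hjk : k - j + j = k := Nat.sub_add_cancel (by
      rw [Finset.mem_range] at hj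
      omega)
    have h3 : q ^ k = q ^ (k - j) * q ^ j := by rw [← pow_add, hjk]
    rw [h3, mul_pow]
    simp only [Complex.ofReal_mul, Complex.ofReal_pow, Complex.ofReal_natCast]
    ring
  · intro j _
    apply Integrable.const_mul
    exact int_ww v (F := fun w => (((⟪a', w⟫ : ℝ) : ℂ) + Complex.I * ((⟪b', w⟫ : ℝ) : ℂ)) ^ j)
      (by fun_prop)

lemma lemVII {n : ℕ} (hn : 3 ≤ n) {x v : En n} (hx : ‖x‖ = 1) (hv : ‖v‖ = 1) (k : ℕ) :
    ∫ h, (((⟪v, x⟫ : ℝ) : ℂ) + Complex.I * ((⟪v, ww x h⟫ : ℝ) : ℂ)) ^ k ∂(gam n) =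
      ((Pg n k ⟪v, x⟫ : ℝ) : ℂ) := by
  set θ := Real.arccos ⟪v, x⟫ with hθ
  have habs : |⟪v, x⟫| ≤ 1 := by
    have := abs_real_inner_le_norm v x
    rwa [hx, hv, mul_one] at this
  have ht : Real.cos θ = ⟪v, x⟫ := Real.cos_arccos (abs_le.mp habs).1 (abs_le.mp habs).2
  set b' := v - ⟪v, x⟫ • x with hb'
  have e2 : ⟪b', x⟫ = 0 := by
    rw [hb', inner_sub_left, inner_smul_left, real_inner_self_eq_norm_sq, hx]
    simp
  have e4 : ‖b'‖ ^ 2 = Real.sin θ ^ 2 := by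
    rw [hb', norm_sub_sq_real, inner_smul_right, norm_smul, hx, mul_one, Real.norm_eq_abs, sq_abs,
      hv, Real.sin_sq, ht]
    ring
  have hV := lemV hn hx (a := 0) (b := b') (by rw [inner_zero_left]) e2 ((Real.sin θ : ℝ) : ℂ) (by
    rw [e4, inner_zero_left, norm_zero]
    push_cast
    ring)
  have h1 : ∀ h, (((⟪v, x⟫ : ℝ) : ℂ) + Complex.I * ((⟪v, ww x h⟫ : ℝ) : ℂ)) ^ k =
      ∑ j ∈ Finset.range (k + 1), ((k.choose j : ℂ) * ((Real.cos θ : ℝ) : ℂ) ^ (k - j)) *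
        (((⟪(0 : En n), ww x h⟫ : ℝ) : ℂ) + Complex.I * ((⟪b', ww x h⟫ : ℝ) : ℂ)) ^ j := by
    intro h
    have f2 : ⟪b', ww x h⟫ = ⟪v, ww x h⟫ := by
      rw [hb', inner_sub_left, inner_smul_left, ww_orth x h hx]
      simp
    rw [f2, inner_zero_left, Complex.ofReal_zero, zero_add, ht, add_comm, add_pow]
    apply Finset.sum_congr rfl
    intro j _
    ring
  simp_rw [h1]
  rw [integral_finsetSum]
  · rw [← ht, RR hn, Complex.ofReal_sum]
    apply Finset.sum_congr rfl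
    intro j hj
    rw [integral_const_mul, hV j]
    simp only [Complex.ofReal_mul, Complex.ofReal_pow, Complex.ofReal_natCast]
    ring
  · intro j _
    apply Integrable.const_mul
    exact int_ww x (F := fun w => (((⟪(0 : En n), w⟫ : ℝ) : ℂ) + Complex.I * ((⟪b', w⟫ : ℝ) : ℂ)) ^ j)
      (by fun_prop)

theorem avg : S_AVG := by
  intro n hn v α hv
  have hn2 : 2 ≤ n := by omega
  set V : En n → En n := fun h => Real.cos α • v + Real.sin α • ww v h with hV
  have hVm : Measurable V := by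
    rw [hV]
    exact ((measurable_ww v).const_smul (Real.sin α)).const_add _
  have hV1 : ∀ᵐ h ∂(gam n), ‖V h‖ = 1 := by
    filter_upwards [ww_norm hn2 v] with h hh
    have h1 : ‖V h‖ ^ 2 = 1 := by
      rw [hV]
      simp only
      rw [norm_add_sq_real, inner_smul_left, inner_smul_right, ww_orth v h hv, norm_smul, norm_smul,
        hv, hh, Real.norm_eq_abs, Real.norm_eq_abs, mul_one, mul_one, sq_abs, sq_abs]
      simp
    have h2 : 0 ≤ ‖V h‖ := norm_nonneg _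
    nlinarith
  refine ⟨(gam n).map V, ⟨Measure.isProbabilityMeasure_map hVm.aemeasurable, ?_⟩, ?_, ?_⟩
  · rw [Measure.map_apply hVm Metric.isClosed_sphere.measurableSet.compl]
    rw [← nonpos_iff_eq_zero, ← (ae_iff.mp hV1)]
    apply measure_mono
    intro h hh
    simpa using hh
  · rw [Measure.map_apply hVm]
    · have : V ⁻¹' {w | ⟪v, w⟫ ≠ Real.cos α} = ∅ := by
        ext h
        simp only [mem_preimage, mem_ofPred_eq, mem_empty_iff_false, iff_false, not_not]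
        rw [hV]
        simp only
        rw [inner_add_right, inner_smul_right, inner_smul_right, ww_orth v h hv,
          real_inner_self_eq_norm_sq, hv]
        ring
      rw [this, measure_empty]
    · apply MeasurableSet.compl
      apply measurableSet_eq_fun
      · fun_prop
      · fun_prop
  · intro k x hx
    have hPc : Continuous (fun t : ℝ => Pg n k t) := by
      induction k using Nat.twoStepInduction with
      | zero => simp only [Pg_zero]; fun_prop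
      | one => simp only [Pg_one]; fun_prop
      | more k h1 h2 => simp only [Pg_add_two]; fun_prop
    rw [integral_map hVm.aemeasurable]
    swap
    · exact (hPc.comp (by fun_prop)).aestronglyMeasurable
    set F : En n → En n → ℂ := fun h h' =>
      (((⟪V h, x⟫ : ℝ) : ℂ) + Complex.I * ((⟪V h, ww x h'⟫ : ℝ) : ℂ)) ^ k with hF
    have h1 : ((∫ h, Pg n k ⟪V h, x⟫ ∂(gam n) : ℝ) : ℂ) = ∫ h, ∫ h', F h h' ∂(gam n) ∂(gam n) := by
      rw [← integral_complex_ofReal]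
      apply integral_congr_ae
      filter_upwards [hV1] with h hh
      exact (lemVII hn hx hh k).symm
    have hint : Integrable (Function.uncurry F) ((gam n).prod (gam n)) := by
      refine Integrable.of_bound (C := 4 ^ k) ?_ ?_
      · apply Measurable.aestronglyMeasurable
        rw [hF]
        have m1 : Measurable (fun p : En n × En n => V p.1) := hVm.comp measurable_fst
        have m2 : Measurable (fun p : En n × En n => ww x p.2) := (measurable_ww x).comp measurable_snd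
        unfold Function.uncurry
        simp only
        have m3 : Measurable (fun p : En n × En n => ((⟪V p.1, x⟫ : ℝ) : ℂ)) :=
          Complex.measurable_ofReal.comp (m1.inner measurable_const)
        have m4 : Measurable (fun p : En n × En n => ((⟪V p.1, ww x p.2⟫ : ℝ) : ℂ)) :=
          Complex.measurable_ofReal.comp (m1.inner m2)
        exact (m3.add (m4.const_mul Complex.I)).pow_const k
      · refine Filter.Eventually.of_forall fun p => ?_
        rw [hF]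
        unfold Function.uncurry
        simp only
        rw [norm_pow]
        apply pow_le_pow_left₀ (norm_nonneg _)
        have b0 : ‖V p.1‖ ≤ 2 := by
          rw [hV]
          simp only
          refine (norm_add_le _ _).trans ?_
          rw [norm_smul, norm_smul, hv, Real.norm_eq_abs, Real.norm_eq_abs]
          have := ww_norm_le v p.1
          have c1 := Real.abs_cos_le_one α
          have c2 := Real.abs_sin_le_one α
          have c3 := norm_nonneg (ww v p.1)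
          have c4 := abs_nonneg (Real.sin α)
          nlinarith
        have b1 : |⟪V p.1, x⟫| ≤ 2 := by
          have := abs_real_inner_le_norm (V p.1) x
          rw [hx] at this
          linarith
        have b2 : |⟪V p.1, ww x p.2⟫| ≤ 2 := by
          have := abs_real_inner_le_norm (V p.1) (ww x p.2)
          have h3 := ww_norm_le x p.2
          have h4 := norm_nonneg (ww x p.2)
          nlinarith [norm_nonneg (V p.1)]
        refine (norm_add_le _ _).trans ?_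
        rw [norm_mul, Complex.norm_I, one_mul, Complex.norm_real, Complex.norm_real,
          Real.norm_eq_abs, Real.norm_eq_abs]
        linarith
    have h2 : ∫ h, ∫ h', F h h' ∂(gam n) ∂(gam n) = ∫ h', ∫ h, F h h' ∂(gam n) ∂(gam n) :=
      integral_integral_swap hint
    have h3 : ∀ᵐ h' ∂(gam n), ∫ h, F h h' ∂(gam n) = ((Pg n k (Real.cos α) : ℝ) : ℂ) *
        (((⟪v, x⟫ : ℝ) : ℂ) + Complex.I * ((⟪v, ww x h'⟫ : ℝ) : ℂ)) ^ k := by
      filter_upwards [ww_norm hn2 x] with h' hh'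
      have h4 := lemVI hn hv (ww_orth x h' hx) (by rw [hx, hh']) α k
      have c1 : ∀ z : En n, ⟪x, z⟫ = ⟪z, x⟫ := fun z => real_inner_comm z x
      have c2 : ∀ z : En n, ⟪ww x h', z⟫ = ⟪z, ww x h'⟫ := fun z => real_inner_comm z _
      simp only [c1, c2] at h4
      exact h4
    rw [h2, integral_congr_ae h3, integral_const_mul, lemVII hn hx hv k] at h1
    exact_mod_cast h1

end Pool.Agent.W778.AG
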