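import Pool.Agent.W778.AG.Pos

set_option autoImplicit false

open MeasureTheory Metric Set
open scoped ENNReal RealInnerProductSpace

namespace Pool.Agent.W778.AG

/-- the integrand basis -/
noncomputable def Yf (θ φ : ℝ) : ℂ := (Real.cos θ : ℂ) + Complex.I * (Real.sin θ : ℂ) * (Real.cos φ : ℂ)

noncomputable def Lf (m k : ℕ) (θ : ℝ) : ℂ :=
  ∫ φ in (0 : ℝ)..Real.pi, Yf θ φ ^ k * ((Real.sin φ ^ m : ℝ) : ℂ)

lemma Yf_cont (θ : ℝ) : Continuous (Yf θ) := by
  unfold Yf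
  fun_prop

lemma Yf_deriv (θ φ : ℝ) : HasDerivAt (Yf θ) (-(Complex.I * (Real.sin θ : ℂ) * (Real.sin φ : ℂ))) φ := by
  unfold Yf
  have h1 : HasDerivAt (fun x : ℝ => ((Real.cos x : ℝ) : ℂ)) ((-Real.sin φ : ℝ) : ℂ) φ :=
    (Real.hasDerivAt_cos φ).ofReal_comp
  have h2 := (h1.const_mul (Complex.I * (Real.sin θ : ℂ))).const_add ((Real.cos θ : ℝ) : ℂ)
  refine h2.congr_deriv ?_
  rw [Complex.ofReal_neg]
  ring

lemma integrand_cont (m k : ℕ) (θ : ℝ) :
    Continuous (fun φ => Yf θ φ ^ k * ((Real.sin φ ^ m : ℝ) : ℂ)) := by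
  have := Yf_cont θ
  fun_prop

lemma Lf_rec (m k : ℕ) (θ : ℝ) :
    ((k : ℂ) + 1) * (Lf m k θ - 2 * Real.cos θ * Lf m (k + 1) θ + Lf m (k + 2) θ) +
      ((m : ℂ) + 1) * (Lf m (k + 2) θ - Real.cos θ * Lf m (k + 1) θ) = 0 := by
  have hder : ∀ φ ∈ uIcc (0 : ℝ) Real.pi, HasDerivAt
      (fun φ : ℝ => (Complex.I * (Real.sin θ : ℂ)) * (Yf θ φ ^ (k + 1) * ((Real.sin φ ^ (m + 1) : ℝ) : ℂ)))
      (((k : ℂ) + 1) * (Yf θ φ ^ k * ((Real.sin φ ^ m : ℝ) : ℂ) -
          2 * Real.cos θ * (Yf θ φ ^ (k + 1) * ((Real.sin φ ^ m : ℝ) : ℂ)) +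
          Yf θ φ ^ (k + 2) * ((Real.sin φ ^ m : ℝ) : ℂ)) +
        ((m : ℂ) + 1) * (Yf θ φ ^ (k + 2) * ((Real.sin φ ^ m : ℝ) : ℂ) -
          Real.cos θ * (Yf θ φ ^ (k + 1) * ((Real.sin φ ^ m : ℝ) : ℂ)))) φ := by
    intro φ _
    have h1 : HasDerivAt (fun φ => Yf θ φ ^ (k + 1))
        (((k : ℂ) + 1) * Yf θ φ ^ k * (-(Complex.I * (Real.sin θ : ℂ) * (Real.sin φ : ℂ)))) φ := by
      have := (Yf_deriv θ φ).fun_pow (k + 1)
      refine this.congr_deriv ?_
      rw [Nat.add_sub_cancel, Nat.cast_add, Nat.cast_one]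
    have h2 : HasDerivAt (fun φ : ℝ => ((Real.sin φ ^ (m + 1) : ℝ) : ℂ))
        (((m : ℂ) + 1) * (Real.sin φ : ℂ) ^ m * (Real.cos φ : ℂ)) φ := by
      have := ((Real.hasDerivAt_sin φ).fun_pow (m + 1)).ofReal_comp
      refine this.congr_deriv ?_
      rw [Nat.add_sub_cancel, Nat.cast_add, Nat.cast_one, Complex.ofReal_mul, Complex.ofReal_mul,
        Complex.ofReal_add, Complex.ofReal_pow, Complex.ofReal_natCast, Complex.ofReal_one]
    have h3 := (h1.fun_mul h2).const_mul (Complex.I * (Real.sin θ : ℂ))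
    refine h3.congr_deriv ?_
    have e1 : ((Real.sin φ : ℝ) : ℂ) ^ 2 = 1 - ((Real.cos φ : ℝ) : ℂ) ^ 2 := by
      have := Real.sin_sq φ
      rw [← Complex.ofReal_pow, this, Complex.ofReal_sub, Complex.ofReal_pow, Complex.ofReal_one]
    have e2 : ((Real.sin θ : ℝ) : ℂ) ^ 2 = 1 - ((Real.cos θ : ℝ) : ℂ) ^ 2 := by
      have := Real.sin_sq θ
      rw [← Complex.ofReal_pow, this, Complex.ofReal_sub, Complex.ofReal_pow, Complex.ofReal_one]
    have e3 : Complex.I ^ 2 = -1 := Complex.I_sq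
    simp only [Complex.ofReal_pow]
    unfold Yf
    generalize ((Real.cos θ : ℝ) : ℂ) = t at *
    generalize ((Real.sin θ : ℝ) : ℂ) = s at *
    generalize ((Real.cos φ : ℝ) : ℂ) = c at *
    generalize ((Real.sin φ : ℝ) : ℂ) = u at *
    have key : s ^ 2 * u ^ 2 = 1 - 2 * t * (t + Complex.I * s * c) + (t + Complex.I * s * c) ^ 2 := by
      rw [e1]
      linear_combination (-(s ^ 2 * c ^ 2)) * e3 + e2
    have key2 : Complex.I * s * c = (t + Complex.I * s * c) - t := by ring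
    set Y := t + Complex.I * s * c with hY
    have : Complex.I * s * (((k : ℂ) + 1) * Y ^ k * -(Complex.I * s * u) * u ^ (m + 1) +
        Y ^ (k + 1) * (((m : ℂ) + 1) * u ^ m * c)) =
        ((k : ℂ) + 1) * (Y ^ k * u ^ m) * (s ^ 2 * u ^ 2) * (-(Complex.I ^ 2)) +
        ((m : ℂ) + 1) * (Y ^ (k + 1) * u ^ m) * (Complex.I * s * c) := by ring
    rw [this, key, key2, e3]
    ring
  have i0 : IntervalIntegrable (fun φ => Yf θ φ ^ k * ((Real.sin φ ^ m : ℝ) : ℂ)) volume 0 Real.pi :=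
    (integrand_cont m k θ).intervalIntegrable _ _
  have i1 : IntervalIntegrable (fun φ => Yf θ φ ^ (k + 1) * ((Real.sin φ ^ m : ℝ) : ℂ)) volume 0
      Real.pi := (integrand_cont m (k + 1) θ).intervalIntegrable _ _
  have i2 : IntervalIntegrable (fun φ => Yf θ φ ^ (k + 2) * ((Real.sin φ ^ m : ℝ) : ℂ)) volume 0
      Real.pi := (integrand_cont m (k + 2) θ).intervalIntegrable _ _
  have j1 := i1.const_mul (2 * ((Real.cos θ : ℝ) : ℂ))
  have j2 := i1.const_mul ((Real.cos θ : ℝ) : ℂ)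
  have j3 := (i0.sub j1).add i2
  have j4 := i2.sub j2
  have hI := intervalIntegral.integral_eq_sub_of_hasDerivAt hder
    ((j3.const_mul _).add (j4.const_mul _))
  rw [intervalIntegral.integral_add (j3.const_mul _) (j4.const_mul _)] at hI
  rw [intervalIntegral.integral_const_mul, intervalIntegral.integral_const_mul] at hI
  rw [intervalIntegral.integral_add (i0.sub j1) i2, intervalIntegral.integral_sub i0 j1,
    intervalIntegral.integral_sub i2 j2, intervalIntegral.integral_const_mul,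
    intervalIntegral.integral_const_mul] at hI
  simp only [Real.sin_pi, Real.sin_zero] at hI
  rw [zero_pow (Nat.succ_ne_zero m)] at hI
  simp only [Complex.ofReal_zero, mul_zero, sub_zero] at hI
  exact hI

lemma Lf_zero (m : ℕ) (θ : ℝ) : Lf m 0 θ = ∫ φ in (0 : ℝ)..Real.pi, ((Real.sin φ ^ m : ℝ) : ℂ) := by
  unfold Lf
  simp

lemma Lf_one (m : ℕ) (θ : ℝ) :
    Lf m 1 θ = Real.cos θ * ∫ φ in (0 : ℝ)..Real.pi, ((Real.sin φ ^ m : ℝ) : ℂ) := by
  have h1 : ∫ φ in (0 : ℝ)..Real.pi, ((Real.sin φ ^ m * Real.cos φ : ℝ) : ℂ) = 0 := by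
    rw [intervalIntegral.integral_ofReal]
    have h2 : ∫ φ in (0 : ℝ)..Real.pi, (((m + 1 : ℕ) : ℝ) * Real.sin φ ^ m * Real.cos φ) = 0 := by
      rw [intervalIntegral.integral_eq_sub_of_hasDerivAt (f := fun φ => Real.sin φ ^ (m + 1))]
      · simp
      · intro φ _
        have := (Real.hasDerivAt_sin φ).fun_pow (m + 1)
        exact this
      · apply Continuous.intervalIntegrable
        fun_prop
    have h3 : ∫ φ in (0 : ℝ)..Real.pi, (((m + 1 : ℕ) : ℝ) * Real.sin φ ^ m * Real.cos φ) =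
        ((m + 1 : ℕ) : ℝ) * ∫ φ in (0 : ℝ)..Real.pi, (Real.sin φ ^ m * Real.cos φ) := by
      rw [← intervalIntegral.integral_const_mul]
      congr 1
      ext φ
      ring
    rw [h3] at h2
    rcases mul_eq_zero.mp h2 with h4 | h4
    · exfalso
      have : (0 : ℝ) < ((m + 1 : ℕ) : ℝ) := by positivity
      linarith
    · rw [h4]
      simp
  unfold Lf
  have h5 : ∀ φ : ℝ, Yf θ φ ^ 1 * ((Real.sin φ ^ m : ℝ) : ℂ) =
      ((Real.cos θ : ℝ) : ℂ) * ((Real.sin φ ^ m : ℝ) : ℂ) +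
        (Complex.I * (Real.sin θ : ℂ)) * ((Real.sin φ ^ m * Real.cos φ : ℝ) : ℂ) := by
    intro φ
    unfold Yf
    rw [Complex.ofReal_mul]
    ring
  simp_rw [h5]
  have i1 : IntervalIntegrable (fun φ : ℝ => ((Real.sin φ ^ m : ℝ) : ℂ)) volume 0 Real.pi := by
    apply Continuous.intervalIntegrable
    fun_prop
  have i2 : IntervalIntegrable (fun φ : ℝ => ((Real.sin φ ^ m * Real.cos φ : ℝ) : ℂ)) volume 0
      Real.pi := by
    apply Continuous.intervalIntegrable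
    fun_prop
  rw [intervalIntegral.integral_add (i1.const_mul _) (i2.const_mul _),
    intervalIntegral.integral_const_mul, intervalIntegral.integral_const_mul, h1]
  ring

theorem lap_aux (m : ℕ) (θ : ℝ) (k : ℕ) :
    ((Pg (m + 3) k (Real.cos θ) : ℝ) : ℂ) * (∫ φ in (0 : ℝ)..Real.pi, ((Real.sin φ ^ m : ℝ) : ℂ)) =
      Lf m k θ := by
  induction k using Nat.twoStepInduction with
  | zero => rw [Lf_zero, Pg_zero]; simp
  | one => rw [Lf_one, Pg_one]
  | more k h1 h2 =>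
    have hr := Lf_rec m k θ
    rw [Pg_add_two]
    have hne : ((k : ℂ) + ((m + 3 : ℕ) : ℂ) - 1) ≠ 0 := by
      have : ((k + m + 2 : ℕ) : ℂ) ≠ 0 := by
        exact_mod_cast (by omega : k + m + 2 ≠ 0)
      convert this using 1
      push_cast
      ring
    have h3 : ((k : ℂ) + ((m + 3 : ℕ) : ℂ) - 1) * Lf m (k + 2) θ =
        (2 * (k : ℂ) + ((m + 3 : ℕ) : ℂ)) * ((Real.cos θ : ℝ) : ℂ) * Lf m (k + 1) θ -
          ((k : ℂ) + 1) * Lf m k θ := by
      rw [Nat.cast_add]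
      linear_combination hr
    rw [← h1, ← h2] at h3
    rw [Complex.ofReal_div, Complex.ofReal_sub, Complex.ofReal_sub, Complex.ofReal_add,
      Complex.ofReal_mul, Complex.ofReal_mul, Complex.ofReal_mul, Complex.ofReal_add,
      Complex.ofReal_add, Complex.ofReal_mul, Complex.ofReal_natCast, Complex.ofReal_natCast,
      Complex.ofReal_one, Complex.ofReal_ofNat]
    rw [div_mul_eq_mul_div, div_eq_iff hne, mul_comm (Lf m (k + 2) θ), h3]
    ring

theorem lap : S_LAP := by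
  intro n k hn θ
  obtain ⟨m, rfl⟩ : ∃ m, n = m + 3 := ⟨n - 3, by omega⟩
  rw [show m + 3 - 3 = m from rfl]
  exact lap_aux m θ k

lemma norm_Yf (θ φ : ℝ) : ‖Yf θ φ‖ = wf θ φ := by
  unfold Yf wf
  have h1 : (Real.cos θ : ℂ) + Complex.I * (Real.sin θ : ℂ) * (Real.cos φ : ℂ) =
      ((Real.cos θ : ℝ) : ℂ) + ((Real.sin θ * Real.cos φ : ℝ) : ℂ) * Complex.I := by
    push_cast
    ring
  rw [h1, Complex.norm_add_mul_I]
  congr 1
  have h2 := Real.sin_sq_add_cos_sq θ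
  have h3 := Real.sin_sq_add_cos_sq φ
  nlinarith

lemma W_pos (m : ℕ) : 0 < ∫ φ in (0 : ℝ)..Real.pi, Real.sin φ ^ m := integral_sin_pow_pos m

theorem bd : S_BD := by
  intro n k hn θ
  obtain ⟨m, rfl⟩ : ∃ m, n = m + 3 := ⟨n - 3, by omega⟩
  have h1 := lap_aux m θ k
  unfold LE
  rw [show m + 3 - 3 = m from rfl, le_div_iff₀ (W_pos m)]
  have h2 : |Pg (m + 3) k (Real.cos θ)| * ∫ φ in (0 : ℝ)..Real.pi, Real.sin φ ^ m =
      ‖Lf m k θ‖ := by
    rw [← h1, intervalIntegral.integral_ofReal, ← Complex.ofReal_mul, Complex.norm_real, norm_mul, Real.norm_eq_abs,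
      Real.norm_of_nonneg (W_pos m).le]
  rw [h2]
  unfold Lf
  refine (intervalIntegral.norm_integral_le_integral_norm Real.pi_pos.le).trans (le_of_eq ?_)
  apply intervalIntegral.integral_congr
  intro φ hφ
  rw [uIcc_of_le Real.pi_pos.le] at hφ
  simp only
  rw [norm_mul, norm_pow, norm_Yf, Complex.norm_real, Real.norm_of_nonneg]
  exact pow_nonneg (Real.sin_nonneg_of_nonneg_of_le_pi hφ.1 hφ.2) _

end Pool.Agent.W778.AG
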