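import Pool.Agent.W778.AG.Mean

set_option autoImplicit false

open MeasureTheory Metric Set Filter Topology
open scoped ENNReal RealInnerProductSpace

namespace Pool.Agent.W778.AG

/-! ### sums over pairs -/

/-- sum over pairs `i < j` -/
noncomputable def SP {J : ℕ} (f : Fin J → Fin J → ℝ) : ℝ :=
  ∑ i, ∑ j ∈ Finset.univ.filter (fun j => i < j), f i j

lemma SP_sum {J : ℕ} (f : Fin J → Fin J → ℝ) (hf : ∀ i j, f i j = f j i) :
    ∑ i, ∑ j, f i j = ∑ i, f i i + 2 * SP f := by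
  have h1 : ∀ i, ∑ j, f i j = f i i + ∑ j ∈ Finset.univ.filter (fun j => i < j), f i j +
      ∑ j ∈ Finset.univ.filter (fun j => j < i), f i j := by
    intro i
    rw [Finset.sum_filter, Finset.sum_filter]
    have h2 : f i i = ∑ j, if j = i then f i j else 0 := by simp
    rw [h2, ← Finset.sum_add_distrib, ← Finset.sum_add_distrib]
    apply Finset.sum_congr rfl
    intro j _
    rcases lt_trichotomy i j with h | h | h
    · simp [h, h.ne', h.le.not_gt]
    · simp [h]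
    · simp [h, h.ne, h.le.not_gt]
  simp_rw [h1]
  rw [Finset.sum_add_distrib, Finset.sum_add_distrib]
  have h3 : ∑ i, ∑ j ∈ Finset.univ.filter (fun j => j < i), f i j = SP f := by
    unfold SP
    simp_rw [Finset.sum_filter]
    rw [Finset.sum_comm]
    apply Finset.sum_congr rfl
    intro i _
    apply Finset.sum_congr rfl
    intro j _
    rw [hf j i]
  rw [h3]
  unfold SP
  ring

lemma SP_const {J : ℕ} (c : ℝ) : SP (fun (_ _ : Fin J) => c) = (J : ℝ) * (J - 1) / 2 * c := by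
  have h := SP_sum (fun (_ _ : Fin J) => c) (fun _ _ => rfl)
  simp at h
  linarith

lemma SP_add_const {J : ℕ} (x : Fin J → ℝ) : SP (fun i j => x i + x j) = ((J : ℝ) - 1) * ∑ i, x i := by
  have h := SP_sum (fun i j => x i + x j) (fun _ _ => add_comm _ _)
  simp only [Finset.sum_add_distrib, Finset.sum_const, Finset.card_univ, Fintype.card_fin,
    nsmul_eq_mul, ← Finset.mul_sum] at h
  linarith

lemma SP_le {J : ℕ} {f g : Fin J → Fin J → ℝ} (h : ∀ i j, i < j → f i j ≤ g i j) : SP f ≤ SP g := by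
  unfold SP
  apply Finset.sum_le_sum
  intro i _
  apply Finset.sum_le_sum
  intro j hj
  rw [Finset.mem_filter] at hj
  exact h i j hj.2

lemma SP_add {J : ℕ} (f g : Fin J → Fin J → ℝ) : SP (fun i j => f i j + g i j) = SP f + SP g := by
  unfold SP
  simp only [Finset.sum_add_distrib]

lemma SP_mul {J : ℕ} (c : ℝ) (f : Fin J → Fin J → ℝ) : SP (fun i j => c * f i j) = c * SP f := by
  unfold SP
  simp only [Finset.mul_sum]

lemma SP_finsum {J : ℕ} {ι : Type*} (s : Finset ι) (f : ι → Fin J → Fin J → ℝ) :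
    SP (fun i j => ∑ k ∈ s, f k i j) = ∑ k ∈ s, SP (f k) := by
  unfold SP
  rw [Finset.sum_comm (s := s)]
  apply Finset.sum_congr rfl
  intro i _
  rw [Finset.sum_comm (s := s)]

lemma SP_tendsto {J : ℕ} {f : ℝ → Fin J → Fin J → ℝ} {g : Fin J → Fin J → ℝ} {l : Filter ℝ}
    (h : ∀ i j, Tendsto (fun r => f r i j) l (𝓝 (g i j))) :
    Tendsto (fun r => SP (f r)) l (𝓝 (SP g)) := by
  unfold SP
  apply tendsto_finsetSum
  intro i _
  apply tendsto_finsetSum
  intro j _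
  exact h i j

/-! ### the forms -/

lemma fm_prod {n : ℕ} (hn : 3 ≤ n) (k : ℕ) {μ ν : Measure (En n)} (hμ : Sph μ) (hν : Sph ν) :
    fm n k μ ν = ∫ p, Pg n k ⟪p.1, p.2⟫ ∂(μ.prod ν) := by
  have := hμ.1
  have := hν.1
  unfold fm
  rw [integral_prod]
  refine Integrable.of_bound (C := 1) ?_ ?_
  · exact ((Pg_cont n k).measurable.comp (measurable_fst.inner measurable_snd)).aestronglyMeasurable
  · have q1 : ∀ᵐ p ∂(μ.prod ν), ‖p.1‖ = 1 := (Measure.quasiMeasurePreserving_fst).ae (sph_ae hμ)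
    have q2 : ∀ᵐ p ∂(μ.prod ν), ‖p.2‖ = 1 := (Measure.quasiMeasurePreserving_snd).ae (sph_ae hν)
    filter_upwards [q1, q2] with p hp1 hp2
    exact Pg_le_one hn k (abs_inner_le_one hp1.le hp2.le)

lemma prod_ae {n : ℕ} {μ ν : Measure (En n)} (hμ : Sph μ) (hν : Sph ν) :
    ∀ᵐ p ∂(μ.prod ν), |⟪p.1, p.2⟫| ≤ 1 := by
  have := hμ.1
  have := hν.1
  have q1 : ∀ᵐ p ∂(μ.prod ν), ‖p.1‖ = 1 := (Measure.quasiMeasurePreserving_fst).ae (sph_ae hμ)
  have q2 : ∀ᵐ p ∂(μ.prod ν), ‖p.2‖ = 1 := (Measure.quasiMeasurePreserving_snd).ae (sph_ae hν)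
  filter_upwards [q1, q2] with p hp1 hp2
  exact abs_inner_le_one hp1.le hp2.le

lemma fm_comm {n : ℕ} (hn : 3 ≤ n) (k : ℕ) {μ ν : Measure (En n)} (hμ : Sph μ) (hν : Sph ν) :
    fm n k μ ν = fm n k ν μ := by
  have := hμ.1
  have := hν.1
  rw [fm_prod hn k hμ hν, fm_prod hn k hν hμ, ← integral_prod_swap]
  congr 1
  ext p
  simp only [Prod.fst_swap, Prod.snd_swap]
  rw [real_inner_comm]

lemma fm_zero {n : ℕ} {μ ν : Measure (En n)} (hμ : Sph μ) (hν : Sph ν) : fm n 0 μ ν = 1 := by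
  have := hμ.1
  have := hν.1
  unfold fm
  simp [Pg_zero]

lemma fm_nonneg {n : ℕ} (hn : 3 ≤ n) (k : ℕ) {μ : Measure (En n)} (hμ : Sph μ) :
    0 ≤ fm n k μ μ := by
  have h := psd n k 1 hn (fun _ => μ) (fun _ => 1) (fun _ => hμ)
  simpa using h

lemma fm_cross {n : ℕ} (hn : 3 ≤ n) (k : ℕ) {μ ν : Measure (En n)} (hμ : Sph μ) (hν : Sph ν) :
    |fm n k μ ν| ≤ (fm n k μ μ + fm n k ν ν) / 2 := by
  have hc := fm_comm hn k hν hμ
  have h1 := psd n k 2 hn ![μ, ν] ![1, 1] (by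
    intro i; fin_cases i
    · exact hμ
    · exact hν)
  have h2 := psd n k 2 hn ![μ, ν] ![1, -1] (by
    intro i; fin_cases i
    · exact hμ
    · exact hν)
  simp [Fin.sum_univ_two] at h1 h2
  rw [hc] at h1 h2
  rw [abs_le]
  constructor <;> linarith

lemma hasSum_fm {n : ℕ} (hn : 3 ≤ n) {r : ℝ} (hr0 : 0 ≤ r) (hr1 : r < 1) {μ ν : Measure (En n)}
    (hμ : Sph μ) (hν : Sph ν) : HasSum (fun k : ℕ => r ^ k * dk n k * fm n k μ ν)
      (∫ u, ∫ v, pk n r ⟪u, v⟫ ∂ν ∂μ) := by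
  have := hμ.1
  have := hν.1
  have h := hasSum_int hn hr0 hr1 (μ.prod ν) (fun p => ⟪p.1, p.2⟫)
    (measurable_fst.inner measurable_snd) (prod_ae hμ hν)
  have h2 : ∫ p, pk n r ⟪p.1, p.2⟫ ∂(μ.prod ν) = ∫ u, ∫ v, pk n r ⟪u, v⟫ ∂ν ∂μ := by
    rw [integral_prod]
    refine Integrable.of_bound (C := pk n r 1) ((measurable_pk n r).comp
      (measurable_fst.inner measurable_snd)).aestronglyMeasurable ?_
    filter_upwards [prod_ae hμ hν] with p hp
    rw [Real.norm_of_nonneg (pk_nonneg hr0 hr1)]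
    exact pk_mono hr0 hr1 le_rfl (abs_le.mp hp).2
  rw [h2] at h
  simpa only [← fm_prod hn _ hμ hν] using h

/-- the kernel detecting the angle -/
noncomputable def Gk (n : ℕ) (r α t : ℝ) : ℝ :=
  ∑' k : ℕ, r ^ k * dk n k * (Pg n k (Real.cos α) * Pg n k t)

lemma term_bd {n : ℕ} (hn : 3 ≤ n) {r : ℝ} (hr0 : 0 ≤ r) (α t : ℝ) (ht : |t| ≤ 1)
    (k : ℕ) : ‖r ^ k * dk n k * (Pg n k (Real.cos α) * Pg n k t)‖ ≤ r ^ k * dk n k := by
  rw [norm_mul, Real.norm_of_nonneg (mul_nonneg (pow_nonneg hr0 k) (dk_nonneg hn k))]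
  apply mul_le_of_le_one_right (mul_nonneg (pow_nonneg hr0 k) (dk_nonneg hn k))
  rw [norm_mul]
  exact mul_le_one₀ (Pg_le_one hn k (Real.abs_cos_le_one α)) (norm_nonneg _) (Pg_le_one hn k ht)

lemma hasSum_Gk {n : ℕ} (hn : 3 ≤ n) {r : ℝ} (hr0 : 0 ≤ r) (hr1 : r < 1) (α : ℝ)
    {μ ν : Measure (En n)} (hμ : Sph μ) (hν : Sph ν) :
    HasSum (fun k : ℕ => r ^ k * dk n k * (Pg n k (Real.cos α) * fm n k μ ν))
      (∫ p, Gk n r α ⟪p.1, p.2⟫ ∂(μ.prod ν)) := by
  have := hμ.1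
  have := hν.1
  have h := hasSum_integral_of_dominated_convergence (μ := μ.prod ν)
    (F := fun (k : ℕ) p => r ^ k * dk n k * (Pg n k (Real.cos α) * Pg n k ⟪p.1, p.2⟫))
    (f := fun p => Gk n r α ⟪p.1, p.2⟫)
    (fun k _ => r ^ k * dk n k)
    (fun k => ((((Pg_cont n k).measurable.comp (measurable_fst.inner measurable_snd)).const_mul
      _).const_mul _).aestronglyMeasurable)
    (fun k => by
      filter_upwards [prod_ae hμ hν] with p hp
      exact term_bd hn hr0 α _ hp k)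
    (Filter.Eventually.of_forall fun _ => summ_dk hn hr0 hr1)
    (integrable_const _)
    (by
      filter_upwards [prod_ae hμ hν] with p hp
      exact (Summable.of_norm_bounded (summ_dk hn hr0 hr1) (term_bd hn hr0 α _ hp)).hasSum)
  simp only [integral_const_mul] at h
  simpa only [← fm_prod hn _ hμ hν] using h

lemma eps_tendsto (n : ℕ) {δ : ℝ} (h0 : 0 < δ) (h1 : δ ≤ Real.pi) :
    Tendsto (fun r : ℝ => (1 - r ^ 2) / Real.sqrt (1 - 2 * r * Real.cos δ + r ^ 2) ^ n)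
      (𝓝[<] 1) (𝓝 0) := by
  have hc : Real.cos δ < 1 := by
    rw [← Real.cos_zero]
    exact Real.cos_lt_cos_of_nonneg_of_le_pi le_rfl h1 h0
  have h2 : Tendsto (fun r : ℝ => (1 - r ^ 2) / Real.sqrt (1 - 2 * r * Real.cos δ + r ^ 2) ^ n)
      (𝓝 1) (𝓝 ((1 - 1 ^ 2) / Real.sqrt (1 - 2 * 1 * Real.cos δ + 1 ^ 2) ^ n)) := by
    apply Tendsto.div
    · exact Continuous.tendsto (by fun_prop) 1
    · exact Continuous.tendsto (by fun_prop) 1
    · apply pow_ne_zero
      rw [Real.sqrt_ne_zero']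
      linarith
  have h3 : ((1 : ℝ) - 1 ^ 2) / Real.sqrt (1 - 2 * 1 * Real.cos δ + 1 ^ 2) ^ n = 0 := by simp
  rw [h3] at h2
  exact h2.mono_left nhdsWithin_le_nhds

lemma Gk_int_le {n : ℕ} (hn : 3 ≤ n) {α : ℝ} (ha0 : 0 < α) (ha1 : α < Real.pi)
    {μ ν : Measure (En n)} (hμ : Sph μ) (hν : Sph ν) {F G : Set (En n)} (hF : IsCompact F)
    (hG : IsCompact G) (hFs : F ⊆ sphere 0 1) (hGs : G ⊆ sphere 0 1) (hμF : μ Fᶜ = 0)
    (hνG : ν Gᶜ = 0) (h : ∀ u ∈ F, ∀ v ∈ G, ⟪u, v⟫ ≠ Real.cos α) :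
    ∃ δ : ℝ, 0 < δ ∧ δ ≤ Real.pi ∧ ∀ r : ℝ, 0 ≤ r → r < 1 →
      ∫ p, Gk n r α ⟪p.1, p.2⟫ ∂(μ.prod ν) ≤
        (1 - r ^ 2) / Real.sqrt (1 - 2 * r * Real.cos δ + r ^ 2) ^ n := by
  have := hμ.1
  have := hν.1
  have hFne : F.Nonempty := by
    by_contra hne
    rw [not_nonempty_iff_eq_empty] at hne
    rw [hne, compl_empty, measure_univ] at hμF
    exact one_ne_zero hμF
  have hGne : G.Nonempty := by
    by_contra hne
    rw [not_nonempty_iff_eq_empty] at hne
    rw [hne, compl_empty, measure_univ] at hνG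
    exact one_ne_zero hνG
  have hcont : Continuous (fun p : En n × En n => |Real.arccos ⟪p.1, p.2⟫ - α|) := by
    have := Real.continuous_arccos
    fun_prop
  obtain ⟨p₀, hp₀, hmin⟩ := (hF.prod hG).exists_isMinOn (hFne.prod hGne) hcont.continuousOn
  have hin : ∀ u ∈ F, ∀ v ∈ G, |⟪u, v⟫| ≤ 1 := by
    intro u hu v hv
    exact abs_inner_le_one (mem_sphere_zero_iff_norm.mp (hFs hu)).le
      (mem_sphere_zero_iff_norm.mp (hGs hv)).le
  set δ := |Real.arccos ⟪p₀.1, p₀.2⟫ - α| with hδ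
  have hδ0 : 0 < δ := by
    rw [hδ, abs_pos, sub_ne_zero]
    intro heq
    apply h p₀.1 hp₀.1 p₀.2 hp₀.2
    rw [← heq, Real.cos_arccos (abs_le.mp (hin _ hp₀.1 _ hp₀.2)).1
      (abs_le.mp (hin _ hp₀.1 _ hp₀.2)).2]
  have hδ1 : δ ≤ Real.pi := by
    rw [hδ, abs_le]
    have h1 := Real.arccos_nonneg ⟪p₀.1, p₀.2⟫
    have h2 := Real.arccos_le_pi ⟪p₀.1, p₀.2⟫
    constructor <;> linarith
  refine ⟨δ, hδ0, hδ1, fun r hr0 hr1 => ?_⟩
  have hbd : ∀ᵐ p ∂(μ.prod ν), Gk n r α ⟪p.1, p.2⟫ ≤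
      (1 - r ^ 2) / Real.sqrt (1 - 2 * r * Real.cos δ + r ^ 2) ^ n := by
    have q1 : ∀ᵐ p ∂(μ.prod ν), p.1 ∈ F := (Measure.quasiMeasurePreserving_fst).ae
      (by rw [ae_iff]; exact hμF)
    have q2 : ∀ᵐ p ∂(μ.prod ν), p.2 ∈ G := (Measure.quasiMeasurePreserving_snd).ae
      (by rw [ae_iff]; exact hνG)
    filter_upwards [q1, q2] with p hp1 hp2
    have hb := hin _ hp1 _ hp2
    set θ := Real.arccos ⟪p.1, p.2⟫ with hθ
    have e1 : Real.cos θ = ⟪p.1, p.2⟫ := Real.cos_arccos (abs_le.mp hb).1 (abs_le.mp hb).2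
    have e2 := conc n hn r hr0 hr1 α θ ha0.le ha1.le (Real.arccos_nonneg _) (Real.arccos_le_pi _)
    unfold Gk
    rw [← e1]
    refine e2.trans ?_
    have e3 : δ ≤ |θ - α| := hmin (show p ∈ F ×ˢ G from ⟨hp1, hp2⟩)
    have e4 : |θ - α| ≤ Real.pi := by
      rw [abs_le]
      have h1 := Real.arccos_nonneg ⟪p.1, p.2⟫
      have h2 := Real.arccos_le_pi ⟪p.1, p.2⟫
      constructor <;> linarith
    have e5 : Real.cos (θ - α) ≤ Real.cos δ := by
      rw [← Real.cos_abs (θ - α)]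
      exact Real.cos_le_cos_of_nonneg_of_le_pi hδ0.le e4 e3
    exact pk_mono (n := n) hr0 hr1 (Real.cos_le_one δ) e5
  have hnn : 0 ≤ (1 - r ^ 2) / Real.sqrt (1 - 2 * r * Real.cos δ + r ^ 2) ^ n :=
    pk_nonneg (n := n) hr0 hr1
  by_cases hI : Integrable (fun p => Gk n r α ⟪p.1, p.2⟫) (μ.prod ν)
  · refine (integral_mono_ae hI (integrable_const _) hbd).trans (le_of_eq ?_)
    simp
  · rw [integral_undef hI]
    exact hnn

/-! ### the mean over the Laplace parameter -/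

noncomputable def wk (n : ℕ) (α : ℝ) (k : ℕ) : ℝ := LE n (fun φ => wf α φ ^ k)

lemma wk_nonneg (n : ℕ) (α : ℝ) (k : ℕ) : 0 ≤ wk n α k :=
  LE_nonneg n _ fun _ _ => pow_nonneg (wf_nonneg _ _) _

lemma LE_mono_Ioo (n : ℕ) {f g : ℝ → ℝ}
    (hf : IntervalIntegrable (fun φ => f φ * Real.sin φ ^ (n - 3)) volume 0 Real.pi)
    (hg : IntervalIntegrable (fun φ => g φ * Real.sin φ ^ (n - 3)) volume 0 Real.pi)
    (h : ∀ φ ∈ Ioo 0 Real.pi, f φ ≤ g φ) : LE n f ≤ LE n g := by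
  unfold LE
  apply div_le_div_of_nonneg_right _ (W_pos _).le
  apply intervalIntegral.integral_mono_on_of_le_Ioo Real.pi_pos.le hf hg
  intro φ hφ
  exact mul_le_mul_of_nonneg_right (h φ hφ)
    (pow_nonneg (Real.sin_nonneg_of_nonneg_of_le_pi hφ.1.le hφ.2.le) _)

lemma LE_const_mul (n : ℕ) (c : ℝ) (f : ℝ → ℝ) : LE n (fun φ => c * f φ) = c * LE n f := by
  unfold LE
  simp_rw [mul_assoc]
  rw [intervalIntegral.integral_const_mul, mul_div_assoc]

lemma LE_sum (n : ℕ) (α : ℝ) (S : Finset ℕ) (c : ℕ → ℝ) :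
    LE n (fun φ => ∑ k ∈ S, c k * wf α φ ^ k) = ∑ k ∈ S, c k * wk n α k := by
  unfold wk LE
  simp_rw [Finset.sum_mul]
  rw [intervalIntegral.integral_finsetSum, Finset.sum_div]
  · apply Finset.sum_congr rfl
    intro k _
    simp_rw [mul_assoc]
    rw [intervalIntegral.integral_const_mul, mul_div_assoc]
  · intro k _
    apply Continuous.intervalIntegrable
    have := wf_cont α
    fun_prop

lemma wf_pos {α : ℝ} (hc : Real.cos α ≠ 0) (φ : ℝ) : 0 < wf α φ := by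
  unfold wf
  apply Real.sqrt_pos.mpr
  have h1 := Real.sin_sq_add_cos_sq α
  have h2 := Real.sin_sq_le_one φ
  have h3 : 0 < Real.cos α ^ 2 := by positivity
  have h4 : 0 ≤ Real.sin α ^ 2 := sq_nonneg _
  rw [mul_pow]
  nlinarith

lemma wf_lt_one {α φ : ℝ} (ha : α ∈ Ioo 0 Real.pi) (hφ : φ ∈ Ioo 0 Real.pi) : wf α φ < 1 := by
  unfold wf
  rw [Real.sqrt_lt' one_pos]
  have h1 : 0 < Real.sin α * Real.sin φ :=
    mul_pos (Real.sin_pos_of_mem_Ioo ha) (Real.sin_pos_of_mem_Ioo hφ)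
  nlinarith [sq_pos_of_pos h1]

lemma bound_two {n : ℕ} {α : ℝ} (ha : α ∈ Ioo 0 Real.pi) (hc : Real.cos α ≠ 0) {Γ : ℝ → ℝ}
    (hI1 : IntervalIntegrable (fun φ => Γ (wf α φ) * Real.sin φ ^ (n - 3)) volume 0 Real.pi)
    {η' : ℝ} (hη' : LE n (fun φ => Γ (wf α φ)) ≤ η') {D : ℝ} (hD : 0 ≤ D) (N : ℕ → ℝ)
    (S : Finset ℕ)
    (h : ∀ r ∈ Ioo (0 : ℝ) 1, ∑ k ∈ S, N k * r ^ k ≤ D * Γ r) :
    ∑ k ∈ S, N k * wk n α k ≤ D * η' := by
  rw [← LE_sum]
  refine le_trans (LE_mono_Ioo n (g := fun φ => D * Γ (wf α φ)) ?_ ?_ ?_) ?_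
  · apply Continuous.intervalIntegrable
    have := wf_cont α
    fun_prop
  · have := hI1.const_mul D
    simpa only [mul_assoc] using this
  · intro φ hφ
    exact h _ ⟨wf_pos hc φ, wf_lt_one ha hφ⟩
  · rw [LE_const_mul]
    exact mul_le_mul_of_nonneg_left hη' hD

lemma bound_three {n q : ℕ} {α : ℝ} (ha : α ∈ Ioo 0 Real.pi) (hc : Real.cos α ≠ 0) {Γ : ℝ → ℝ}
    (hI2 : IntervalIntegrable (fun φ => wf α φ ^ q * Γ (Real.sqrt (wf α φ)) *
      Real.sin φ ^ (n - 3)) volume 0 Real.pi)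
    {η : ℝ} (hη : LE n (fun φ => wf α φ ^ q * Γ (Real.sqrt (wf α φ))) ≤ η) {D : ℝ} (hD : 0 ≤ D)
    (N : ℕ → ℝ) (hN : ∀ k, 0 ≤ N k) (S : Finset ℕ) (hS : ∀ k ∈ S, 2 * q ≤ k)
    (h : ∀ r ∈ Ioo (0 : ℝ) 1, ∑ k ∈ S, N k * r ^ k ≤ D * Γ r) :
    ∑ k ∈ S, N k * wk n α k ≤ D * η := by
  rw [← LE_sum]
  refine le_trans (LE_mono_Ioo n (g := fun φ => D * (wf α φ ^ q * Γ (Real.sqrt (wf α φ)))) ?_ ?_ ?_) ?_
  · apply Continuous.intervalIntegrable
    have := wf_cont α
    fun_prop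
  · have := hI2.const_mul D
    simpa only [mul_assoc] using this
  · intro φ hφ
    set w := wf α φ with hw
    have hw0 : 0 < w := wf_pos hc φ
    have hw1 : w < 1 := wf_lt_one ha hφ
    have hs0 : 0 < Real.sqrt w := Real.sqrt_pos.mpr hw0
    have hs1 : Real.sqrt w < 1 := by
      rw [Real.sqrt_lt' one_pos]
      simpa using hw1
    have e1 : ∑ k ∈ S, N k * w ^ k ≤ w ^ q * ∑ k ∈ S, N k * Real.sqrt w ^ k := by
      rw [Finset.mul_sum]
      apply Finset.sum_le_sum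
      intro k hk
      have e2 : w ^ k ≤ w ^ q * Real.sqrt w ^ k := by
        have e3 : w ^ k = Real.sqrt w ^ k * Real.sqrt w ^ k := by
          rw [← mul_pow, Real.mul_self_sqrt hw0.le]
        have e4 : w ^ q = Real.sqrt w ^ (2 * q) := by
          rw [pow_mul, Real.sq_sqrt hw0.le]
        rw [e3, e4]
        apply mul_le_mul_of_nonneg_right _ (pow_nonneg hs0.le _)
        exact pow_le_pow_of_le_one hs0.le hs1.le (hS k hk)
      calc N k * w ^ k ≤ N k * (w ^ q * Real.sqrt w ^ k) := mul_le_mul_of_nonneg_left e2 (hN k)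
        _ = w ^ q * (N k * Real.sqrt w ^ k) := by ring
    refine e1.trans ?_
    calc w ^ q * ∑ k ∈ S, N k * Real.sqrt w ^ k ≤ w ^ q * (D * Γ (Real.sqrt w)) :=
          mul_le_mul_of_nonneg_left (h _ ⟨hs0, hs1⟩) (pow_nonneg hw0.le _)
      _ = D * (w ^ q * Γ (Real.sqrt w)) := by ring
  · rw [LE_const_mul]
    exact mul_le_mul_of_nonneg_left hη hD

theorem lemA : S_A := by
  intro n q J α Γ η' η μ D F hn ha0 ha1 hcos heven hΓ hI1 hI2 hη' hη hμ hD hbd hFc hFs hμF hlt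
  by_contra hcon
  push Not at hcon
  have ha : α ∈ Ioo 0 Real.pi := ⟨ha0, ha1⟩
  -- notation
  set c : ℕ → ℝ := fun k => dk n k * Pg n k (Real.cos α) with hc
  set N : Fin J → ℕ → ℝ := fun i k => dk n k * fm n k (μ i) (μ i) with hN
  have hN0 : ∀ i k, 0 ≤ N i k := fun i k => mul_nonneg (dk_nonneg hn k) (fm_nonneg hn k (hμ i))
  have hNsum : ∀ i (S : Finset ℕ), ∀ r ∈ Ioo (0 : ℝ) 1, ∑ k ∈ S, N i k * r ^ k ≤ D i * Γ r := by
    intro i S r hr
    have hp := (hμ i).1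
    have h1 := hasSum_fm hn hr.1.le hr.2 (hμ i) (hμ i)
    have h2 : ∑ k ∈ S, r ^ k * dk n k * fm n k (μ i) (μ i) ≤
        ∫ u, ∫ v, pk n r ⟪u, v⟫ ∂(μ i) ∂(μ i) := by
      apply sum_le_hasSum S _ h1
      intro k _
      have := hN0 i k
      rw [mul_assoc]
      exact mul_nonneg (pow_nonneg hr.1.le _) this
    have h3 : ∫ u, ∫ v, pk n r ⟪u, v⟫ ∂(μ i) ∂(μ i) ≤ ∫ _u, D i * Γ r ∂(μ i) := by
      apply integral_mono_of_nonneg
      · exact Eventually.of_forall fun u => integral_nonneg fun v => pk_nonneg hr.1.le hr.2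
      · exact integrable_const _
      · filter_upwards [sph_ae (hμ i)] with u hu
        exact hbd i r hr u hu
    rw [integral_const] at h3
    simp only [probReal_univ, smul_eq_mul, one_mul] at h3
    refine le_trans (le_of_eq ?_) (h2.trans h3)
    apply Finset.sum_congr rfl
    intro k _
    rw [hN]
    ring
  have hB2 : ∀ i (S : Finset ℕ), ∑ k ∈ S, N i k * wk n α k ≤ D i * η' := fun i S =>
    bound_two ha hcos hI1 hη' (hD i) (N i) S (hNsum i S)
  have hB3 : ∀ i (S : Finset ℕ), (∀ k ∈ S, 2 * q ≤ k) → ∑ k ∈ S, N i k * wk n α k ≤ D i * η :=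
    fun i S hS => bound_three ha hcos hI2 hη (hD i) (N i) (hN0 i) S hS (hNsum i S)
  have hη0 : 0 ≤ η := by
    have h1 : LE n (fun _ => (0 : ℝ)) ≤ LE n (fun φ => wf α φ ^ q * Γ (Real.sqrt (wf α φ))) := by
      refine LE_mono_Ioo n (by simp) hI2 fun φ hφ => ?_
      apply mul_nonneg (pow_nonneg (wf_nonneg _ _) _)
      apply hΓ
      refine ⟨Real.sqrt_pos.mpr (wf_pos hcos φ), ?_⟩
      rw [Real.sqrt_lt' one_pos]
      simpa using wf_lt_one ha hφ
    have h2 : LE n (fun _ => (0 : ℝ)) = 0 := by unfold LE; simp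
    linarith
  set K : ℕ := max (2 * q) 1 with hK
  have hK1 : 1 ≤ K := le_max_right _ _
  have hKq : 2 * q ≤ K := le_max_left _ _
  have hcw : ∀ k, |c k| ≤ dk n k * wk n α k := by
    intro k
    rw [hc]
    simp only
    rw [abs_mul, abs_of_nonneg (dk_nonneg hn k)]
    exact mul_le_mul_of_nonneg_left (bd n k hn α) (dk_nonneg hn k)
  -- the terms
  set f : ℕ → Fin J → Fin J → ℝ := fun k i j => c k * fm n k (μ i) (μ j) with hf
  have hfabs : ∀ k i j, |f k i j| ≤ wk n α k * (N i k + N j k) / 2 := by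
    intro k i j
    rw [hf]
    simp only
    rw [abs_mul]
    have h1 := hcw k
    have h2 := fm_cross hn k (hμ i) (hμ j)
    have h3 := fm_nonneg hn k (hμ i)
    have h4 := fm_nonneg hn k (hμ j)
    calc |c k| * |fm n k (μ i) (μ j)| ≤ (dk n k * wk n α k) *
          ((fm n k (μ i) (μ i) + fm n k (μ j) (μ j)) / 2) :=
          mul_le_mul h1 h2 (abs_nonneg _) (mul_nonneg (dk_nonneg hn k) (wk_nonneg _ _ _))
      _ = wk n α k * (N i k + N j k) / 2 := by rw [hN]; ring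
  -- lower bound for each pair
  have hlow : ∀ r ∈ Ioo (0 : ℝ) 1, ∀ i j, ∑ k ∈ Finset.range K, r ^ k * f k i j -
      (D i + D j) / 2 * η ≤ ∫ p, Gk n r α ⟪p.1, p.2⟫ ∂((μ i).prod (μ j)) := by
    intro r hr i j
    have h1 := hasSum_Gk hn hr.1.le hr.2 α (hμ i) (hμ j)
    have h2 : (fun k : ℕ => r ^ k * dk n k * (Pg n k (Real.cos α) * fm n k (μ i) (μ j))) =
        fun k => r ^ k * f k i j := by
      ext k
      rw [hf, hc]
      ring
    rw [h2] at h1
    have h3 := (hasSum_nat_add_iff' K).mpr h1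
    have h4 : -((D i + D j) / 2 * η) ≤ (∫ p, Gk n r α ⟪p.1, p.2⟫ ∂((μ i).prod (μ j))) -
        ∑ k ∈ Finset.range K, r ^ k * f k i j := by
      refine le_of_tendsto_of_tendsto tendsto_const_nhds h3.tendsto_sum_nat ?_
      refine Eventually.of_forall fun m => ?_
      have h5 : |∑ k ∈ Finset.range m, r ^ (k + K) * f (k + K) i j| ≤ (D i + D j) / 2 * η := by
        refine (Finset.abs_sum_le_sum_abs _ _).trans ?_
        have h6 : ∀ k ∈ Finset.range m, |r ^ (k + K) * f (k + K) i j| ≤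
            (N i (k + K) * wk n α (k + K) + N j (k + K) * wk n α (k + K)) / 2 := by
          intro k _
          rw [abs_mul, abs_of_nonneg (pow_nonneg hr.1.le _)]
          have h7 := hfabs (k + K) i j
          have h8 : r ^ (k + K) ≤ 1 := pow_le_one₀ hr.1.le hr.2.le
          calc r ^ (k + K) * |f (k + K) i j| ≤ 1 * |f (k + K) i j| :=
                mul_le_mul_of_nonneg_right h8 (abs_nonneg _)
            _ ≤ _ := by
                rw [one_mul]
                refine h7.trans (le_of_eq ?_)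
                ring
        refine (Finset.sum_le_sum h6).trans ?_
        rw [← Finset.sum_div, Finset.sum_add_distrib]
        have h9 : ∀ i : Fin J, ∑ k ∈ Finset.range m, N i (k + K) * wk n α (k + K) ≤ D i * η := by
          intro i
          have h10 := hB3 i ((Finset.range m).image (fun k => k + K)) (by
            intro k hk
            rw [Finset.mem_image] at hk
            obtain ⟨l, -, rfl⟩ := hk
            omega)
          rwa [Finset.sum_image (by intro a _ b _ hab; simpa using hab)] at h10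
        have h11 := h9 i
        have h12 := h9 j
        linarith
      have h13 := (abs_le.mp h5).1
      exact h13
    linarith
  -- upper bound
  have hup : ∀ i j, ∃ e : ℝ → ℝ, Tendsto e (𝓝[<] 1) (𝓝 0) ∧ (i < j → ∀ r ∈ Ioo (0 : ℝ) 1,
      ∫ p, Gk n r α ⟪p.1, p.2⟫ ∂((μ i).prod (μ j)) ≤ e r) := by
    intro i j
    by_cases hij : i < j
    · obtain ⟨δ, h0, h1, h2⟩ := Gk_int_le hn ha0 ha1 (hμ i) (hμ j) (hFc i) (hFc j) (hFs i) (hFs j)
        (hμF i) (hμF j) (fun u hu v hv => hcon i j hij u hu v hv)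
      exact ⟨_, eps_tendsto n h0 h1, fun _ r hr => h2 r hr.1.le hr.2⟩
    · exact ⟨fun _ => 0, tendsto_const_nhds, fun h => absurd h hij⟩
  choose e he1 he2 using hup
  have hineq : ∀ r ∈ Ioo (0 : ℝ) 1, SP (fun i j => ∑ k ∈ Finset.range K, r ^ k * f k i j) -
      ((J : ℝ) - 1) * (∑ i, D i) / 2 * η ≤ SP (fun i j => e i j r) := by
    intro r hr
    have h1 : SP (fun i j => (∑ k ∈ Finset.range K, r ^ k * f k i j) +
        (-(η / 2)) * (D i + D j)) ≤ SP (fun i j => e i j r) := by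
      apply SP_le
      intro i j hij
      have h2 := hlow r hr i j
      have h3 := he2 i j hij r hr
      linarith
    rw [SP_add, SP_mul, SP_add_const] at h1
    linarith
  have hlim1 : Tendsto (fun r : ℝ => SP (fun i j => ∑ k ∈ Finset.range K, r ^ k * f k i j) -
      ((J : ℝ) - 1) * (∑ i, D i) / 2 * η) (𝓝[<] 1)
      (𝓝 (SP (fun i j => ∑ k ∈ Finset.range K, f k i j) - ((J : ℝ) - 1) * (∑ i, D i) / 2 * η)) := by
    apply Tendsto.sub_const
    apply SP_tendsto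
    intro i j
    have h1 : Tendsto (fun r : ℝ => ∑ k ∈ Finset.range K, r ^ k * f k i j) (𝓝 1)
        (𝓝 (∑ k ∈ Finset.range K, (1 : ℝ) ^ k * f k i j)) := Continuous.tendsto (by fun_prop) 1
    simp only [one_pow, one_mul] at h1
    exact h1.mono_left nhdsWithin_le_nhds
  have hlim2 : Tendsto (fun r : ℝ => SP (fun i j => e i j r)) (𝓝[<] 1) (𝓝 (SP (fun (_ _ : Fin J) => (0 : ℝ)))) :=
    SP_tendsto he1
  rw [SP_const, mul_zero] at hlim2
  have hle : SP (fun i j => ∑ k ∈ Finset.range K, f k i j) - ((J : ℝ) - 1) * (∑ i, D i) / 2 * η ≤ 0 := by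
    refine le_of_tendsto_of_tendsto hlim1 hlim2 ?_
    have h1 : Ioo (0 : ℝ) 1 ∈ 𝓝[<] (1 : ℝ) := Ioo_mem_nhdsLT one_pos
    filter_upwards [h1] with r hr
    exact hineq r hr
  -- split by parity
  rw [SP_finsum] at hle
  have hsplit : ∑ k ∈ Finset.range K, SP (f k) = SP (f 0) +
      ∑ k ∈ (Finset.range K).filter (fun k => k ≠ 0 ∧ Even k), SP (f k) +
      ∑ k ∈ (Finset.range K).filter (fun k => Odd k), SP (f k) := by
    rw [Finset.sum_filter, Finset.sum_filter]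
    have h1 : SP (f 0) = ∑ k ∈ Finset.range K, if k = 0 then SP (f k) else 0 := by
      rw [Finset.sum_ite_eq' (Finset.range K) 0 (fun k => SP (f k)),
        if_pos (Finset.mem_range.mpr (by omega))]
    rw [h1, ← Finset.sum_add_distrib, ← Finset.sum_add_distrib]
    apply Finset.sum_congr rfl
    intro k _
    by_cases hk0 : k = 0
    · simp [hk0]
    · rcases Nat.even_or_odd k with hev | hod
      · have : ¬ Odd k := Nat.not_odd_iff_even.mpr hev
        simp [hk0, hev, this]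
      · have : ¬ Even k := Nat.not_even_iff_odd.mpr hod
        simp [hk0, hod, this]
  have hf0 : SP (f 0) = (J : ℝ) * (J - 1) / 2 := by
    have h1 : f 0 = fun _ _ => (1 : ℝ) := by
      ext i j
      rw [hf, hc]
      simp only
      rw [dk_zero hn, Pg_zero, fm_zero (hμ i) (hμ j)]
      ring
    rw [h1, SP_const, mul_one]
  have hodd : ∑ k ∈ (Finset.range K).filter (fun k => Odd k), SP (f k) =
      ∑ i, ∑ j ∈ Finset.univ.filter (fun j => i < j), Of n q α (μ i) (μ j) := by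
    have h1 : (Finset.range K).filter (fun k => Odd k) =
        (Finset.range (2 * q)).filter (fun k => Odd k) := by
      ext k
      simp only [Finset.mem_filter, Finset.mem_range]
      constructor
      · rintro ⟨h1, h2⟩
        refine ⟨?_, h2⟩
        have h3 : k ≠ 0 := by
          rintro rfl
          simp at h2
        rw [hK] at h1
        rcases lt_max_iff.mp h1 with h4 | h4
        · exact h4
        · omega
      · rintro ⟨h1, h2⟩
        exact ⟨lt_of_lt_of_le h1 hKq, h2⟩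
    rw [h1, ← SP_finsum]
    rfl
  have hev : -((∑ i, D i) * η' / 2) ≤
      ∑ k ∈ (Finset.range K).filter (fun k => k ≠ 0 ∧ Even k), SP (f k) := by
    have h1 : ∀ k ∈ (Finset.range K).filter (fun k => k ≠ 0 ∧ Even k),
        -(∑ i, N i k * wk n α k) / 2 ≤ SP (f k) := by
      intro k hk
      rw [Finset.mem_filter, Finset.mem_range] at hk
      obtain ⟨hkK, hk0, hke⟩ := hk
      have hk2 : k < 2 * q := by
        rw [hK] at hkK
        rcases lt_max_iff.mp hkK with h4 | h4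
        · exact h4
        · omega
      have hc0 : 0 ≤ c k := mul_nonneg (dk_nonneg hn k) (heven k hk2 hke)
      have h2 := psd n k J hn μ (fun _ => 1) hμ
      simp only [one_mul] at h2
      rw [SP_sum (fun i j => fm n k (μ i) (μ j)) (fun i j => fm_comm hn k (hμ i) (hμ j))] at h2
      have h3 : SP (f k) = c k * SP (fun i j => fm n k (μ i) (μ j)) := SP_mul _ _
      rw [h3]
      have h4 : c k * ∑ i, fm n k (μ i) (μ i) ≤ ∑ i, N i k * wk n α k := by
        rw [Finset.mul_sum]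
        apply Finset.sum_le_sum
        intro i _
        have h5 := (le_abs_self _).trans (hcw k)
        calc c k * fm n k (μ i) (μ i) ≤ (dk n k * wk n α k) * fm n k (μ i) (μ i) :=
              mul_le_mul_of_nonneg_right h5 (fm_nonneg hn k (hμ i))
          _ = N i k * wk n α k := by rw [hN]; ring
      have h6 : 0 ≤ c k * (∑ i, fm n k (μ i) (μ i) + 2 * SP fun i j => fm n k (μ i) (μ j)) :=
        mul_nonneg hc0 h2
      rw [mul_add] at h6
      linarith
    refine le_trans ?_ (Finset.sum_le_sum h1)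
    rw [← Finset.sum_div, Finset.sum_neg_distrib, Finset.sum_comm]
    have h7 : ∑ i, ∑ k ∈ (Finset.range K).filter (fun k => k ≠ 0 ∧ Even k), N i k * wk n α k ≤
        ∑ i, D i * η' := Finset.sum_le_sum fun i _ => hB2 i _
    rw [← Finset.sum_mul] at h7
    linarith
  rw [hsplit, hf0, hodd] at hle
  have hDs : 0 ≤ ∑ i, D i := Finset.sum_nonneg fun i _ => hD i
  have hfin : ((J : ℝ) - 1) * (∑ i, D i) / 2 * η ≤ J * η / 2 * ∑ i, D i := by
    nlinarith [mul_nonneg hη0 hDs]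
  nlinarith

end Pool.Agent.W778.AG
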