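import Pool.Agent.W778.AG.Psd
import Pool.Agent.W376.AG.Sum

set_option autoImplicit false

open MeasureTheory Metric Set
open scoped ENNReal RealInnerProductSpace

namespace Pool.Agent.W778.AG

theorem ssum : S_SUM := Pool.Agent.W376.AG.sum_of bd

lemma dk_nonneg {n : ℕ} (hn : 3 ≤ n) (k : ℕ) : 0 ≤ dk n k := by
  have hn' : (3 : ℝ) ≤ n := by exact_mod_cast hn
  unfold dk
  have hk : (0 : ℝ) ≤ k := Nat.cast_nonneg k
  apply mul_nonneg _ (Nat.cast_nonneg _)
  apply div_nonneg <;> linarith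

lemma dk_zero {n : ℕ} (hn : 3 ≤ n) : dk n 0 = 1 := by
  have hn' : (3 : ℝ) ≤ n := by exact_mod_cast hn
  unfold dk
  have : (n : ℝ) - 2 ≠ 0 := by linarith
  rw [Nat.choose_zero_right]
  field_simp
  norm_num

lemma summ_dk {n : ℕ} (hn : 3 ≤ n) {r : ℝ} (hr0 : 0 ≤ r) (hr1 : r < 1) :
    Summable (fun k : ℕ => r ^ k * dk n k) := by
  have h := (ssum n hn r hr0 hr1 1 (by simp)).summable
  simpa [Pg_at_one hn] using h

/-- integration of the expansion against a finite measure -/
lemma hasSum_int {n : ℕ} (hn : 3 ≤ n) {r : ℝ} (hr0 : 0 ≤ r) (hr1 : r < 1) {X : Type*}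
    [MeasurableSpace X] (m : Measure X) [IsFiniteMeasure m] (t : X → ℝ) (ht : Measurable t)
    (hb : ∀ᵐ x ∂m, |t x| ≤ 1) :
    HasSum (fun k : ℕ => r ^ k * dk n k * ∫ x, Pg n k (t x) ∂m) (∫ x, pk n r (t x) ∂m) := by
  have h := hasSum_integral_of_dominated_convergence (μ := m)
    (F := fun (k : ℕ) x => r ^ k * dk n k * Pg n k (t x)) (f := fun x => pk n r (t x))
    (fun k _ => r ^ k * dk n k)
    (fun k => (((Pg_cont n k).measurable.comp ht).const_mul _).aestronglyMeasurable)
    (fun k => by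
      filter_upwards [hb] with x hx
      rw [norm_mul, Real.norm_of_nonneg (mul_nonneg (pow_nonneg hr0 k) (dk_nonneg hn k))]
      exact mul_le_of_le_one_right (mul_nonneg (pow_nonneg hr0 k) (dk_nonneg hn k))
        (Pg_le_one hn k hx))
    (Filter.Eventually.of_forall fun _ => summ_dk hn hr0 hr1)
    (integrable_const _)
    (by
      filter_upwards [hb] with x hx
      exact ssum n hn r hr0 hr1 (t x) hx)
  simpa only [integral_const_mul] using h

lemma pk_nonneg {n : ℕ} {r t : ℝ} (hr0 : 0 ≤ r) (hr1 : r < 1) : 0 ≤ pk n r t := by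
  unfold pk
  apply div_nonneg
  · nlinarith
  · positivity

lemma den_pos {r t : ℝ} (hr0 : 0 ≤ r) (hr1 : r < 1) (ht : t ≤ 1) : 0 < 1 - 2 * r * t + r ^ 2 := by
  nlinarith [mul_nonneg hr0 (sub_nonneg.mpr ht)]

lemma pk_mono {n : ℕ} {r t t' : ℝ} (hr0 : 0 ≤ r) (hr1 : r < 1) (ht' : t' ≤ 1) (htt : t ≤ t') :
    pk n r t ≤ pk n r t' := by
  unfold pk
  have h1 := den_pos hr0 hr1 ht'
  have h2 := den_pos hr0 hr1 (htt.trans ht')
  apply div_le_div_of_nonneg_left
  · nlinarith
  · exact pow_pos (Real.sqrt_pos.mpr h1) n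
  · apply pow_le_pow_left₀ (Real.sqrt_nonneg _)
    apply Real.sqrt_le_sqrt
    nlinarith

lemma Pg_zero_lt {n : ℕ} (hn : 3 ≤ n) {k : ℕ} (hk : k ≠ 0) : |Pg n k 0| < 1 := by
  have hn' : (3 : ℝ) ≤ n := by exact_mod_cast hn
  rcases k with _ | _ | k
  · exact absurd rfl hk
  · rw [zero_add, Pg_one]; simp
  · rw [Pg_add_two]
    have h1 := Pg_le_one hn k (t := 0) (by simp)
    have hk0 : (0 : ℝ) ≤ k := Nat.cast_nonneg k
    rw [abs_div, div_lt_one (abs_pos.mpr (by linarith)), abs_of_nonneg (by linarith : 0 ≤ (k : ℝ) + n - 1)]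
    rw [mul_zero, zero_mul, zero_sub, abs_neg, abs_mul, abs_of_nonneg (by linarith : 0 ≤ (k : ℝ) + 1)]
    nlinarith [abs_nonneg (Pg n k 0)]

lemma sph_ae {n : ℕ} {ρ : Measure (En n)} (hρ : Sph ρ) : ∀ᵐ w ∂ρ, ‖w‖ = 1 := by
  rw [ae_iff, ← nonpos_iff_eq_zero, ← hρ.2]
  apply measure_mono
  intro w hw
  simpa using hw

theorem mean : S_MEAN := by
  intro n hn r hr0 hr1 v hv g hg hfin
  have hgm : Measurable (fun z : En n => g ‖z‖) := hg.comp measurable_norm
  set m : Measure (En n) := volume.withDensity (fun z => g ‖z‖) with hm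
  have hmfin : IsFiniteMeasure m := by
    constructor
    rw [hm, withDensity_apply _ MeasurableSet.univ, Measure.restrict_univ]
    exact lt_top_iff_ne_top.mpr hfin
  have hmuniv : m univ = ∫⁻ z : En n, g ‖z‖ := by
    rw [hm, withDensity_apply _ MeasurableSet.univ, Measure.restrict_univ]
  have hmp : ∀ O : En n ≃ₗᵢ[ℝ] En n, MeasurePreserving O m m := by
    intro O
    refine ⟨O.continuous.measurable, ?_⟩
    ext s hs
    rw [Measure.map_apply O.continuous.measurable hs, hm, withDensity_apply _ hs,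
      withDensity_apply _ (O.continuous.measurable hs)]
    have h1 := O.measurePreserving.setLIntegral_comp_preimage hs hgm
    rw [← h1]
    congr 1
    ext z
    simp
  have hdm : ∀ w : En n, Measurable (fun z : En n => ⟪w, dir z⟫) := fun w =>
    measurable_const.inner measurable_dir0
  have hdb : ∀ w : En n, ‖w‖ = 1 → ∀ᵐ z ∂m, |⟪w, dir z⟫| ≤ 1 := fun w hw =>
    Filter.Eventually.of_forall fun z => abs_inner_le_one hw.le (norm_dir_le z)
  set I : ℕ → En n → ℝ := fun k w => ∫ z, Pg n k ⟪w, dir z⟫ ∂m with hI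
  have hIc : ∀ k (w w' : En n), ‖w‖ = 1 → ‖w'‖ = 1 → I k w = I k w' := by
    intro k w w' hw hw'
    have e1 : (ℝ ∙ (w - w'))ᗮ.reflection w = w' := Submodule.reflection_sub (by rw [hw, hw'])
    rw [hI]
    simp only
    have h1 := (hmp (ℝ ∙ (w - w'))ᗮ.reflection).integral_comp
      ((ℝ ∙ (w - w'))ᗮ.reflection).toHomeomorph.measurableEmbedding (fun z => Pg n k ⟪w', dir z⟫)
    rw [← h1]
    congr 1
    ext z
    have h2 : ⟪w, dir z⟫ = ⟪w', dir ((ℝ ∙ (w - w'))ᗮ.reflection z)⟫ := by
      rw [dir_map]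
      have h3 := ((ℝ ∙ (w - w'))ᗮ.reflection).inner_map_map w (dir z)
      rw [e1] at h3
      exact h3.symm
    rw [h2]
  have hI0 : ∀ k, k ≠ 0 → I k v = 0 := by
    intro k hk
    obtain ⟨ρ, hρ, -, hav⟩ := avg n hn v (Real.pi / 2) hv
    have hρp := hρ.1
    have h1 := sph_ae hρ
    have h2 : ∫ w, I k w ∂ρ = I k v := by
      have : ∀ᵐ w ∂ρ, I k w = I k v := by
        filter_upwards [h1] with w hw
        exact hIc k w v hw hv
      rw [integral_congr_ae this, integral_const]
      simp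
    have hint : Integrable (Function.uncurry fun w z => Pg n k ⟪w, dir z⟫) (ρ.prod m) := by
      refine Integrable.of_bound (C := 1) ?_ ?_
      · apply Measurable.aestronglyMeasurable
        unfold Function.uncurry
        simp only
        exact (Pg_cont n k).measurable.comp
          (measurable_fst.inner (measurable_dir0.comp measurable_snd))
      · have h5 : ∀ᵐ p ∂(ρ.prod m), ‖p.1‖ = 1 := (Measure.quasiMeasurePreserving_fst).ae h1
        filter_upwards [h5] with p hp
        exact Pg_le_one hn k (abs_inner_le_one hp.le (norm_dir_le _))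
    have h3 : ∫ w, I k w ∂ρ = Pg n k 0 * I k v := by
      rw [hI]
      simp only
      rw [integral_integral_swap hint, ← integral_const_mul]
      have h6 : ∀ᵐ z ∂m, z ≠ 0 := by
        have h61 : m ≪ volume := withDensity_absolutelyContinuous _ _
        apply h61.ae_le
        have : Nontrivial (En n) := by
          have : Nonempty (Fin n) := ⟨⟨0, by omega⟩⟩
          infer_instance
        have := measure_singleton (μ := (volume : Measure (En n))) (0 : En n)
        refine measure_mono_null ?_ this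
        intro z hz
        simpa using hz
      apply integral_congr_ae
      filter_upwards [h6] with z hz
      rw [hav k (dir z) (norm_dir hz), Real.cos_pi_div_two]
    have h4 : (1 - Pg n k 0) * I k v = 0 := by
      rw [h2] at h3
      linarith
    rcases mul_eq_zero.mp h4 with h | h
    · exfalso
      have := (abs_lt.mp (Pg_zero_lt hn hk)).2
      linarith
    · exact h
  have hs := hasSum_int hn hr0 hr1 m (fun z => ⟪v, dir z⟫) (hdm v) (hdb v hv)
  have hs2 : HasSum (fun k : ℕ => r ^ k * dk n k * I k v) (m.real univ) := by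
    have h1 : (fun k : ℕ => r ^ k * dk n k * I k v) = fun k => if k = 0 then m.real univ else 0 := by
      ext k
      split_ifs with h
      · subst h
        rw [pow_zero, dk_zero hn, hI]
        simp [Pg_zero]
      · rw [hI0 k h, mul_zero]
    rw [h1]
    exact hasSum_ite_eq 0 _
  have h7 : ∫ z, pk n r ⟪v, dir z⟫ ∂m = m.real univ := hs.unique hs2
  have h8 : ∫⁻ z : En n, ENNReal.ofReal (pk n r ⟪v, dir z⟫) * g ‖z‖ =
      ∫⁻ z, ENNReal.ofReal (pk n r ⟪v, dir z⟫) ∂m := by
    rw [hm, lintegral_withDensity_eq_lintegral_mul _ hgm]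
    · congr 1
      ext z
      simp only [Pi.mul_apply]
      rw [mul_comm]
    · exact ((measurable_pk n r).comp (hdm v)).ennreal_ofReal
  rw [h8, ← ofReal_integral_eq_lintegral_ofReal, h7, ← hmuniv, ofReal_measureReal]
  · -- integrability
    refine Integrable.of_bound (C := pk n r 1) ((measurable_pk n r).comp (hdm v)).aestronglyMeasurable
      (Filter.Eventually.of_forall fun z => ?_)
    rw [Real.norm_of_nonneg (pk_nonneg hr0 hr1)]
    exact pk_mono hr0 hr1 le_rfl (abs_le.mp (abs_inner_le_one hv.le (norm_dir_le z))).2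
  · exact Filter.Eventually.of_forall fun z => pk_nonneg hr0 hr1

theorem conc : S_CONC := by
  intro n hn r hr0 hr1 α θ hα0 hα1 hθ0 hθ1
  obtain ⟨v, hv⟩ : ∃ e : En n, ‖e‖ = 1 := by
    have : Nonempty (Fin n) := ⟨⟨0, by omega⟩⟩
    have : Nontrivial (En n) := inferInstance
    obtain ⟨x, hx⟩ := exists_ne (0 : En n)
    exact ⟨dir x, norm_dir hx⟩
  obtain ⟨x, hx, hvx⟩ : ∃ x : En n, ‖x‖ = 1 ∧ ⟪v, x⟫ = Real.cos θ := by
    obtain ⟨ρ, hρ, hc, -⟩ := avg n hn v θ hv
    have hρp := hρ.1
    have h1 : ∀ᵐ w ∂ρ, ⟪v, w⟫ = Real.cos θ := by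
      rw [ae_iff]; exact hc
    obtain ⟨w, hw1, hw2⟩ := ((sph_ae hρ).and h1).exists
    exact ⟨w, hw1, hw2⟩
  obtain ⟨ρ, hρ, hc, hav⟩ := avg n hn v α hv
  have hρp := hρ.1
  have h1 := sph_ae hρ
  have h2 : ∀ᵐ w ∂ρ, ⟪v, w⟫ = Real.cos α := by
    rw [ae_iff]; exact hc
  have hs := hasSum_int hn hr0 hr1 ρ (fun w => ⟪w, x⟫) (measurable_id.inner measurable_const)
    (by filter_upwards [h1] with w hw
        exact abs_inner_le_one hw.le hx.le)
  have h3 : ∀ k : ℕ, ∫ w, Pg n k ⟪w, x⟫ ∂ρ = Pg n k (Real.cos α) * Pg n k (Real.cos θ) := by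
    intro k
    rw [hav k x hx, hvx]
  simp_rw [h3] at hs
  rw [hs.tsum_eq]
  have h4 : ∀ᵐ w ∂ρ, pk n r ⟪w, x⟫ ≤ pk n r (Real.cos (θ - α)) := by
    filter_upwards [h1, h2] with w hw1 hw2
    apply pk_mono hr0 hr1 (Real.cos_le_one _)
    have a1 : InnerProductGeometry.angle v x = θ := by
      rw [InnerProductGeometry.angle, hv, hx, mul_one, div_one, hvx, Real.arccos_cos hθ0 hθ1]
    have a2 : InnerProductGeometry.angle v w = α := by
      rw [InnerProductGeometry.angle, hv, hw1, mul_one, div_one, hw2, Real.arccos_cos hα0 hα1]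
    have a3 : Real.cos (InnerProductGeometry.angle w x) = ⟪w, x⟫ := by
      rw [InnerProductGeometry.cos_angle, hw1, hx, mul_one, div_one]
    have t1 := InnerProductGeometry.angle_le_angle_add_angle v w x
    have t2 := InnerProductGeometry.angle_le_angle_add_angle v x w
    rw [InnerProductGeometry.angle_comm x w] at t2
    rw [a1, a2] at t1 t2
    have h5 : |θ - α| ≤ InnerProductGeometry.angle w x := by
      rw [abs_le]
      constructor <;> linarith
    rw [← a3, ← Real.cos_abs (θ - α)]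
    exact Real.cos_le_cos_of_nonneg_of_le_pi (abs_nonneg _) (InnerProductGeometry.angle_le_pi _ _) h5
  have h6 : ∫ w, pk n r ⟪w, x⟫ ∂ρ ≤ ∫ w, pk n r (Real.cos (θ - α)) ∂ρ := by
    apply integral_mono_of_nonneg (Filter.Eventually.of_forall fun w => pk_nonneg hr0 hr1)
      (integrable_const _) h4
  refine h6.trans (le_of_eq ?_)
  rw [integral_const]
  simp [pk]

end Pool.Agent.W778.AG
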