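import Pool.Agent.W778.AG.Stmts

set_option autoImplicit false

open MeasureTheory Metric Set
open scoped ENNReal RealInnerProductSpace

namespace Pool.Agent.W778.AG

lemma Pg_zero (n : ℕ) (t : ℝ) : Pg n 0 t = 1 := rfl

lemma Pg_one (n : ℕ) (t : ℝ) : Pg n 1 t = t := rfl

lemma Pg_add_two (n k : ℕ) (t : ℝ) : Pg n (k + 2) t =
    ((2 * (k : ℝ) + n) * t * Pg n (k + 1) t - ((k : ℝ) + 1) * Pg n k t) / ((k : ℝ) + n - 1) := rfl

theorem par : S_PAR := by
  intro n k t
  induction k using Nat.twoStepInduction with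
  | zero => simp [Pg_zero]
  | one => simp [Pg_one]
  | more k h1 h2 =>
    rw [Pg_add_two, Pg_add_two, h1, h2]
    ring

lemma pos_aux (n : ℕ) (hn : 3 ≤ n) (t : ℝ) (ht : 0 < t) (k : ℕ)
    (hk : (k : ℝ) ≤ ((n : ℝ) - 2) * t ^ 2 / 4) :
    0 < Pg n k t ∧ t / 2 * Pg n k t ≤ Pg n (k + 1) t := by
  have hn' : (3 : ℝ) ≤ n := by exact_mod_cast hn
  induction k with
  | zero =>
    rw [Pg_zero, zero_add, Pg_one]
    constructor
    · norm_num
    · linarith
  | succ k ih =>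
    push_cast at hk
    obtain ⟨h1, h2⟩ := ih (by linarith)
    have h3 : 0 < Pg n (k + 1) t := lt_of_lt_of_le (by positivity) h2
    refine ⟨h3, ?_⟩
    rw [Pg_add_two]
    have hk0 : (0 : ℝ) ≤ k := Nat.cast_nonneg k
    have hden : 0 < (k : ℝ) + n - 1 := by linarith
    rw [le_div_iff₀ hden]
    -- `Pg n k t ≤ 2 / t * Pg n (k+1) t`
    have h4 : Pg n k t * t ≤ 2 * Pg n (k + 1) t := by linarith
    have h5 : ((k : ℝ) + 1) * Pg n k t * t ≤ ((k : ℝ) + 1) * (2 * Pg n (k + 1) t) := by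
      rw [mul_assoc]
      exact mul_le_mul_of_nonneg_left h4 (by linarith)
    -- multiply by `t`
    have h6 : (t / 2 * Pg n (k + 1) t * ((k : ℝ) + n - 1)) * t ≤
        ((2 * (k : ℝ) + n) * t * Pg n (k + 1) t - ((k : ℝ) + 1) * Pg n k t) * t := by
      have h7 : 0 ≤ Pg n (k + 1) t *
          ((2 * (k : ℝ) + n) * t ^ 2 - 2 * ((k : ℝ) + 1) - t ^ 2 / 2 * ((k : ℝ) + n - 1)) := by
        apply mul_nonneg h3.le
        nlinarith [sq_nonneg t, mul_nonneg hk0 (sq_nonneg t)]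
      nlinarith
    exact le_of_mul_le_mul_right h6 ht

theorem pos : S_POS := by
  intro n k hn t ht _ hk
  exact (pos_aux n hn t ht k hk).1

end Pool.Agent.W778.AG
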