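import Pool.Agent.W778.AG.Avg

set_option autoImplicit false

open MeasureTheory Metric Set
open scoped ENNReal RealInnerProductSpace

namespace Pool.Agent.W778.AG

lemma Pg_cont (n k : ℕ) : Continuous (Pg n k) := by
  induction k using Nat.twoStepInduction with
  | zero =>
    have : Pg n 0 = fun _ => (1 : ℝ) := by ext t; rfl
    rw [this]; fun_prop
  | one =>
    have : Pg n 1 = fun t => t := by ext t; rfl
    rw [this]; fun_prop
  | more k h1 h2 =>
    have : Pg n (k + 2) = fun t => ((2 * (k : ℝ) + n) * t * Pg n (k + 1) t -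
      ((k : ℝ) + 1) * Pg n k t) / ((k : ℝ) + n - 1) := by ext t; rfl
    rw [this]; fun_prop

lemma wf_cont (α : ℝ) : Continuous (wf α) := by
  unfold wf
  fun_prop

lemma LE_le_one (n : ℕ) (f : ℝ → ℝ) (hf : Continuous f) (h : ∀ φ, f φ ≤ 1) : LE n f ≤ 1 := by
  unfold LE
  have hW : 0 < ∫ φ in (0 : ℝ)..Real.pi, Real.sin φ ^ (n - 3) := W_pos _
  rw [div_le_one hW]
  apply intervalIntegral.integral_mono_on Real.pi_pos.le
  · apply Continuous.intervalIntegrable; fun_prop
  · apply Continuous.intervalIntegrable; fun_prop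
  · intro φ hφ
    have h1 : 0 ≤ Real.sin φ ^ (n - 3) :=
      pow_nonneg (Real.sin_nonneg_of_nonneg_of_le_pi hφ.1 hφ.2) _
    nlinarith [h φ]

lemma Pg_le_one {n : ℕ} (hn : 3 ≤ n) (k : ℕ) {t : ℝ} (ht : |t| ≤ 1) : |Pg n k t| ≤ 1 := by
  have h1 := bd n k hn (Real.arccos t)
  rw [Real.cos_arccos (abs_le.mp ht).1 (abs_le.mp ht).2] at h1
  refine h1.trans (LE_le_one n _ ((wf_cont _).pow k) ?_)
  intro φ
  exact pow_le_one₀ (wf_nonneg _ _) (wf_le_one _ _)

lemma norm_dir_le {n : ℕ} (z : En n) : ‖dir z‖ ≤ 1 := by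
  by_cases h : z = 0
  · rw [h]; simp [dir]
  · rw [norm_dir h]

lemma abs_inner_le_one {n : ℕ} {x y : En n} (hx : ‖x‖ ≤ 1) (hy : ‖y‖ ≤ 1) : |⟪x, y⟫| ≤ 1 := by
  have := abs_real_inner_le_norm x y
  have h1 : ‖x‖ * ‖y‖ ≤ 1 := mul_le_one₀ hx (norm_nonneg y) hy
  linarith

lemma dir_map {n : ℕ} (O : En n ≃ₗᵢ[ℝ] En n) (z : En n) : dir (O z) = O (dir z) := by
  unfold dir
  rw [O.norm_map, map_smul]

lemma measurable_dir0 {n : ℕ} : Measurable (dir : En n → En n) := by
  unfold dir
  fun_prop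

noncomputable def Jf (n k : ℕ) (u v : En n) : ℝ :=
  ∫ z, Pg n k ⟪u, dir z⟫ * Pg n k ⟪dir z, v⟫ ∂(gam n)

lemma Jf_map {n k : ℕ} (O : En n ≃ₗᵢ[ℝ] En n) (u v : En n) : Jf n k (O u) (O v) = Jf n k u v := by
  unfold Jf
  have h1 := (gam_mp n O).integral_comp O.toHomeomorph.measurableEmbedding
    (fun z => Pg n k ⟪O u, dir z⟫ * Pg n k ⟪dir z, O v⟫)
  rw [← h1]
  congr 1
  ext z
  rw [dir_map, O.inner_map_map, O.inner_map_map]

lemma Jf_const {n k : ℕ} {u v : En n} (hu : ‖u‖ = 1) (hv : ‖v‖ = 1) : Jf n k u u = Jf n k v v := by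
  have h1 : (ℝ ∙ (u - v))ᗮ.reflection u = v := Submodule.reflection_sub (by rw [hu, hv])
  rw [← Jf_map (ℝ ∙ (u - v))ᗮ.reflection u u, h1]

lemma Jf_eq {n k : ℕ} (hn : 3 ≤ n) {u v : En n} (hu : ‖u‖ = 1) (hv : ‖v‖ = 1) :
    Jf n k u v = Pg n k ⟪u, v⟫ * Jf n k u u := by
  obtain ⟨ρ, ⟨hρ, hs⟩, hα, hav⟩ := avg n hn u (Real.arccos ⟪u, v⟫) hu
  have habs : |⟪u, v⟫| ≤ 1 := abs_inner_le_one hu.le hv.le
  rw [Real.cos_arccos (abs_le.mp habs).1 (abs_le.mp habs).2] at hα hav
  have h1 : ∀ᵐ w ∂ρ, ‖w‖ = 1 := by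
    rw [ae_iff, ← nonpos_iff_eq_zero, ← hs]
    apply measure_mono
    intro w hw
    simpa using hw
  have h2 : ∀ᵐ w ∂ρ, ⟪u, w⟫ = ⟪u, v⟫ := by
    rw [ae_iff]
    exact hα
  have h3 : ∀ᵐ w ∂ρ, Jf n k u w = Jf n k u v := by
    filter_upwards [h1, h2] with w hw1 hw2
    have e1 : (ℝ ∙ (v - w))ᗮ.reflection v = w := Submodule.reflection_sub (by rw [hv, hw1])
    have e2 : (ℝ ∙ (v - w))ᗮ.reflection u = u := by
      apply Submodule.reflection_mem_subspace_eq_self
      rw [Submodule.mem_orthogonal_singleton_iff_inner_left, inner_sub_right, hw2, sub_self]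
    rw [← Jf_map (ℝ ∙ (v - w))ᗮ.reflection u v, e1, e2]
  have h4 : ∫ w, Jf n k u w ∂ρ = Jf n k u v := by
    rw [integral_congr_ae h3, integral_const]
    simp
  rw [← h4]
  unfold Jf
  have hint : Integrable (Function.uncurry fun w z => Pg n k ⟪u, dir z⟫ * Pg n k ⟪dir z, w⟫)
      (ρ.prod (gam n)) := by
    refine Integrable.of_bound (C := 1) ?_ ?_
    · apply Measurable.aestronglyMeasurable
      unfold Function.uncurry
      simp only
      have m2 : Measurable (fun p : En n × En n => dir p.2) := measurable_dir0.comp measurable_snd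
      exact ((Pg_cont n k).measurable.comp (measurable_const.inner m2)).mul
        ((Pg_cont n k).measurable.comp (m2.inner measurable_fst))
    · have h5 : ∀ᵐ p ∂(ρ.prod (gam n)), ‖p.1‖ = 1 :=
        (Measure.quasiMeasurePreserving_fst).ae h1
      filter_upwards [h5] with p hp
      unfold Function.uncurry
      simp only
      rw [norm_mul, Real.norm_eq_abs, Real.norm_eq_abs]
      exact mul_le_one₀ (Pg_le_one hn k (abs_inner_le_one hu.le (norm_dir_le _))) (abs_nonneg _)
        (Pg_le_one hn k (abs_inner_le_one (norm_dir_le _) hp.le))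
  rw [integral_integral_swap hint, ← integral_const_mul]
  apply integral_congr_ae
  have h6 : ∀ᵐ z ∂(gam n), ‖dir z‖ = 1 := by
    have h7 : ∀ᵐ z ∂(gam n), z ≠ 0 := by
      apply (gam_ac n).ae_le
      have : Nontrivial (En n) := by
        have : Nonempty (Fin n) := ⟨⟨0, by omega⟩⟩
        infer_instance
      have := measure_singleton (μ := (volume : Measure (En n))) (0 : En n)
      refine measure_mono_null ?_ this
      intro z hz
      simpa using hz
    filter_upwards [h7] with z hz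
    exact norm_dir hz
  filter_upwards [h6] with z hz
  rw [integral_const_mul]
  have h8 : ∫ w, Pg n k ⟪dir z, w⟫ ∂ρ = Pg n k ⟪u, v⟫ * Pg n k ⟪u, dir z⟫ := by
    rw [← hav k (dir z) hz]
    congr 1
    ext w
    rw [real_inner_comm]
  rw [h8, real_inner_comm u (dir z)]
  ring

lemma Pg_at_one {n : ℕ} (hn : 3 ≤ n) (k : ℕ) : Pg n k 1 = 1 := by
  have hn' : (3 : ℝ) ≤ n := by exact_mod_cast hn
  induction k using Nat.twoStepInduction with
  | zero => rfl
  | one => rfl
  | more k h1 h2 =>
    rw [Pg_add_two, h1, h2, div_eq_one_iff_eq]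
    · ring
    · have : (0 : ℝ) ≤ k := Nat.cast_nonneg k
      linarith

lemma Jf_pos {n k : ℕ} (hn : 3 ≤ n) {u : En n} (hu : ‖u‖ = 1) : 0 < Jf n k u u := by
  have h0 : Jf n k u u = ∫ z, Pg n k ⟪u, dir z⟫ ^ 2 ∂(gam n) := by
    unfold Jf
    congr 1
    ext z
    rw [real_inner_comm u (dir z)]
    ring
  rw [h0]
  have hm : Measurable (fun z : En n => Pg n k ⟪u, dir z⟫ ^ 2) :=
    (((Pg_cont n k).measurable.comp (measurable_const.inner measurable_dir0))).pow_const 2
  have hint : Integrable (fun z : En n => Pg n k ⟪u, dir z⟫ ^ 2) (gam n) := by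
    refine Integrable.of_bound (C := 1) hm.aestronglyMeasurable (Filter.Eventually.of_forall ?_)
    intro z
    rw [norm_pow, Real.norm_eq_abs]
    exact pow_le_one₀ (abs_nonneg _) (Pg_le_one hn k (abs_inner_le_one hu.le (norm_dir_le _)))
  rw [integral_pos_iff_support_of_nonneg (fun z => sq_nonneg _) hint]
  set S : Set (En n) := ball 0 1 ∩ ({0}ᶜ ∩ (fun z => Pg n k ⟪u, dir z⟫) ⁻¹' {0}ᶜ) with hS
  have hopen : IsOpen S := by
    apply isOpen_ball.inter
    have hc : ContinuousOn (fun z : En n => Pg n k ⟪u, dir z⟫) {0}ᶜ := by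
      have h1 := continuousOn_dir (0 : En n)
      simp only [sub_zero] at h1
      exact (Pg_cont n k).comp_continuousOn (continuousOn_const.inner h1)
    exact hc.isOpen_inter_preimage isOpen_compl_singleton isOpen_compl_singleton
  have hmem : (1 / 2 : ℝ) • u ∈ S := by
    have hne : (1 / 2 : ℝ) • u ≠ 0 := by
      intro h
      rw [smul_eq_zero] at h
      rcases h with h | h
      · norm_num at h
      · rw [h, norm_zero] at hu
        exact zero_ne_one hu
    refine ⟨?_, hne, ?_⟩
    · rw [mem_ball_zero_iff, norm_smul, hu]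
      norm_num
    · have hd : dir ((1 / 2 : ℝ) • u) = u := by
        unfold dir
        rw [norm_smul, hu, smul_smul]
        norm_num
      simp only [mem_preimage, hd, mem_compl_iff, mem_singleton_iff]
      rw [real_inner_self_eq_norm_sq, hu, one_pow, Pg_at_one hn]
      exact one_ne_zero
  have hvol : 0 < volume S := hopen.measure_pos _ ⟨_, hmem⟩
  have hgam : 0 < (gam n) S := by
    unfold gam
    rw [Measure.smul_apply, Measure.restrict_apply hopen.measurableSet, smul_eq_mul]
    have : S ∩ ball 0 1 = S := inter_eq_left.mpr inter_subset_left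
    rw [this]
    exact ENNReal.mul_pos (ENNReal.inv_ne_zero.mpr (vol_ball_ne_top n)) hvol.ne'
  refine lt_of_lt_of_le hgam (measure_mono ?_)
  intro z hz
  rw [Function.mem_support]
  exact pow_ne_zero 2 hz.2.2

theorem psd : S_PSD := by
  intro n k J hn μ a hμ
  have : ∀ i, IsProbabilityMeasure (μ i) := fun i => (hμ i).1
  have h1 : ∀ i, ∀ᵐ w ∂(μ i), ‖w‖ = 1 := by
    intro i
    rw [ae_iff, ← nonpos_iff_eq_zero, ← (hμ i).2]
    apply measure_mono
    intro w hw
    simpa using hw
  -- a unit vector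
  obtain ⟨e, he⟩ : ∃ e : En n, ‖e‖ = 1 := by
    have : Nonempty (Fin n) := ⟨⟨0, by omega⟩⟩
    have : Nontrivial (En n) := inferInstance
    obtain ⟨x, hx⟩ := exists_ne (0 : En n)
    exact ⟨dir x, norm_dir hx⟩
  set c := Jf n k e e with hc
  have hc0 : 0 < c := Jf_pos hn he
  set g : Fin J → En n → ℝ := fun i z => ∫ u, Pg n k ⟪u, dir z⟫ ∂(μ i) with hg
  have hfm : ∀ i j, c * fm n k (μ i) (μ j) = ∫ z, g i z * g j z ∂(gam n) := by
    intro i j
    unfold fm
    rw [← integral_const_mul]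
    have e1 : ∀ᵐ u ∂(μ i), c * ∫ v, Pg n k ⟪u, v⟫ ∂(μ j) = ∫ v, Jf n k u v ∂(μ j) := by
      filter_upwards [h1 i] with u hu
      rw [← integral_const_mul]
      apply integral_congr_ae
      filter_upwards [h1 j] with v hv
      rw [Jf_eq hn hu hv, Jf_const hu he]
      ring
    rw [integral_congr_ae e1]
    unfold Jf
    -- Fubini
    have hm3 : Measurable (fun p : (En n × En n) × En n =>
        Pg n k ⟪p.1.1, dir p.2⟫ * Pg n k ⟪dir p.2, p.1.2⟫) := by
      have m2 : Measurable (fun p : (En n × En n) × En n => dir p.2) :=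
        measurable_dir0.comp measurable_snd
      exact ((Pg_cont n k).measurable.comp
        ((measurable_fst.comp measurable_fst).inner m2)).mul
        ((Pg_cont n k).measurable.comp (m2.inner (measurable_snd.comp measurable_fst)))
    have hint : Integrable (fun p : (En n × En n) × En n =>
        Pg n k ⟪p.1.1, dir p.2⟫ * Pg n k ⟪dir p.2, p.1.2⟫) (((μ i).prod (μ j)).prod (gam n)) := by
      refine Integrable.of_bound (C := 1) hm3.aestronglyMeasurable ?_
      have q1 : ∀ᵐ p ∂(((μ i).prod (μ j)).prod (gam n)), ‖p.1.1‖ = 1 :=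
        (Measure.quasiMeasurePreserving_fst.comp Measure.quasiMeasurePreserving_fst).ae (h1 i)
      have q2 : ∀ᵐ p ∂(((μ i).prod (μ j)).prod (gam n)), ‖p.1.2‖ = 1 :=
        (Measure.quasiMeasurePreserving_snd.comp Measure.quasiMeasurePreserving_fst).ae (h1 j)
      filter_upwards [q1, q2] with p hp1 hp2
      rw [norm_mul, Real.norm_eq_abs, Real.norm_eq_abs]
      exact mul_le_one₀ (Pg_le_one hn k (abs_inner_le_one hp1.le (norm_dir_le _))) (abs_nonneg _)
        (Pg_le_one hn k (abs_inner_le_one (norm_dir_le _) hp2.le))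
    have e2 : ∫ u, ∫ v, ∫ z, Pg n k ⟪u, dir z⟫ * Pg n k ⟪dir z, v⟫ ∂(gam n) ∂(μ j) ∂(μ i) =
        ∫ p, ∫ z, Pg n k ⟪p.1, dir z⟫ * Pg n k ⟪dir z, p.2⟫ ∂(gam n) ∂((μ i).prod (μ j)) := by
      rw [integral_prod]
      exact hint.integral_prod_left
    rw [e2]
    rw [integral_integral_swap (f := fun (p : En n × En n) z =>
      Pg n k ⟪p.1, dir z⟫ * Pg n k ⟪dir z, p.2⟫) hint]
    congr 1
    ext z
    have e3 := integral_prod_mul (μ := μ i) (ν := μ j) (fun u => Pg n k ⟪u, dir z⟫)
      (fun v => Pg n k ⟪dir z, v⟫)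
    rw [e3, hg]
    simp only
    congr 1
    congr 1
    ext v
    rw [real_inner_comm]
  have hgm : ∀ i, Measurable (g i) := by
    intro i
    rw [hg]
    have m2 : StronglyMeasurable (Function.uncurry fun (z : En n) (u : En n) => Pg n k ⟪u, dir z⟫) := by
      apply Measurable.stronglyMeasurable
      unfold Function.uncurry
      simp only
      exact (Pg_cont n k).measurable.comp (measurable_snd.inner (measurable_dir0.comp measurable_fst))
    exact (m2.integral_prod_right (ν := μ i)).measurable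
  have hgb : ∀ i z, |g i z| ≤ 1 := by
    intro i z
    rw [hg]
    simp only
    rw [← Real.norm_eq_abs]
    have := norm_integral_le_of_norm_le_const (μ := μ i) (f := fun u => Pg n k ⟪u, dir z⟫) (C := 1)
      (by
        filter_upwards [h1 i] with u hu
        exact Pg_le_one hn k (abs_inner_le_one hu.le (norm_dir_le _)))
    simpa using this
  have hgi : ∀ i j, Integrable (fun z => g i z * g j z) (gam n) := by
    intro i j
    refine Integrable.of_bound (C := 1) ((hgm i).mul (hgm j)).aestronglyMeasurable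
      (Filter.Eventually.of_forall fun z => ?_)
    rw [norm_mul]
    exact mul_le_one₀ (hgb i z) (norm_nonneg _) (hgb j z)
  have hfin : c * ∑ i, ∑ j, a i * a j * fm n k (μ i) (μ j) =
      ∫ z, (∑ i, a i * g i z) ^ 2 ∂(gam n) := by
    have e4 : ∀ z, (∑ i, a i * g i z) ^ 2 = ∑ i, ∑ j, (a i * a j) * (g i z * g j z) := by
      intro z
      rw [sq, Finset.sum_mul_sum]
      apply Finset.sum_congr rfl
      intro i _
      apply Finset.sum_congr rfl
      intro j _
      ring
    simp_rw [e4]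
    rw [integral_finsetSum, Finset.mul_sum]
    · apply Finset.sum_congr rfl
      intro i _
      rw [integral_finsetSum, Finset.mul_sum]
      · apply Finset.sum_congr rfl
        intro j _
        rw [integral_const_mul, ← hfm]
        ring
      · intro j _
        exact (hgi i j).const_mul _
    · intro i _
      apply integrable_finsetSum
      intro j _
      exact (hgi i j).const_mul _
  have h5 : 0 ≤ c * ∑ i, ∑ j, a i * a j * fm n k (μ i) (μ j) := by
    rw [hfin]
    exact integral_nonneg fun z => sq_nonneg _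
  exact nonneg_of_mul_nonneg_right h5 hc0

end Pool.Agent.W778.AG
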